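import Mathlib

/-!
# Ordered gluing complexes and piecewise linear maps between their realisations

A `Glue n` is a family of `n`-simplices (facets) together with, for every facet and every `a : Fin (n+1)`,
the name (a natural number) of the codimension one face opposite to the vertex `a`.  In the realisation
faces with the same name are identified by the order preserving affine isomorphism.
-/

open Set

namespace Pool.Agent.H34.PLE

/-- the standard simplex of dimension `n` -/
abbrev Sx (n : ℕ) := stdSimplex ℝ (Fin (n + 1))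

/-- A gluing complex of dimension `n`: a type of facets and the names of their codimension one faces. -/
structure Glue (n : ℕ) where
  /-- the facets -/
  ι : Type
  /-- `face i a` is the name of the codimension one face of the facet `i` opposite to the vertex `a` -/
  face : ι → Fin (n + 1) → ℕ

namespace Glue

variable {n m k : ℕ}

/-- The elementary identifications: a point of facet `p.1` on the face opposite to `a` is identified with
the corresponding (order preserving) point of the facet `q.1` on the face opposite to `b` if these two faces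
have the same name. -/
def Rel (K : Glue n) (p q : Σ _ : K.ι, Sx n) : Prop :=
  ∃ a b : Fin (n + 1), p.2.1 a = 0 ∧ q.2.1 b = 0 ∧ K.face p.1 a = K.face q.1 b ∧
    ∀ j : Fin n, p.2.1 (a.succAbove j) = q.2.1 (b.succAbove j)

/-- The realisation of a gluing complex. -/
def Real (K : Glue n) : Type := Quot K.Rel

instance (K : Glue n) : TopologicalSpace K.Real :=
  inferInstanceAs (TopologicalSpace (Quot K.Rel))

/-- the point of the realisation with given facet and barycentric coordinates -/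
def pt (K : Glue n) (i : K.ι) (x : Sx n) : K.Real := Quot.mk _ ⟨i, x⟩

lemma pt_eq_of_rel (K : Glue n) {i j : K.ι} {x y : Sx n} (a b : Fin (n + 1)) (ha : x.1 a = 0) (hb : y.1 b = 0)
    (hf : K.face i a = K.face j b) (h : ∀ s : Fin n, x.1 (a.succAbove s) = y.1 (b.succAbove s)) :
    K.pt i x = K.pt j y :=
  Quot.sound ⟨a, b, ha, hb, hf, h⟩

lemma exists_pt (K : Glue n) (z : K.Real) : ∃ i x, z = K.pt i x := by
  induction z using Quot.ind with
  | mk p => exact ⟨p.1, p.2, rfl⟩

end Glue

/-- A piece of a piecewise linear map: a polyhedral cone (given by finitely many linear inequalities), a target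
facet and a linear map of barycentric coordinates. -/
structure Piece (n m : ℕ) (J : Type) where
  /-- the inequalities `0 ≤ ℓ x` -/
  L : List ((Fin (n + 1) → ℝ) →ₗ[ℝ] ℝ)
  /-- the target facet -/
  j : J
  /-- the linear map -/
  T : (Fin (n + 1) → ℝ) →ₗ[ℝ] (Fin (m + 1) → ℝ)

/-- the cone of a piece -/
def Piece.Dom {n m : ℕ} {J : Type} (P : Piece n m J) (x : Fin (n + 1) → ℝ) : Prop := ∀ ℓ ∈ P.L, 0 ≤ ℓ x

/-- A map between realisations is piecewise linear if every facet is covered by finitely many polyhedra on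
each of which the map is given by a linear map of barycentric coordinates into one facet of the target. -/
def IsPL {n m : ℕ} (K : Glue n) (K' : Glue m) (f : K.Real → K'.Real) : Prop :=
  ∀ i : K.ι, ∃ Ps : List (Piece n m K'.ι), (∀ x : Sx n, ∃ P ∈ Ps, P.Dom x.1) ∧
    ∀ P ∈ Ps, ∀ x : Sx n, P.Dom x.1 → ∃ h : P.T x.1 ∈ stdSimplex ℝ (Fin (m + 1)),
      f (K.pt i x) = K'.pt P.j ⟨P.T x.1, h⟩

/-- Two gluing complexes are piecewise linearly homeomorphic. -/
def PLHomeo {n m : ℕ} (K : Glue n) (K' : Glue m) : Prop :=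
  ∃ (f : K.Real → K'.Real) (g : K'.Real → K.Real), IsPL K K' f ∧ IsPL K' K g ∧
    (∀ x, g (f x) = x) ∧ ∀ y, f (g y) = y

variable {n m k : ℕ}

lemma isPL_id (K : Glue n) : IsPL K K id := by
  intro i
  refine ⟨[⟨[], i, LinearMap.id⟩], ?_, ?_⟩
  · intro x
    refine ⟨_, List.mem_singleton_self _, ?_⟩
    intro ℓ hℓ
    simp at hℓ
  · intro P hP x _
    rw [List.mem_singleton] at hP
    subst hP
    exact ⟨x.2, rfl⟩

lemma IsPL.comp {K : Glue n} {K' : Glue m} {K'' : Glue k} {f : K.Real → K'.Real} {g : K'.Real → K''.Real}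
    (hg : IsPL K' K'' g) (hf : IsPL K K' f) : IsPL K K'' (g ∘ f) := by
  classical
  intro i
  obtain ⟨Ps, hP1, hP2⟩ := hf i
  choose Qs hQ1 hQ2 using hg
  refine ⟨Ps.flatMap (fun P => (Qs P.j).map (fun Q =>
    ⟨P.L ++ Q.L.map (fun ℓ => ℓ.comp P.T), Q.j, Q.T.comp P.T⟩)), ?_, ?_⟩
  · intro x
    obtain ⟨P, hP, hPx⟩ := hP1 x
    obtain ⟨h, _⟩ := hP2 P hP x hPx
    obtain ⟨Q, hQ, hQx⟩ := hQ1 P.j ⟨P.T x.1, h⟩
    refine ⟨⟨P.L ++ Q.L.map (fun ℓ => ℓ.comp P.T), Q.j, Q.T.comp P.T⟩, ?_, ?_⟩
    · rw [List.mem_flatMap]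
      exact ⟨P, hP, List.mem_map.mpr ⟨Q, hQ, rfl⟩⟩
    · intro ℓ hℓ
      rw [List.mem_append] at hℓ
      rcases hℓ with hℓ | hℓ
      · exact hPx ℓ hℓ
      · obtain ⟨ℓ', hℓ', rfl⟩ := List.mem_map.mp hℓ
        exact hQx ℓ' hℓ'
  · intro R hR x hx
    rw [List.mem_flatMap] at hR
    obtain ⟨P, hP, hR⟩ := hR
    obtain ⟨Q, hQ, rfl⟩ := List.mem_map.mp hR
    have hPx : P.Dom x.1 := fun ℓ hℓ => hx ℓ (List.mem_append_left _ hℓ)
    obtain ⟨h, hf'⟩ := hP2 P hP x hPx
    have hQx : Q.Dom (P.T x.1) := fun ℓ hℓ => hx _ (List.mem_append_right _ (List.mem_map.mpr ⟨ℓ, hℓ, rfl⟩))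
    obtain ⟨h', hg'⟩ := hQ2 P.j Q hQ ⟨P.T x.1, h⟩ hQx
    refine ⟨h', ?_⟩
    show g (f (K.pt i x)) = _
    rw [hf', hg']
    rfl

/-- piecewise linear maps are continuous -/
lemma IsPL.continuous {K : Glue n} {K' : Glue m} {f : K.Real → K'.Real} (hf : IsPL K K' f) : Continuous f := by
  classical
  refine (isQuotientMap_quot_mk (r := K.Rel)).continuous_iff.mpr ?_
  rw [continuous_sigma_iff]
  intro i
  obtain ⟨Ps, hP1, hP2⟩ := hf i
  -- the closed pieces
  let C : Fin Ps.length → Set (Sx n) := fun s => {x | (Ps.get s).Dom x.1}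
  have hC : ∀ s, IsClosed (C s) := by
    intro s
    have : C s = ⋂ ℓ ∈ (Ps.get s).L, {x : Sx n | 0 ≤ ℓ x.1} := by
      ext x
      simp only [C, mem_ofPred_eq, mem_iInter, Piece.Dom]
    rw [this]
    refine isClosed_biInter fun ℓ _ => ?_
    exact isClosed_le continuous_const ((LinearMap.continuous_of_finiteDimensional ℓ).comp continuous_subtype_val)
  refine (locallyFinite_of_finite C).continuous ?_ hC ?_
  · rw [eq_univ_iff_forall]
    intro x
    obtain ⟨P, hP, hPx⟩ := hP1 x
    obtain ⟨s, rfl⟩ := List.get_of_mem hP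
    exact mem_iUnion.mpr ⟨s, hPx⟩
  · intro s
    rw [continuousOn_iff_continuous_domRestrict]
    have h1 : ∀ x : C s, (Ps.get s).T x.1.1 ∈ stdSimplex ℝ (Fin (m + 1)) := fun x =>
      (hP2 _ (List.get_mem Ps s) x.1 x.2).choose
    have h2 : (C s).domRestrict ((f ∘ Quot.mk K.Rel) ∘ (Sigma.mk (β := fun _ : K.ι => Sx n) i)) =
        fun x => K'.pt (Ps.get s).j ⟨(Ps.get s).T x.1.1, h1 x⟩ := by
      funext x
      exact (hP2 _ (List.get_mem Ps s) x.1 x.2).choose_spec
    have h3 : Continuous (fun x : Sx m => K'.pt (Ps.get s).j x) :=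
      continuous_quot_mk.comp continuous_sigmaMk
    have h4 : Continuous (fun x : C s => K'.pt (Ps.get s).j ⟨(Ps.get s).T x.1.1, h1 x⟩) := by
      apply h3.comp
      apply Continuous.subtype_mk
      exact (LinearMap.continuous_of_finiteDimensional _).comp (continuous_subtype_val.comp continuous_subtype_val)
    rw [← h2] at h4
    exact h4

lemma PLHomeo.refl (K : Glue n) : PLHomeo K K := ⟨id, id, isPL_id K, isPL_id K, fun _ => rfl, fun _ => rfl⟩

lemma PLHomeo.symm {K : Glue n} {K' : Glue m} (h : PLHomeo K K') : PLHomeo K' K := by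
  obtain ⟨f, g, hf, hg, h1, h2⟩ := h
  exact ⟨g, f, hg, hf, h2, h1⟩

lemma PLHomeo.trans {K : Glue n} {K' : Glue m} {K'' : Glue k} (h : PLHomeo K K') (h' : PLHomeo K' K'') :
    PLHomeo K K'' := by
  obtain ⟨f, g, hf, hg, h1, h2⟩ := h
  obtain ⟨f', g', hf', hg', h1', h2'⟩ := h'
  refine ⟨f' ∘ f, g ∘ g', hf'.comp hf, hg.comp hg', fun x => ?_, fun y => ?_⟩
  · simp only [Function.comp, h1', h1]
  · simp only [Function.comp, h2, h2']

lemma PLHomeo.homeomorph {K : Glue n} {K' : Glue m} (h : PLHomeo K K') : Nonempty (K.Real ≃ₜ K'.Real) := by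
  obtain ⟨f, g, hf, hg, h1, h2⟩ := h
  exact ⟨{ toFun := f, invFun := g, left_inv := h1, right_inv := h2,
           continuous_toFun := hf.continuous, continuous_invFun := hg.continuous }⟩

/-- An isomorphism of gluing complexes: a bijection of the facets and a bijection of the names. -/
lemma PLHomeo.of_equiv {K K' : Glue n} (e : K.ι ≃ K'.ι)
    (h : ∀ i j a b, K.face i a = K.face j b ↔ K'.face (e i) a = K'.face (e j) b) : PLHomeo K K' := by
  have key : ∀ (K K' : Glue n) (e : K.ι ≃ K'.ι)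
      (h : ∀ i j a b, K.face i a = K.face j b → K'.face (e i) a = K'.face (e j) b),
      ∃ f : K.Real → K'.Real, (∀ i x, f (K.pt i x) = K'.pt (e i) x) ∧ IsPL K K' f := by
    intro K K' e h
    let f : K.Real → K'.Real := Quot.lift (fun p => K'.pt (e p.1) p.2) (by
      rintro ⟨i, x⟩ ⟨j, y⟩ ⟨a, b, ha, hb, hf, hs⟩
      exact K'.pt_eq_of_rel a b ha hb (h i j a b hf) hs)
    refine ⟨f, fun i x => rfl, ?_⟩
    intro i
    refine ⟨[⟨[], e i, LinearMap.id⟩], ?_, ?_⟩
    · intro x
      refine ⟨_, List.mem_singleton_self _, ?_⟩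
      intro ℓ hℓ
      simp at hℓ
    · intro P hP x _
      rw [List.mem_singleton] at hP
      subst hP
      exact ⟨x.2, rfl⟩
  obtain ⟨f, hf1, hf2⟩ := key K K' e (fun i j a b => (h i j a b).mp)
  obtain ⟨g, hg1, hg2⟩ := key K' K e.symm (fun i j a b hij => by
    rw [h]; simpa using hij)
  refine ⟨f, g, hf2, hg2, ?_, ?_⟩
  · intro z
    obtain ⟨i, x, rfl⟩ := K.exists_pt z
    rw [hf1, hg1, e.symm_apply_apply]
  · intro z
    obtain ⟨i, x, rfl⟩ := K'.exists_pt z
    rw [hg1, hf1, e.apply_symm_apply]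

end Pool.Agent.H34.PLE
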