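import Pool.Agent.H34.PLE.StairReal

/-!
# The boundary of a simplex is homeomorphic to a sphere
-/

open Set

namespace Pool.Agent.H34.PLE.Stair

/-- the solid simplex in `ℝ^m` -/
def solid (m : ℕ) : Set (EuclideanSpace ℝ (Fin m)) := {x | (∀ i, 0 ≤ x i) ∧ ∑ i, x i ≤ 1}

lemma convex_solid (m : ℕ) : Convex ℝ (solid m) := by
  intro x hx y hy a b ha hb hab
  refine ⟨fun i => ?_, ?_⟩
  · have h1 := hx.1 i
    have h2 := hy.1 i
    simp only [PiLp.add_apply, PiLp.smul_apply, smul_eq_mul]
    positivity
  · simp only [PiLp.add_apply, PiLp.smul_apply, smul_eq_mul, Finset.sum_add_distrib, ← Finset.mul_sum]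
    have h1 := mul_le_mul_of_nonneg_left hx.2 ha
    have h2 := mul_le_mul_of_nonneg_left hy.2 hb
    linarith

lemma isClosed_solid (m : ℕ) : IsClosed (solid m) := by
  have h : solid m = (⋂ i, {x : EuclideanSpace ℝ (Fin m) | 0 ≤ x i}) ∩ {x | ∑ i, x i ≤ 1} := by
    ext x
    simp [solid]
  rw [h]
  refine IsClosed.inter (isClosed_iInter fun i => isClosed_le continuous_const (by fun_prop)) ?_
  exact isClosed_le (by fun_prop) continuous_const

lemma bounded_solid (m : ℕ) : Bornology.IsBounded (solid m) := by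
  rw [isBounded_iff_forall_norm_le]
  refine ⟨Real.sqrt (∑ _i : Fin m, 1), fun x hx => ?_⟩
  rw [EuclideanSpace.norm_eq]
  apply Real.sqrt_le_sqrt
  refine Finset.sum_le_sum (fun i _ => ?_)
  have h1 : x i ≤ 1 := le_trans (Finset.single_le_sum (fun j _ => hx.1 j) (Finset.mem_univ i)) hx.2
  rw [Real.norm_eq_abs, sq_abs]
  have h0 := hx.1 i
  nlinarith

lemma interior_solid (m : ℕ) (hm : 1 ≤ m) : interior (solid m) = {x | (∀ i, 0 < x i) ∧ ∑ i, x i < 1} := by
  apply Subset.antisymm
  · intro x hx
    have hxs := interior_subset hx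
    have key : ∀ (i : Fin m) (c : ℝ), ∃ ε > 0, x + EuclideanSpace.single i (ε * c) ∈ solid m := by
      intro i c
      have hcont : Continuous (fun ε : ℝ => x + EuclideanSpace.single i (ε * c)) := by
        refine continuous_const.add ?_
        have : (fun ε : ℝ => EuclideanSpace.single i (ε * c)) = fun ε : ℝ => (ε * c) • EuclideanSpace.single i (1 : ℝ) := by
          funext ε
          ext j
          simp
        rw [this]
        exact (continuous_id.mul continuous_const).smul continuous_const
      have h0 : (fun ε : ℝ => x + EuclideanSpace.single i (ε * c)) 0 ∈ interior (solid m) := by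
        have e0 : EuclideanSpace.single i ((0 : ℝ) * c) = 0 := by ext j; simp
        show x + EuclideanSpace.single i ((0 : ℝ) * c) ∈ interior (solid m)
        rw [e0, add_zero]
        exact hx
      have h1 := hcont.continuousAt.preimage_mem_nhds (isOpen_interior.mem_nhds h0)
      obtain ⟨δ, hδ, hball⟩ := Metric.mem_nhds_iff.mp h1
      refine ⟨δ / 2, by positivity, interior_subset (hball ?_)⟩
      rw [Metric.mem_ball, Real.dist_eq, sub_zero, abs_of_pos (by positivity)]
      linarith
    refine ⟨fun i => ?_, ?_⟩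
    · obtain ⟨ε, hε, h⟩ := key i (-1)
      have h1 := h.1 i
      simp only [PiLp.add_apply, PiLp.single_apply, if_true] at h1
      linarith
    · obtain ⟨ε, hε, h⟩ := key ⟨0, hm⟩ 1
      have h1 := h.2
      simp only [PiLp.add_apply, PiLp.single_apply, Finset.sum_add_distrib, Finset.sum_ite_eq',
        Finset.mem_univ, if_true] at h1
      linarith
  · apply interior_maximal
    · intro x hx
      exact ⟨fun i => (hx.1 i).le, hx.2.le⟩
    · have h : {x : EuclideanSpace ℝ (Fin m) | (∀ i, 0 < x i) ∧ ∑ i, x i < 1} =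
          (⋂ i, {x : EuclideanSpace ℝ (Fin m) | 0 < x i}) ∩ {x | ∑ i, x i < 1} := by
        ext x
        simp
      rw [h]
      refine IsOpen.inter (isOpen_iInter_of_finite fun i => isOpen_lt continuous_const (by fun_prop)) ?_
      exact isOpen_lt (by fun_prop) continuous_const

/-- **The boundary of the standard `m`-simplex is homeomorphic to the unit sphere of `ℝ^m`.** -/
theorem bdSx_homeo_sphere (m : ℕ) (hm : 1 ≤ m) :
    Nonempty (bdSx m ≃ₜ Metric.sphere (0 : EuclideanSpace ℝ (Fin m)) 1) := by
  have hne : (interior (solid m)).Nonempty := by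
    rw [interior_solid m hm]
    refine ⟨WithLp.toLp 2 (fun _ => 1 / (m + 1 : ℝ)), fun i => by positivity, ?_⟩
    show ∑ _i : Fin m, 1 / (m + 1 : ℝ) < 1
    rw [Finset.sum_const, Finset.card_univ, Fintype.card_fin, nsmul_eq_mul, mul_one_div, div_lt_one (by positivity)]
    linarith
  obtain ⟨h, _, _, h3⟩ := exists_homeomorph_image_interior_closure_frontier_eq_unitBall (convex_solid m) hne
    (bounded_solid m)
  have hfr : frontier (solid m) = {x | x ∈ solid m ∧ ((∃ i, x i = 0) ∨ ∑ i, x i = 1)} := by
    rw [frontier, (isClosed_solid m).closure_eq, interior_solid m hm]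
    ext x
    constructor
    · rintro ⟨h1, h2⟩
      refine ⟨h1, ?_⟩
      by_contra hc
      push Not at hc
      exact h2 ⟨fun i => lt_of_le_of_ne (h1.1 i) (Ne.symm (hc.1 i)), lt_of_le_of_ne h1.2 hc.2⟩
    · rintro ⟨h1, h2⟩
      refine ⟨h1, fun hc => ?_⟩
      rcases h2 with ⟨i, hi⟩ | h2
      · exact (hc.1 i).ne' hi
      · exact hc.2.ne h2
  let p : (Fin (m + 1) → ℝ) → EuclideanSpace ℝ (Fin m) := fun x => WithLp.toLp 2 (fun i => x i.castSucc)
  have hp : Continuous p := by
    refine (PiLp.continuous_toLp 2 _).comp ?_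
    fun_prop
  have hmem : ∀ x ∈ bdSx m, p x ∈ frontier (solid m) := by
    rintro x ⟨⟨hx0, hx1⟩, ⟨i, hi⟩⟩
    rw [hfr]
    rw [Fin.sum_univ_castSucc] at hx1
    have hs : ∑ i, (p x) i = ∑ i : Fin m, x i.castSucc := rfl
    refine ⟨⟨fun i => hx0 _, ?_⟩, ?_⟩
    · rw [hs]
      have := hx0 (Fin.last m)
      linarith
    · induction i using Fin.lastCases with
      | last => right; rw [hs]; linarith
      | cast i => left; exact ⟨i, hi⟩
  have hsph : ∀ x : bdSx m, h (p x.1) ∈ Metric.sphere (0 : EuclideanSpace ℝ (Fin m)) 1 := by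
    intro x
    rw [← h3]
    exact mem_image_of_mem _ (hmem x.1 x.2)
  let f : bdSx m → Metric.sphere (0 : EuclideanSpace ℝ (Fin m)) 1 := fun x => ⟨h (p x.1), hsph x⟩
  have hf : Continuous f := (h.continuous.comp (hp.comp continuous_subtype_val)).subtype_mk _
  have hcomp : CompactSpace (bdSx m) := by
    rw [← isCompact_iff_compactSpace]
    have h4 : bdSx m = stdSimplex ℝ (Fin (m + 1)) ∩ ⋃ i, {x | x i = 0} := by ext x; simp [bdSx]
    rw [h4]
    refine (isCompact_stdSimplex ℝ (Fin (m + 1))).inter_right ?_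
    exact isClosed_iUnion_of_finite fun i => isClosed_eq (continuous_apply i) continuous_const
  have hb : Function.Bijective f := by
    constructor
    · rintro ⟨x, ⟨_, hx1⟩, _⟩ ⟨y, ⟨_, hy1⟩, _⟩ hxy
      have h4 : p x = p y := h.injective (congrArg Subtype.val hxy)
      have h5 : ∀ i : Fin m, x i.castSucc = y i.castSucc := fun i => congrFun (congrArg WithLp.ofLp h4) i
      rw [Fin.sum_univ_castSucc] at hx1 hy1
      have h6 : ∑ i : Fin m, x i.castSucc = ∑ i : Fin m, y i.castSucc := Finset.sum_congr rfl (fun i _ => h5 i)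
      apply Subtype.ext
      funext i
      induction i using Fin.lastCases with
      | last => show x (Fin.last m) = y (Fin.last m); linarith
      | cast i => exact h5 i
    · rintro ⟨y, hy⟩
      rw [← h3] at hy
      obtain ⟨z, hz, rfl⟩ := hy
      rw [hfr] at hz
      obtain ⟨⟨hz0, hz1⟩, hz2⟩ := hz
      let x : Fin (m + 1) → ℝ := Fin.lastCases (1 - ∑ i, z i) (fun i => z i)
      have hx1 : ∀ i : Fin m, x i.castSucc = z i := fun i => by simp [x]
      have hx2 : x (Fin.last m) = 1 - ∑ i, z i := by simp [x]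
      refine ⟨⟨x, ⟨fun i => ?_, ?_⟩, ?_⟩, ?_⟩
      · induction i using Fin.lastCases with
        | last => rw [hx2]; linarith
        | cast i => rw [hx1]; exact hz0 i
      · rw [Fin.sum_univ_castSucc, hx2]
        simp only [hx1]
        ring
      · rcases hz2 with ⟨i, hi⟩ | hz2
        · exact ⟨i.castSucc, by rw [hx1, hi]⟩
        · exact ⟨Fin.last m, by rw [hx2, hz2, sub_self]⟩
      · apply Subtype.ext
        show h (p x) = h z
        congr 1
        ext i
        exact hx1 i
  exact ⟨Continuous.homeoOfEquivCompactToT2 (f := Equiv.ofBijective f hb) hf⟩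

end Pool.Agent.H34.PLE.Stair
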