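import Mathlib

/-!
# Packed digits

`dg w x k` is the `k`-th digit of `x` in base `2 ^ w`.
-/

namespace Pool.Agent.H34.PLE

/-- the digit `k` of `x` in base `2 ^ w` -/
def dg (w x k : ℕ) : ℕ := Nat.mod (Nat.shiftRight x (Nat.mul w k)) (Nat.pow 2 w)

lemma dg_def (w x k : ℕ) : dg w x k = (x >>> (w * k)) % 2 ^ w := rfl

lemma testBit_dg (w x k i : ℕ) : (dg w x k).testBit i = (decide (i < w) && x.testBit (w * k + i)) := by
  rw [dg_def, Nat.testBit_mod_two_pow, Nat.testBit_shiftRight]

lemma dg_lt (w x k : ℕ) : dg w x k < 2 ^ w := by rw [dg_def]; exact Nat.mod_lt _ (by positivity)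

lemma dg_zero (w k : ℕ) : dg w 0 k = 0 := by rw [dg_def, Nat.zero_shiftRight, Nat.zero_mod]

lemma dg_or (w x y k : ℕ) : dg w (x ||| y) k = dg w x k ||| dg w y k := by
  apply Nat.eq_of_testBit_eq; intro i
  simp only [testBit_dg, Nat.testBit_or]
  cases decide (i < w) <;> simp

lemma dg_and (w x y k : ℕ) : dg w (x &&& y) k = dg w x k &&& dg w y k := by
  apply Nat.eq_of_testBit_eq; intro i
  simp only [testBit_dg, Nat.testBit_and]
  cases decide (i < w) <;> simp

lemma dg_xor (w x y k : ℕ) : dg w (x ^^^ y) k = dg w x k ^^^ dg w y k := by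
  apply Nat.eq_of_testBit_eq; intro i
  simp only [testBit_dg, Nat.testBit_xor]
  cases decide (i < w) <;> simp

lemma dg_shl (w x m k : ℕ) : dg w (x <<< (w * m)) k = if m ≤ k then dg w x (k - m) else 0 := by
  apply Nat.eq_of_testBit_eq; intro i
  split_ifs with h
  · obtain ⟨l, rfl⟩ := Nat.exists_eq_add_of_le h
    simp only [testBit_dg, Nat.testBit_shiftLeft]
    have h1 : decide (w * (m + l) + i ≥ w * m) = true := by
      rw [decide_eq_true_iff, mul_add]; omega
    have h2 : w * (m + l) + i - w * m = w * (m + l - m) + i := by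
      rw [mul_add, Nat.add_sub_cancel_left]; omega
    rw [h1, h2]; simp
  · simp only [testBit_dg, Nat.testBit_shiftLeft, Nat.zero_testBit]
    by_cases hi : i < w
    · have h1 : decide (w * k + i ≥ w * m) = false := by
        rw [decide_eq_false_iff_not]
        have : w * (k + 1) ≤ w * m := Nat.mul_le_mul_left _ (by omega)
        rw [mul_add] at this; omega
      rw [h1]; simp
    · simp [hi]

lemma dg_shr (w x m k : ℕ) : dg w (x >>> (w * m)) k = dg w x (k + m) := by
  apply Nat.eq_of_testBit_eq; intro i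
  simp only [testBit_dg, Nat.testBit_shiftRight]
  congr 2; ring

lemma dg_mod (w x m k : ℕ) : dg w (x % 2 ^ (w * m)) k = if k < m then dg w x k else 0 := by
  apply Nat.eq_of_testBit_eq; intro i
  split_ifs with h
  · simp only [testBit_dg, Nat.testBit_mod_two_pow]
    by_cases hi : i < w
    · have : w * k + i < w * m := by
        have : w * (k + 1) ≤ w * m := Nat.mul_le_mul_left _ h
        rw [mul_add] at this; omega
      simp [this]
    · simp [hi]
  · simp only [testBit_dg, Nat.testBit_mod_two_pow, Nat.zero_testBit]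
    have : ¬ (w * k + i < w * m) := by
      have : w * m ≤ w * k := Nat.mul_le_mul_left _ (by omega)
      omega
    simp [this]

lemma dg_of_lt (w x m k : ℕ) (h : x < 2 ^ (w * m)) (hk : m ≤ k) : dg w x k = 0 := by
  have : x % 2 ^ (w * m) = x := Nat.mod_eq_of_lt h
  rw [← this, dg_mod, if_neg (by omega)]

lemma dg_small (w x : ℕ) (h : x < 2 ^ w) (k : ℕ) : dg w x k = if k = 0 then x else 0 := by
  split_ifs with hk
  · subst hk
    rw [dg_def, mul_zero, Nat.shiftRight_zero, Nat.mod_eq_of_lt h]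
  · exact dg_of_lt w x 1 k (by rwa [mul_one]) (by omega)

/-- a number is determined by its digits -/
lemma eq_of_dg (w : ℕ) (hw : 0 < w) (x y : ℕ) (h : ∀ k, dg w x k = dg w y k) : x = y := by
  apply Nat.eq_of_testBit_eq; intro i
  have h1 : ∀ z : ℕ, z.testBit i = (dg w z (i / w)).testBit (i % w) := by
    intro z
    rw [testBit_dg, Nat.div_add_mod]
    simp [Nat.mod_lt _ hw]
  rw [h1 x, h1 y, h]

lemma lt_of_dg (w : ℕ) (hw : 0 < w) (x m : ℕ) (h : ∀ k, m ≤ k → dg w x k = 0) : x < 2 ^ (w * m) := by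
  have : x = x % 2 ^ (w * m) := by
    apply eq_of_dg w hw
    intro k
    rw [dg_mod]
    split_ifs with hk
    · rfl
    · exact h k (by omega)
  rw [this]
  exact Nat.mod_lt _ (by positivity)

lemma dg_ones (w m k : ℕ) : dg w (2 ^ (w * m) - 1) k = if k < m then 2 ^ w - 1 else 0 := by
  apply Nat.eq_of_testBit_eq; intro i
  split_ifs with h
  · simp only [testBit_dg, Nat.testBit_two_pow_sub_one]
    by_cases hi : i < w
    · have : w * k + i < w * m := by
        have : w * (k + 1) ≤ w * m := Nat.mul_le_mul_left _ h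
        rw [mul_add] at this; omega
      simp [this]
    · simp [hi]
  · simp only [testBit_dg, Nat.testBit_two_pow_sub_one, Nat.zero_testBit]
    have : ¬ (w * k + i < w * m) := by
      have : w * m ≤ w * k := Nat.mul_le_mul_left _ (by omega)
      omega
    simp [this]

lemma and_ones {w x : ℕ} (h : x < 2 ^ w) : x &&& (2 ^ w - 1) = x := by
  rw [Nat.and_two_pow_sub_one_eq_mod, Nat.mod_eq_of_lt h]

/-! ### folds -/

/-- `f 0 ||| ... ||| f (m-1)` -/
def orf (m : ℕ) (f : ℕ → ℕ) : ℕ := Nat.rec (motive := fun _ => ℕ) 0 (fun j acc => Nat.lor acc (f j)) m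

lemma orf_zero (f : ℕ → ℕ) : orf 0 f = 0 := rfl

lemma orf_succ (m : ℕ) (f : ℕ → ℕ) : orf (m + 1) f = orf m f ||| f m := rfl

lemma dg_orf (w m : ℕ) (f : ℕ → ℕ) (k : ℕ) : dg w (orf m f) k = orf m (fun j => dg w (f j) k) := by
  induction m with
  | zero => rw [orf_zero, orf_zero, dg_zero]
  | succ m ih => rw [orf_succ, orf_succ, dg_or, ih]

lemma orf_congr (m : ℕ) (f g : ℕ → ℕ) (h : ∀ j < m, f j = g j) : orf m f = orf m g := by
  induction m with
  | zero => rfl
  | succ m ih => rw [orf_succ, orf_succ, ih (fun j hj => h j (by omega)), h m (by omega)]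

lemma orf_zero_fun (m : ℕ) (f : ℕ → ℕ) (h : ∀ j < m, f j = 0) : orf m f = 0 := by
  induction m with
  | zero => rfl
  | succ m ih => rw [orf_succ, ih (fun j hj => h j (by omega)), h m (by omega)]; rfl

lemma orf_single (m : ℕ) (f : ℕ → ℕ) (i : ℕ) (hi : i < m) (h : ∀ j < m, j ≠ i → f j = 0) : orf m f = f i := by
  induction m with
  | zero => omega
  | succ m ih =>
    rw [orf_succ]
    by_cases hm : m = i
    · subst hm
      rw [orf_zero_fun m f (fun j hj => h j (by omega) (by omega)), Nat.zero_or]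
    · rw [ih (by omega) (fun j hj hji => h j (by omega) hji), h m (by omega) hm, Nat.or_zero]

lemma orf_lt (m W : ℕ) (f : ℕ → ℕ) (h : ∀ j < m, f j < 2 ^ W) : orf m f < 2 ^ W := by
  induction m with
  | zero => rw [orf_zero]; positivity
  | succ m ih => rw [orf_succ]; exact Nat.or_lt_two_pow (ih (fun j hj => h j (by omega))) (h m (by omega))

lemma or_add (x y s : ℕ) (h : x < 2 ^ s) : x ||| (y <<< s) = x + y * 2 ^ s := by
  rw [Nat.or_comm, ← Nat.shiftLeft_add_eq_or_of_lt h, Nat.shiftLeft_eq]; ring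

/-- the sum with disjoint digits is a bitwise or -/
lemma orf_shl_lt (W m : ℕ) (f : ℕ → ℕ) (hf : ∀ j < m, f j < 2 ^ W) : orf m (fun j => f j <<< (W * j)) < 2 ^ (W * m) := by
  apply orf_lt
  intro j hj
  rw [Nat.shiftLeft_eq]
  calc f j * 2 ^ (W * j) < 2 ^ W * 2 ^ (W * j) := by
        apply Nat.mul_lt_mul_of_pos_right (hf j hj); positivity
    _ = 2 ^ (W * (j + 1)) := by rw [← pow_add]; congr 1; ring
    _ ≤ 2 ^ (W * m) := Nat.pow_le_pow_right (by omega) (Nat.mul_le_mul_left _ (by omega))

/-- replication by multiplication -/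
lemma mul_orf (W m x : ℕ) (hx : x < 2 ^ W) :
    x * orf m (fun j => 1 <<< (W * j)) = orf m (fun j => x <<< (W * j)) := by
  rcases Nat.eq_zero_or_pos W with rfl | hW
  · have : x = 0 := by simpa using hx
    subst this
    rw [zero_mul, orf_zero_fun]
    intro j _; simp
  induction m with
  | zero => rfl
  | succ m ih =>
    rw [orf_succ, orf_succ, ← ih]
    rw [or_add _ _ _ (orf_shl_lt W m (fun _ => 1) (fun _ _ => Nat.one_lt_two_pow hW.ne')), mul_add, ih,
      or_add _ _ _ (orf_shl_lt W m (fun _ => x) (fun _ _ => hx)), one_mul]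

/-- an affine expression has the expected digits -/
lemma affine_orf (W N c : ℕ) (hW : 0 < W) (p : ℕ → ℕ) (h : ∀ j < N, c + p j < 2 ^ W) :
    c * orf N (fun j => 1 <<< (W * j)) + orf N (fun j => p j <<< (W * j)) = orf N (fun j => (c + p j) <<< (W * j)) := by
  induction N with
  | zero => rfl
  | succ m ih =>
    rw [orf_succ, orf_succ, orf_succ, ← ih (fun j hj => h j (by omega))]
    rw [or_add _ _ _ (orf_shl_lt W m (fun _ => 1) (fun _ _ => Nat.one_lt_two_pow hW.ne')),
      or_add _ _ _ (orf_shl_lt W m p (fun j hj => lt_of_le_of_lt (Nat.le_add_left _ _) (h j (by omega)))),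
      ih (fun j hj => h j (by omega)),
      or_add _ _ _ (orf_shl_lt W m (fun j => c + p j) (fun j hj => h j (by omega))),
      ← ih (fun j hj => h j (by omega))]
    ring

end Pool.Agent.H34.PLE
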