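import Pool.Agent.H34.PLE.Rows
import Pool.Agent.H34.PLE.Dig

/-!
# A kernel friendly checker for sequences of moves

The state is a trie whose leaves are packed numbers; the nonzero digits in base `2 ^ W` of the leaves are the
codes of the facets, the digits in base `2 ^ w` of a code are the names of its faces.
All functions are written with recursors and in continuation passing style, so that the kernel evaluates them
quickly.
-/

namespace Pool.Agent.H34.PLE

/-- tries with packed leaves -/
inductive T : Type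
  /-- a leaf -/
  | l (x : ℕ) : T
  /-- a node -/
  | n (a b : T) : T

/-- the codes in a leaf -/
def lm (W x : ℕ) : Multiset ℕ := ∑ j ∈ Finset.range x, if dg W x j = 0 then 0 else {dg W x j}

/-- the codes in a trie -/
def T.mc (W : ℕ) : T → Multiset ℕ
  | .l x => lm W x
  | .n a b => a.mc W + b.mc W

/-- lists of indices `i` with the precomputed numbers `w * i`, `w * (i + 1)`, `2 ^ (w * i)`, `S * i` -/
inductive IL : Type
  /-- the empty list -/
  | nil : IL
  /-- a list with a first entry -/
  | cons (i wi wj pi si : ℕ) (r : IL) : IL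

/-- the entries whose bit is one -/
noncomputable def IL.selB (l : IL) : ℕ → IL :=
  IL.rec (motive := fun _ => ℕ → IL) (fun _ => IL.nil)
    (fun i wi wj pi si _ ih m => Nat.rec (motive := fun _ => IL) (ih (Nat.div m 2))
      (fun _ _ => IL.cons i wi wj pi si (ih (Nat.div m 2))) (Nat.land m 1)) l

/-- the entries whose bit is zero -/
noncomputable def IL.selA (l : IL) : ℕ → IL :=
  IL.rec (motive := fun _ => ℕ → IL) (fun _ => IL.nil)
    (fun i wi wj pi si _ ih m => Nat.rec (motive := fun _ => IL) (IL.cons i wi wj pi si (ih (Nat.div m 2)))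
      (fun _ _ => ih (Nat.div m 2)) (Nat.land m 1)) l

/-- bitwise or of `x <<< (w * i)` -/
noncomputable def IL.orw (x : ℕ) (l : IL) : ℕ :=
  IL.rec (motive := fun _ => ℕ) 0 (fun _ wi _ _ _ _ ih => Nat.lor (Nat.shiftLeft x wi) ih) l

/-- bitwise or of `x <<< (S * i)` -/
noncomputable def IL.ors (x : ℕ) (l : IL) : ℕ :=
  IL.rec (motive := fun _ => ℕ) 0 (fun _ _ _ _ si _ ih => Nat.lor (Nat.shiftLeft x si) ih) l

section

variable (W d o pW pS pd cC cS cF cE cO cP cb cL : ℕ)

/-- take the code with a given address -/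
noncomputable def T.take (t : T) : ℕ → (ℕ → T → Bool) → Bool :=
  T.rec (motive := fun _ => ℕ → (ℕ → T → Bool) → Bool)
    (fun x k κ => (fun v => Bool.rec (motive := fun _ => Bool) false
      (κ v (T.l (Nat.xor x (Nat.shiftLeft v (Nat.mul W k))))) (Nat.ble 1 v))
        (Nat.mod (Nat.shiftRight x (Nat.mul W k)) pW))
    (fun a b iha ihb k κ => Nat.rec (motive := fun _ => Bool)
      (iha (Nat.div k 2) (fun v a' => κ v (T.n a' b)))
      (fun _ _ => ihb (Nat.div k 2) (fun v b' => κ v (T.n a b'))) (Nat.land k 1)) t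

/-- insert a code at a given free address -/
noncomputable def T.put (t : T) : ℕ → ℕ → (T → Bool) → Bool :=
  T.rec (motive := fun _ => ℕ → ℕ → (T → Bool) → Bool)
    (fun x k v κ => Bool.rec (motive := fun _ => Bool) false
      (Bool.rec (motive := fun _ => Bool) false (κ (T.l (Nat.lor x (Nat.shiftLeft v (Nat.mul W k)))))
        (Nat.beq (Nat.mod (Nat.shiftRight x (Nat.mul W k)) pW) 0)) (Nat.ble 1 v))
    (fun a b iha ihb k v κ => Nat.rec (motive := fun _ => Bool)
      (iha (Nat.div k 2) v (fun a' => κ (T.n a' b)))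
      (fun _ _ => ihb (Nat.div k 2) v (fun b' => κ (T.n a b'))) (Nat.land k 1)) t

/-- collect the facets to be removed -/
noncomputable def gather (l : IL) : ℕ → T → ℕ → ℕ → (ℕ → T → ℕ → ℕ → Bool) → Bool :=
  IL.rec (motive := fun _ => ℕ → T → ℕ → ℕ → (ℕ → T → ℕ → ℕ → Bool) → Bool)
    (fun am t P Q κ => κ am t P Q)
    (fun _ wi wj pi si _ ih am t P Q κ => T.take W pW t (Nat.mod am pd) (fun v t' =>
      (fun r => ih (Nat.shiftRight am d) t' (Nat.lor P (Nat.shiftLeft r si))
          (Nat.lor Q (Nat.shiftLeft (Nat.land (Nat.mul r cC) cS) wi)) κ)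
        (Nat.lor (Nat.mod v pi) (Nat.shiftLeft (Nat.shiftRight v wi) wj)))) l

/-- insert the new facets -/
noncomputable def scatter (Z : ℕ) (l : IL) : ℕ → T → (T → Bool) → Bool :=
  IL.rec (motive := fun _ => ℕ → T → (T → Bool) → Bool)
    (fun _ t κ => κ t)
    (fun _ wi wj pi si _ ih am t κ => (fun x => T.put W pW t (Nat.mod am pd)
        (Nat.lor (Nat.mod x pi) (Nat.shiftLeft (Nat.shiftRight x wj) wi))
        (fun t' => ih (Nat.shiftRight am d) t' κ)) (Nat.mod (Nat.shiftRight Z si) pS)) l

/-- the check of the mask -/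
noncomputable def mok (tab : IL) (m : ℕ) : Bool :=
  Bool.rec (motive := fun _ => Bool) false (Nat.ble 1 (IL.orw o (tab.selA m))) (Nat.ble 1 (IL.orw o (tab.selB m)))

/-- the column mask of `B` -/
noncomputable def mB (tab : IL) (m : ℕ) : ℕ := Nat.mul (IL.orw o (tab.selB m)) cE

/-- the column mask of `A` -/
noncomputable def mA (tab : IL) (m : ℕ) : ℕ := Nat.mul (IL.orw o (tab.selA m)) cE

/-- the row mask of `B` -/
noncomputable def rB (tab : IL) (m : ℕ) : ℕ := IL.ors cF (tab.selB m)

/-- one move -/
noncomputable def step (tab : IL) (m am : ℕ) (t : T) (c : ℕ) (κ : T → ℕ → Bool) : Bool :=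
  Bool.rec (motive := fun _ => Bool) false
    (Bool.rec (motive := fun _ => Bool) false
      (gather W d pW pd cC cS (tab.selB m) am t 0 0 (fun am t P Q =>
        Bool.rec (motive := fun _ => Bool) false
          (scatter W d pW pS pd
            (Nat.lor Q (Nat.land (Nat.add (Nat.mul c cO) cP) (mA o cE tab m))) (tab.selA m) am t
            (fun t => κ t (Nat.add c cb)))
          (Nat.beq (Nat.land P (mB o cE tab m)) (Nat.land Q (rB cF tab m)))))
      (mok o tab m))
    (Nat.ble (Nat.add c cb) cL)

/-- a sequence of moves -/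
noncomputable def run (tab : IL) (pM M2 L pL : ℕ) (fuel : ℕ) : ℕ → T → ℕ → (T → ℕ → Bool) → Bool :=
  Nat.rec (motive := fun _ => ℕ → T → ℕ → (T → ℕ → Bool) → Bool)
    (fun _ t c κ => κ t c)
    (fun _ ih cert t c κ =>
      Nat.rec (motive := fun _ => Bool) false
        (fun m _ => step W d o pW pS pd cC cS cF cE cO cP cb cL tab m (Nat.shiftRight (Nat.mod cert pL) M2) t c
          (fun t' c' => ih (Nat.shiftRight cert L) t' c' κ))
        (Nat.add (Nat.mod cert pM) 1)) fuel

end

/-- equality of tries -/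
noncomputable def T.beq (t : T) : T → Bool :=
  T.rec (motive := fun _ => T → Bool)
    (fun x s => T.rec (motive := fun _ => Bool) (fun y => Nat.beq x y) (fun _ _ _ _ => false) s)
    (fun _ _ iha ihb s => T.rec (motive := fun _ => Bool) (fun _ => false)
      (fun c d _ _ => Bool.rec (motive := fun _ => Bool) false (ihb d) (iha c)) s) t

end Pool.Agent.H34.PLE
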