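import Pool.Agent.H34.PLE.Glue

/-!
# Generalised bistellar moves

`mv J fJ M C` is the complex with the facets `J` (names `fJ`) and the facets of an `(n+1)`-simplex with index in
`C` (the facet `c` is opposite to the vertex `c`; its face opposite to `d` has the name `M c d`).  If `C` and `D`
are complementary and nonempty, and the names `M c c'` (`c, c' ∈ C`) and `M d d'` (`d, d' ∈ D`) are interior, then
`mv J fJ M C` and `mv J fJ M D` are piecewise linearly homeomorphic.
-/

open Set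

namespace Pool.Agent.H34.PLE

variable {n : ℕ}

/-! ### inserting a zero and forgetting a coordinate -/

/-- insert a zero coordinate -/
def insL (c : Fin (n + 2)) : (Fin (n + 1) → ℝ) →ₗ[ℝ] (Fin (n + 2) → ℝ) where
  toFun x := c.insertNth (α := fun _ => ℝ) 0 x
  map_add' x y := by
    funext i
    revert i
    rw [Fin.forall_iff_succAbove c]
    refine ⟨?_, fun s => ?_⟩
    · simp [Fin.insertNth_apply_same]
    · simp [Fin.insertNth_apply_succAbove]
  map_smul' r x := by
    funext i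
    revert i
    rw [Fin.forall_iff_succAbove c]
    refine ⟨?_, fun s => ?_⟩
    · simp [Fin.insertNth_apply_same]
    · simp [Fin.insertNth_apply_succAbove]

lemma insL_same (c : Fin (n + 2)) (x : Fin (n + 1) → ℝ) : insL c x c = 0 := by
  show c.insertNth (α := fun _ => ℝ) 0 x c = 0
  exact Fin.insertNth_apply_same (α := fun _ => ℝ) c 0 x

lemma insL_succAbove (c : Fin (n + 2)) (x : Fin (n + 1) → ℝ) (s : Fin (n + 1)) : insL c x (c.succAbove s) = x s := by
  show c.insertNth (α := fun _ => ℝ) 0 x (c.succAbove s) = x s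
  exact Fin.insertNth_apply_succAbove (α := fun _ => ℝ) c 0 x s

/-- forget a coordinate -/
def resL (c : Fin (n + 2)) : (Fin (n + 2) → ℝ) →ₗ[ℝ] (Fin (n + 1) → ℝ) := LinearMap.funLeft ℝ ℝ c.succAbove

lemma resL_apply (c : Fin (n + 2)) (X : Fin (n + 2) → ℝ) (s : Fin (n + 1)) : resL c X s = X (c.succAbove s) := rfl

lemma insL_resL (c : Fin (n + 2)) (X : Fin (n + 2) → ℝ) (h : X c = 0) : insL c (resL c X) = X := by
  funext i
  revert i
  rw [Fin.forall_iff_succAbove c]
  refine ⟨?_, fun s => ?_⟩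
  · rw [insL_same, h]
  · rw [insL_succAbove, resL_apply]

lemma resL_insL (c : Fin (n + 2)) (x : Fin (n + 1) → ℝ) : resL c (insL c x) = x := by
  funext s
  rw [resL_apply, insL_succAbove]

lemma insL_mem (c : Fin (n + 2)) (x : Sx n) : insL c x.1 ∈ stdSimplex ℝ (Fin (n + 2)) := by
  constructor
  · rw [Fin.forall_iff_succAbove c]
    refine ⟨by rw [insL_same], fun s => ?_⟩
    rw [insL_succAbove]
    exact x.2.1 s
  · rw [Fin.sum_univ_succAbove _ c, insL_same, zero_add]
    simp only [insL_succAbove]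
    exact x.2.2

lemma resL_mem (c : Fin (n + 2)) (X : Fin (n + 2) → ℝ) (hX : X ∈ stdSimplex ℝ (Fin (n + 2))) (h : X c = 0) :
    resL c X ∈ stdSimplex ℝ (Fin (n + 1)) := by
  constructor
  · intro s; exact hX.1 _
  · have := hX.2
    rw [Fin.sum_univ_succAbove _ c, h, zero_add] at this
    exact this

/-- insert a zero coordinate -/
def ins (c : Fin (n + 2)) (x : Sx n) : Sx (n + 1) := ⟨insL c x.1, insL_mem c x⟩

/-- forget a vanishing coordinate -/
def res (c : Fin (n + 2)) (X : Sx (n + 1)) (h : X.1 c = 0) : Sx n := ⟨resL c X.1, resL_mem c X.1 X.2 h⟩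

lemma ins_res (c : Fin (n + 2)) (X : Sx (n + 1)) (h : X.1 c = 0) : ins c (res c X h) = X :=
  Subtype.ext (insL_resL c X.1 h)

lemma res_ins (c : Fin (n + 2)) (x : Sx n) (h : (ins c x).1 c = 0) : res c (ins c x) h = x :=
  Subtype.ext (resL_insL c x.1)

/-- the two ways of omitting two indices agree -/
lemma double_succAbove {c d : Fin (n + 2)} {a b : Fin (n + 1)} (ha : c.succAbove a = d) (hb : d.succAbove b = c)
    (s : Fin n) : c.succAbove (a.succAbove s) = d.succAbove (b.succAbove s) := by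
  subst ha
  apply Fin.ext
  simp only [Fin.succAbove, Fin.lt_def, Fin.ext_iff, apply_ite Fin.val, Fin.val_castSucc, Fin.val_succ] at hb ⊢
  split_ifs at hb ⊢ <;> omega

/-! ### the complexes -/

section

variable (J : Type) (fJ : J → Fin (n + 1) → ℕ) (M : Fin (n + 2) → Fin (n + 2) → ℕ)

/-- The complex with the facets `J` and the facets `c ∈ C` of an `(n+1)`-simplex. -/
def mv (C : Finset (Fin (n + 2))) : Glue n where
  ι := J ⊕ {c : Fin (n + 2) // c ∈ C}
  face := Sum.elim fJ (fun c s => M c.1 (c.1.succAbove s))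

/-- the hypothesis that the names `M c c'` are interior -/
def Inner (C : Finset (Fin (n + 2))) : Prop :=
  ∀ c ∈ C, ∀ c' ∈ C, c ≠ c' → (∀ j s, fJ j s ≠ M c c') ∧
    ∀ d ∈ C, ∀ e, e ≠ d → M d e = M c c' → (d = c ∧ e = c') ∨ (d = c' ∧ e = c)

variable {J fJ M} {C D : Finset (Fin (n + 2))}

/-- shorthand for the points on the added facets -/
def qt (C : Finset (Fin (n + 2))) (c : Fin (n + 2)) (hc : c ∈ C) (X : Sx (n + 1)) (h : X.1 c = 0) :
    (mv J fJ M C).Real := (mv J fJ M C).pt (Sum.inr ⟨c, hc⟩) (res c X h)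

lemma qt_eq_qt_of_face (c c' : Fin (n + 2)) (hc : c ∈ C) (hc' : c' ∈ C) (X X' : Sx (n + 1))
    (h : X.1 c = 0) (h' : X'.1 c' = 0) (a a' : Fin (n + 1)) (ha : X.1 (c.succAbove a) = 0)
    (ha' : X'.1 (c'.succAbove a') = 0) (hM : M c (c.succAbove a) = M c' (c'.succAbove a'))
    (hs : ∀ s, X.1 (c.succAbove (a.succAbove s)) = X'.1 (c'.succAbove (a'.succAbove s))) :
    qt (J := J) (fJ := fJ) (M := M) C c hc X h = qt C c' hc' X' h' :=
  (mv J fJ M C).pt_eq_of_rel a a' ha ha' hM hs

lemma qt_indep (hsym : ∀ i j, M i j = M j i) (c c' : Fin (n + 2)) (hc : c ∈ C) (hc' : c' ∈ C) (X : Sx (n + 1))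
    (h : X.1 c = 0) (h' : X.1 c' = 0) :
    qt (J := J) (fJ := fJ) (M := M) C c hc X h = qt C c' hc' X h' := by
  by_cases hcc : c = c'
  · subst hcc; rfl
  · obtain ⟨a, ha⟩ := Fin.exists_succAbove_eq (Ne.symm hcc)
    obtain ⟨b, hb⟩ := Fin.exists_succAbove_eq hcc
    refine qt_eq_qt_of_face c c' hc hc' X X h h' a b (by rw [ha, h']) (by rw [hb, h]) ?_ ?_
    · rw [ha, hb, hsym]
    · intro s; rw [double_succAbove ha hb]

/-- the linear map of the move -/
noncomputable def trL (D : Finset (Fin (n + 2))) (r : ℝ) (a : Fin (n + 2)) : (Fin (n + 2) → ℝ) →ₗ[ℝ] (Fin (n + 2) → ℝ) where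
  toFun X := fun i => if i ∈ D then X i - X a else X i + X a * r
  map_add' X Y := by
    funext i
    simp only [Pi.add_apply]
    split_ifs <;> ring
  map_smul' t X := by
    funext i
    simp only [Pi.smul_apply, smul_eq_mul, RingHom.id_apply]
    split_ifs <;> ring

lemma trL_apply (D : Finset (Fin (n + 2))) (r : ℝ) (a : Fin (n + 2)) (X : Fin (n + 2) → ℝ) (i : Fin (n + 2)) :
    trL D r a X i = if i ∈ D then X i - X a else X i + X a * r := rfl

/-- comparing two coordinates -/
def cmpL (a b : Fin (n + 2)) : (Fin (n + 2) → ℝ) →ₗ[ℝ] ℝ :=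
  (LinearMap.proj b : (Fin (n + 2) → ℝ) →ₗ[ℝ] ℝ) - LinearMap.proj a

/-- the ratio -/
noncomputable def ratio (C D : Finset (Fin (n + 2))) : ℝ := (D.card : ℝ) / (C.card : ℝ)

lemma trL_mem (hCD : C = Dᶜ) (hC : C.Nonempty) (X : Sx (n + 1)) (a : Fin (n + 2)) (_ha : a ∈ D)
    (hmin : ∀ b ∈ D, X.1 a ≤ X.1 b) : trL D (ratio C D) a X.1 ∈ stdSimplex ℝ (Fin (n + 2)) := by
  have hCpos : (0 : ℝ) < C.card := by exact_mod_cast hC.card_pos
  constructor
  · intro i
    rw [trL_apply]
    split_ifs with h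
    · linarith [hmin i h]
    · have := X.2.1 i
      have h2 := X.2.1 a
      have h3 : 0 ≤ ratio C D := by unfold ratio; positivity
      have := mul_nonneg h2 h3
      linarith
  · simp only [trL_apply]
    rw [← Finset.sum_add_sum_compl D]
    have h1 : ∑ i ∈ D, (if i ∈ D then X.1 i - X.1 a else X.1 i + X.1 a * ratio C D) = ∑ i ∈ D, (X.1 i - X.1 a) :=
      Finset.sum_congr rfl (fun i hi => if_pos hi)
    have h2 : ∑ i ∈ Dᶜ, (if i ∈ D then X.1 i - X.1 a else X.1 i + X.1 a * ratio C D) =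
        ∑ i ∈ Dᶜ, (X.1 i + X.1 a * ratio C D) :=
      Finset.sum_congr rfl (fun i hi => if_neg (Finset.mem_compl.mp hi))
    rw [h1, h2, Finset.sum_sub_distrib, Finset.sum_add_distrib, Finset.sum_const, Finset.sum_const, ← hCD]
    have h3 : ∑ i ∈ D, X.1 i + ∑ i ∈ C, X.1 i = 1 := by
      rw [hCD, Finset.sum_add_sum_compl]; exact X.2.2
    have h4 : (C.card : ℝ) * (X.1 a * ratio C D) = D.card * X.1 a := by
      unfold ratio; field_simp
    rw [nsmul_eq_mul, nsmul_eq_mul, h4]
    linarith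

lemma exists_argmin (hD : D.Nonempty) (X : Sx (n + 1)) : ∃ a ∈ D, ∀ b ∈ D, X.1 a ≤ X.1 b :=
  D.exists_min_image X.1 hD

/-- the transformed point -/
noncomputable def shift (hCD : C = Dᶜ) (hC : C.Nonempty) (hD : D.Nonempty) (X : Sx (n + 1)) : Sx (n + 1) :=
  ⟨trL D (ratio C D) (exists_argmin hD X).choose X.1,
    trL_mem hCD hC X _ (exists_argmin hD X).choose_spec.1 (exists_argmin hD X).choose_spec.2⟩

lemma shift_eq (hCD : C = Dᶜ) (hC : C.Nonempty) (hD : D.Nonempty) (X : Sx (n + 1)) (a : Fin (n + 2)) (ha : a ∈ D)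
    (hmin : ∀ b ∈ D, X.1 a ≤ X.1 b) : (shift hCD hC hD X).1 = trL D (ratio C D) a X.1 := by
  have h := (exists_argmin hD X).choose_spec
  have heq : X.1 (exists_argmin hD X).choose = X.1 a := le_antisymm (h.2 a ha) (hmin _ h.1)
  funext i
  show trL D (ratio C D) (exists_argmin hD X).choose X.1 i = trL D (ratio C D) a X.1 i
  rw [trL_apply, trL_apply, heq]

lemma shift_argmin (hCD : C = Dᶜ) (hC : C.Nonempty) (hD : D.Nonempty) (X : Sx (n + 1)) (a : Fin (n + 2)) (ha : a ∈ D)
    (hmin : ∀ b ∈ D, X.1 a ≤ X.1 b) : (shift hCD hC hD X).1 a = 0 := by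
  rw [shift_eq hCD hC hD X a ha hmin, trL_apply, if_pos ha, sub_self]

lemma shift_of_zero (hCD : C = Dᶜ) (hC : C.Nonempty) (hD : D.Nonempty) (X : Sx (n + 1)) (a : Fin (n + 2)) (ha : a ∈ D)
    (h0 : X.1 a = 0) : shift hCD hC hD X = X := by
  apply Subtype.ext
  rw [shift_eq hCD hC hD X a ha (fun b _ => by rw [h0]; exact X.2.1 b)]
  funext i
  rw [trL_apply, h0]
  split_ifs <;> ring

/-- transforming back -/
lemma shift_shift (hCD : C = Dᶜ) (hDC : D = Cᶜ) (hC : C.Nonempty) (hD : D.Nonempty) (X : Sx (n + 1))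
    (c : Fin (n + 2)) (hc : c ∈ C) (h0 : X.1 c = 0) :
    shift hDC hD hC (shift hCD hC hD X) = X ∧ (∀ b ∈ C, (shift hCD hC hD X).1 c ≤ (shift hCD hC hD X).1 b) := by
  obtain ⟨a, ha, hmin⟩ := exists_argmin hD X
  have hCpos : (0 : ℝ) < C.card := by exact_mod_cast hC.card_pos
  have hDpos : (0 : ℝ) < D.card := by exact_mod_cast hD.card_pos
  have hnD : ∀ i, i ∈ C → i ∉ D := fun i hi => by rw [hCD] at hi; exact Finset.mem_compl.mp hi
  have hnC : ∀ i, i ∉ C → i ∈ D := fun i hi => by rw [hDC]; exact Finset.mem_compl.mpr hi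
  have hY := shift_eq hCD hC hD X a ha hmin
  have hYC : ∀ b ∈ C, (shift hCD hC hD X).1 b = X.1 b + X.1 a * ratio C D := by
    intro b hb
    rw [hY, trL_apply, if_neg (hnD b hb)]
  have hmin' : ∀ b ∈ C, (shift hCD hC hD X).1 c ≤ (shift hCD hC hD X).1 b := by
    intro b hb
    rw [hYC b hb, hYC c hc, h0]
    linarith [X.2.1 b]
  refine ⟨?_, hmin'⟩
  apply Subtype.ext
  rw [shift_eq hDC hD hC (shift hCD hC hD X) c hc hmin']
  funext i
  rw [trL_apply]
  have hr : ratio C D * ratio D C = 1 := by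
    unfold ratio
    rw [div_mul_div_comm, mul_comm (D.card : ℝ), div_self (mul_pos hCpos hDpos).ne']
  split_ifs with hi
  · rw [hYC i hi, hYC c hc, h0]; ring
  · rw [hYC c hc, h0, hY, trL_apply, if_pos (hnC i hi), zero_add, mul_assoc, hr]; ring

/-- the image of a point of the simplex boundary -/
noncomputable def tgt (hCD : C = Dᶜ) (hC : C.Nonempty) (hD : D.Nonempty) (X : Sx (n + 1)) : (mv J fJ M D).Real :=
  qt D (exists_argmin hD X).choose (exists_argmin hD X).choose_spec.1 (shift hCD hC hD X)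
    (shift_argmin hCD hC hD X _ (exists_argmin hD X).choose_spec.1 (exists_argmin hD X).choose_spec.2)

lemma tgt_eq (hsym : ∀ i j, M i j = M j i) (hCD : C = Dᶜ) (hC : C.Nonempty) (hD : D.Nonempty) (X : Sx (n + 1))
    (a : Fin (n + 2)) (ha : a ∈ D) (h : (shift hCD hC hD X).1 a = 0) :
    tgt (J := J) (fJ := fJ) (M := M) hCD hC hD X = qt D a ha (shift hCD hC hD X) h :=
  qt_indep hsym _ _ _ _ _ _ _

lemma tgt_of_zero (hsym : ∀ i j, M i j = M j i) (hCD : C = Dᶜ) (hC : C.Nonempty) (hD : D.Nonempty) (X : Sx (n + 1))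
    (a : Fin (n + 2)) (ha : a ∈ D) (h : X.1 a = 0) :
    tgt (J := J) (fJ := fJ) (M := M) hCD hC hD X = qt D a ha X h := by
  have h1 := shift_of_zero hCD hC hD X a ha h
  have h2 : (shift hCD hC hD X).1 a = 0 := by rw [h1, h]
  rw [tgt_eq hsym hCD hC hD X a ha h2]
  congr 1

/-- the map of the move before passing to the quotient -/
noncomputable def phi0 (hCD : C = Dᶜ) (hC : C.Nonempty) (hD : D.Nonempty) :
    (Σ _ : (mv J fJ M C).ι, Sx n) → (mv J fJ M D).Real
  | ⟨Sum.inl j, x⟩ => (mv J fJ M D).pt (Sum.inl j) x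
  | ⟨Sum.inr c, x⟩ => tgt hCD hC hD (ins c.1 x)

lemma phi0_rel (hsym : ∀ i j, M i j = M j i) (hCD : C = Dᶜ) (hC : C.Nonempty) (hD : D.Nonempty)
    (hin : Inner J fJ M C) (p q : Σ _ : (mv J fJ M C).ι, Sx n) (h : (mv J fJ M C).Rel p q) :
    phi0 hCD hC hD p = phi0 hCD hC hD q := by
  have hD' : ∀ i, i ∉ C → i ∈ D := fun i hi => by
    by_contra h'
    exact hi (by rw [hCD]; exact Finset.mem_compl.mpr h')
  -- the mixed case
  have mixed : ∀ (j : J) (x : Sx n) (c : {c // c ∈ C}) (y : Sx n) (a b : Fin (n + 1)), x.1 a = 0 → y.1 b = 0 →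
      fJ j a = M c.1 (c.1.succAbove b) → (∀ s : Fin n, x.1 (a.succAbove s) = y.1 (b.succAbove s)) →
      (mv J fJ M D).pt (Sum.inl j) x = tgt hCD hC hD (ins c.1 y) := by
    intro j x c y a b ha hb hf hs
    -- the index `d` opposite
    have hdC : c.1.succAbove b ∉ C := by
      intro hd
      exact (hin c.1 c.2 _ hd (Fin.succAbove_ne c.1 b).symm).1 j a hf
    have hX : (ins c.1 y).1 (c.1.succAbove b) = 0 := by
      show insL c.1 y.1 _ = 0
      rw [insL_succAbove, hb]
    rw [tgt_of_zero hsym hCD hC hD (ins c.1 y) _ (hD' _ hdC) hX]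
    obtain ⟨b', hb'⟩ := Fin.exists_succAbove_eq (x := c.1) (y := c.1.succAbove b) (Fin.succAbove_ne c.1 b).symm
    refine (mv J fJ M D).pt_eq_of_rel a b' ha ?_ ?_ ?_
    · show (ins c.1 y).1 ((c.1.succAbove b).succAbove b') = 0
      rw [hb']
      exact insL_same _ _
    · show fJ j a = M (c.1.succAbove b) ((c.1.succAbove b).succAbove b')
      rw [hb', hsym, hf]
    · intro s
      show x.1 (a.succAbove s) = (ins c.1 y).1 ((c.1.succAbove b).succAbove (b'.succAbove s))
      rw [← double_succAbove (c := c.1) (d := c.1.succAbove b) rfl hb' s]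
      show _ = insL c.1 y.1 _
      rw [insL_succAbove, hs]
  obtain ⟨i, x⟩ := p
  obtain ⟨j, y⟩ := q
  obtain ⟨a, b, ha, hb, hf, hs⟩ := h
  rcases i with i | c <;> rcases j with j | d
  · exact (mv J fJ M D).pt_eq_of_rel a b ha hb hf hs
  · exact mixed i x d y a b ha hb hf hs
  · exact (mixed j y c x b a hb ha hf.symm (fun s => (hs s).symm)).symm
  · -- both on the simplex
    show tgt hCD hC hD (ins c.1 x) = tgt hCD hC hD (ins d.1 y)
    have hf' : M c.1 (c.1.succAbove a) = M d.1 (d.1.succAbove b) := hf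
    have ha' : x.1 a = 0 := ha
    have hb0 : y.1 b = 0 := hb
    have hs' : ∀ s : Fin n, x.1 (a.succAbove s) = y.1 (b.succAbove s) := hs
    by_cases hca : c.1.succAbove a ∈ C
    · -- interior face
      rcases (hin c.1 c.2 _ hca (Fin.succAbove_ne c.1 a).symm).2 d.1 d.2 _ (Fin.succAbove_ne d.1 b) hf'.symm with
        ⟨h1, h2⟩ | ⟨h1, h2⟩
      · -- same facet
        have hab : b = a := by
          rw [h1] at h2
          exact Fin.succAbove_right_injective h2
        have hxy : x = y := by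
          apply Subtype.ext
          funext i
          revert i
          rw [Fin.forall_iff_succAbove a]
          refine ⟨?_, fun s => ?_⟩
          · rw [ha', ← hab, hb0]
          · rw [hs' s, hab]
        rw [hxy, h1]
      · -- two different facets of the simplex
        have hX : ins c.1 x = ins d.1 y := by
          apply Subtype.ext
          show insL c.1 x.1 = insL d.1 y.1
          funext i
          revert i
          have hcd : d.1 = c.1.succAbove a := h1
          have hdc : d.1.succAbove b = c.1 := h2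
          rw [Fin.forall_iff_succAbove c.1]
          refine ⟨?_, fun s => ?_⟩
          · rw [insL_same, ← hdc, insL_succAbove, hb0]
          · rw [insL_succAbove]
            revert s
            rw [Fin.forall_iff_succAbove a]
            refine ⟨?_, fun s => ?_⟩
            · rw [← hcd, insL_same, ha']
            · rw [double_succAbove hcd.symm hdc, insL_succAbove, hs']
        rw [hX]
    · by_cases hdb : d.1.succAbove b ∈ C
      · -- impossible
        exfalso
        rcases (hin d.1 d.2 _ hdb (Fin.succAbove_ne d.1 b).symm).2 c.1 c.2 _ (Fin.succAbove_ne c.1 a) hf' with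
          ⟨h1, h2⟩ | ⟨h1, h2⟩
        · exact hca (by rw [h2]; exact hdb)
        · exact hca (by rw [h2]; exact d.2)
      · have hXa : (ins c.1 x).1 (c.1.succAbove a) = 0 := by
          show insL c.1 x.1 _ = 0
          rw [insL_succAbove, ha']
        have hYb : (ins d.1 y).1 (d.1.succAbove b) = 0 := by
          show insL d.1 y.1 _ = 0
          rw [insL_succAbove, hb0]
        rw [tgt_of_zero hsym hCD hC hD (ins c.1 x) _ (hD' _ hca) hXa,
          tgt_of_zero hsym hCD hC hD (ins d.1 y) _ (hD' _ hdb) hYb]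
        obtain ⟨a', ha''⟩ := Fin.exists_succAbove_eq (x := c.1) (y := c.1.succAbove a) (Fin.succAbove_ne c.1 a).symm
        obtain ⟨b', hb''⟩ := Fin.exists_succAbove_eq (x := d.1) (y := d.1.succAbove b) (Fin.succAbove_ne d.1 b).symm
        refine qt_eq_qt_of_face _ _ _ _ _ _ _ _ a' b' ?_ ?_ ?_ ?_
        · rw [ha'']; exact insL_same _ _
        · rw [hb'']; exact insL_same _ _
        · rw [ha'', hb'', hsym, hf', hsym]
        · intro s
          rw [← double_succAbove (c := c.1) (d := c.1.succAbove a) rfl ha'' s,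
            ← double_succAbove (c := d.1) (d := d.1.succAbove b) rfl hb'' s]
          show insL c.1 x.1 _ = insL d.1 y.1 _
          rw [insL_succAbove, insL_succAbove, hs']

/-- the map of the move -/
noncomputable def phi (hsym : ∀ i j, M i j = M j i) (hCD : C = Dᶜ) (hC : C.Nonempty) (hD : D.Nonempty)
    (hin : Inner J fJ M C) : (mv J fJ M C).Real → (mv J fJ M D).Real :=
  Quot.lift (phi0 hCD hC hD) (phi0_rel hsym hCD hC hD hin)

lemma phi_inl (hsym : ∀ i j, M i j = M j i) (hCD : C = Dᶜ) (hC : C.Nonempty) (hD : D.Nonempty)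
    (hin : Inner J fJ M C) (j : J) (x : Sx n) :
    phi hsym hCD hC hD hin ((mv J fJ M C).pt (Sum.inl j) x) = (mv J fJ M D).pt (Sum.inl j) x := rfl

lemma phi_inr (hsym : ∀ i j, M i j = M j i) (hCD : C = Dᶜ) (hC : C.Nonempty) (hD : D.Nonempty)
    (hin : Inner J fJ M C) (c : {c // c ∈ C}) (x : Sx n) :
    phi hsym hCD hC hD hin ((mv J fJ M C).pt (Sum.inr c) x) = tgt hCD hC hD (ins c.1 x) := rfl

lemma phi_qt (hsym : ∀ i j, M i j = M j i) (hCD : C = Dᶜ) (hC : C.Nonempty) (hD : D.Nonempty)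
    (hin : Inner J fJ M C) (c : Fin (n + 2)) (hc : c ∈ C) (X : Sx (n + 1)) (h : X.1 c = 0) :
    phi hsym hCD hC hD hin (qt C c hc X h) = tgt hCD hC hD X := by
  show tgt hCD hC hD (ins c (res c X h)) = _
  rw [ins_res]

lemma phi_phi (hsym : ∀ i j, M i j = M j i) (hCD : C = Dᶜ) (hDC : D = Cᶜ) (hC : C.Nonempty) (hD : D.Nonempty)
    (hin : Inner J fJ M C) (hin' : Inner J fJ M D) (z : (mv J fJ M C).Real) :
    phi hsym hDC hD hC hin' (phi hsym hCD hC hD hin z) = z := by
  obtain ⟨i, x, rfl⟩ := (mv J fJ M C).exists_pt z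
  rcases i with j | c
  · rfl
  · rw [phi_inr]
    have h0 : (ins c.1 x).1 c.1 = 0 := insL_same _ _
    obtain ⟨a, ha, hmin⟩ := exists_argmin hD (ins c.1 x)
    rw [tgt_eq hsym hCD hC hD _ a ha (shift_argmin hCD hC hD _ a ha hmin), phi_qt]
    obtain ⟨h1, h2⟩ := shift_shift hCD hDC hC hD (ins c.1 x) c.1 c.2 h0
    have h3 : (shift hDC hD hC (shift hCD hC hD (ins c.1 x))).1 c.1 = 0 := by rw [h1, h0]
    rw [tgt_eq hsym hDC hD hC _ c.1 c.2 h3]
    have h4 : res c.1 (shift hDC hD hC (shift hCD hC hD (ins c.1 x))) h3 = x := by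
      apply Subtype.ext
      show resL c.1 (shift hDC hD hC (shift hCD hC hD (ins c.1 x))).1 = x.1
      rw [h1]
      exact resL_insL _ _
    show (mv J fJ M C).pt (Sum.inr ⟨c.1, c.2⟩) (res c.1 _ h3) = _
    rw [h4]

/-- the map of the move is piecewise linear -/
lemma phi_isPL (hsym : ∀ i j, M i j = M j i) (hCD : C = Dᶜ) (hC : C.Nonempty) (hD : D.Nonempty)
    (hin : Inner J fJ M C) : IsPL (mv J fJ M C) (mv J fJ M D) (phi hsym hCD hC hD hin) := by
  classical
  intro i
  rcases i with j | c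
  · refine ⟨[⟨[], Sum.inl j, LinearMap.id⟩], ?_, ?_⟩
    · intro x
      refine ⟨_, List.mem_singleton_self _, ?_⟩
      intro ℓ hℓ
      simp at hℓ
    · intro P hP x _
      rw [List.mem_singleton] at hP
      subst hP
      exact ⟨x.2, rfl⟩
  · -- pieces indexed by `D`
    let pc : {a // a ∈ D} → Piece n n (mv J fJ M D).ι := fun a =>
      { L := D.toList.map (fun b => (cmpL a.1 b).comp (insL c.1))
        j := Sum.inr a
        T := (resL a.1).comp ((trL D (ratio C D) a.1).comp (insL c.1)) }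
    refine ⟨D.attach.toList.map pc, ?_, ?_⟩
    · intro x
      obtain ⟨a, ha, hmin⟩ := exists_argmin hD (ins c.1 x)
      refine ⟨pc ⟨a, ha⟩, List.mem_map.mpr ⟨⟨a, ha⟩, by simp, rfl⟩, ?_⟩
      intro ℓ hℓ
      obtain ⟨b, hb, rfl⟩ := List.mem_map.mp hℓ
      have := hmin b (by simpa using hb)
      show 0 ≤ insL c.1 x.1 b - insL c.1 x.1 a
      have h2 : insL c.1 x.1 a ≤ insL c.1 x.1 b := this
      linarith
    · intro P hP x hx
      obtain ⟨⟨a, ha⟩, _, rfl⟩ := List.mem_map.mp hP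
      have hmin : ∀ b ∈ D, (ins c.1 x).1 a ≤ (ins c.1 x).1 b := by
        intro b hb
        have h1 := hx ((cmpL a b).comp (insL c.1))
          (List.mem_map.mpr ⟨b, by simpa using hb, rfl⟩)
        have h2 : 0 ≤ insL c.1 x.1 b - insL c.1 x.1 a := h1
        show insL c.1 x.1 a ≤ insL c.1 x.1 b
        linarith
      have h0 := shift_argmin hCD hC hD (ins c.1 x) a ha hmin
      have h1 := shift_eq hCD hC hD (ins c.1 x) a ha hmin
      have h2 : (pc ⟨a, ha⟩).T x.1 = resL a (shift hCD hC hD (ins c.1 x)).1 := by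
        rw [h1]; rfl
      have h3 : (pc ⟨a, ha⟩).T x.1 ∈ stdSimplex ℝ (Fin (n + 1)) := by
        rw [h2]; exact resL_mem a _ (shift hCD hC hD (ins c.1 x)).2 h0
      refine ⟨h3, ?_⟩
      rw [phi_inr, tgt_eq hsym hCD hC hD _ a ha h0]
      show (mv J fJ M D).pt (Sum.inr ⟨a, ha⟩) _ = (mv J fJ M D).pt (Sum.inr ⟨a, ha⟩) _
      congr 1
      exact Subtype.ext h2.symm

/-- **Generalised bistellar move.** -/
theorem move (hsym : ∀ i j, M i j = M j i) (hCD : C = Dᶜ) (hC : C.Nonempty) (hD : D.Nonempty)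
    (hin : Inner J fJ M C) (hin' : Inner J fJ M D) : PLHomeo (mv J fJ M C) (mv J fJ M D) := by
  have hDC : D = Cᶜ := by rw [hCD, compl_compl]
  exact ⟨phi hsym hCD hC hD hin, phi hsym hDC hD hC hin', phi_isPL hsym hCD hC hD hin,
    phi_isPL hsym hDC hD hC hin', phi_phi hsym hCD hDC hC hD hin hin', phi_phi hsym hDC hCD hD hC hin' hin⟩

end

end Pool.Agent.H34.PLE
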