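import Mathlib

/-!
# Lattice paths and the staircase triangulation of a product of two boundaries of simplices

`IsPath us vs l`: `l` is a monotone lattice path in the grid `us × vs` from the first to the last corner.
Weighted paths (lists of grid points with nonnegative weights) have marginals; every pair of marginals with the
same total is realised (`cover`), and two weighted paths with the same marginals are connected by elementary moves
in which one point of weight zero is removed and another point of weight zero is inserted (`conn`).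
-/

namespace Pool.Agent.H34.PLE.Stair

/-- monotone lattice paths in a grid -/
inductive IsPath : List ℕ → List ℕ → List (ℕ × ℕ) → Prop
  | base (u v : ℕ) : IsPath [u] [v] [(u, v)]
  | left {u v : ℕ} {us vs : List ℕ} {l : List (ℕ × ℕ)} :
      IsPath us (v :: vs) l → IsPath (u :: us) (v :: vs) ((u, v) :: l)
  | right {u v : ℕ} {us vs : List ℕ} {l : List (ℕ × ℕ)} :
      IsPath (u :: us) vs l → IsPath (u :: us) (v :: vs) ((u, v) :: l)

variable {us vs : List ℕ} {l : List (ℕ × ℕ)}

lemma IsPath.ne (h : IsPath us vs l) : us ≠ [] ∧ vs ≠ [] := by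
  cases h <;> simp

lemma IsPath.length (h : IsPath us vs l) : l.length + 1 = us.length + vs.length := by
  induction h with
  | base u v => rfl
  | left _ ih => simp only [List.length_cons] at ih ⊢; omega
  | right _ ih => simp only [List.length_cons] at ih ⊢; omega

lemma IsPath.mem (h : IsPath us vs l) : ∀ p ∈ l, p.1 ∈ us ∧ p.2 ∈ vs := by
  induction h with
  | base u v => intro p hp; simp at hp; subst hp; simp
  | left _ ih =>
    intro p hp
    rcases List.mem_cons.mp hp with rfl | hp
    · simp
    · exact ⟨List.mem_cons_of_mem _ (ih p hp).1, (ih p hp).2⟩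
  | right _ ih =>
    intro p hp
    rcases List.mem_cons.mp hp with rfl | hp
    · simp
    · exact ⟨(ih p hp).1, List.mem_cons_of_mem _ (ih p hp).2⟩

lemma IsPath.swap (h : IsPath us vs l) : IsPath vs us (l.map Prod.swap) := by
  induction h with
  | base u v => exact IsPath.base v u
  | left _ ih => exact IsPath.right ih
  | right _ ih => exact IsPath.left ih

/-- inserting a column -/
lemma IsPath.insert (u : ℕ) (h : IsPath us vs l) : ∀ us1 us2 : List ℕ, us1 ++ us2 = us →
    ∃ (v : ℕ) (A B : List (ℕ × ℕ)), l = A ++ B ∧ IsPath (us1 ++ u :: us2) vs (A ++ (u, v) :: B) := by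
  induction h with
  | base u0 v0 =>
    intro us1 us2 he
    cases us1 with
    | nil =>
      simp only [List.nil_append] at he
      subst he
      exact ⟨v0, [], [(u0, v0)], rfl, IsPath.left (IsPath.base u0 v0)⟩
    | cons a us1 =>
      simp only [List.cons_append, List.cons.injEq, List.append_eq_nil_iff] at he
      obtain ⟨rfl, rfl, rfl⟩ := he
      exact ⟨v0, [(a, v0)], [], rfl, IsPath.left (IsPath.base u v0)⟩
  | @left u0 v0 us' vs' l' h' ih =>
    intro us1 us2 he
    cases us1 with
    | nil =>
      simp only [List.nil_append] at he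
      subst he
      exact ⟨v0, [], _, rfl, IsPath.left (IsPath.left h')⟩
    | cons a us1 =>
      simp only [List.cons_append, List.cons.injEq] at he
      obtain ⟨rfl, he⟩ := he
      obtain ⟨v, A, B, rfl, hp⟩ := ih us1 us2 he
      exact ⟨v, (a, v0) :: A, B, rfl, IsPath.left hp⟩
  | @right u0 v0 us' vs' l' h' ih =>
    intro us1 us2 he
    cases us1 with
    | nil =>
      simp only [List.nil_append] at he
      subst he
      exact ⟨v0, [], _, rfl, IsPath.left (IsPath.right h')⟩
    | cons a us1 =>
      obtain ⟨v, A, B, rfl, hp⟩ := ih (a :: us1) us2 he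
      simp only [List.cons_append, List.cons.injEq] at he
      obtain ⟨rfl, he⟩ := he
      exact ⟨v, (a, v0) :: A, B, rfl, IsPath.right hp⟩

/-- lists of grid points with weights -/
abbrev WL := List ((ℕ × ℕ) × ℝ)

/-- weighted paths -/
def WPath (us vs : List ℕ) (L : WL) : Prop := IsPath us vs (L.map Prod.fst) ∧ ∀ p ∈ L, 0 ≤ p.2

/-- the first marginal -/
def mX (L : WL) (u : ℕ) : ℝ := (L.map (fun p => if p.1.1 = u then p.2 else 0)).sum

/-- the second marginal -/
def mY (L : WL) (v : ℕ) : ℝ := (L.map (fun p => if p.1.2 = v then p.2 else 0)).sum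

/-- the total weight -/
def tot (L : WL) : ℝ := (L.map Prod.snd).sum

lemma mX_cons (p : (ℕ × ℕ) × ℝ) (L : WL) (u : ℕ) : mX (p :: L) u = (if p.1.1 = u then p.2 else 0) + mX L u := by
  unfold mX; rw [List.map_cons, List.sum_cons]

lemma mY_cons (p : (ℕ × ℕ) × ℝ) (L : WL) (u : ℕ) : mY (p :: L) u = (if p.1.2 = u then p.2 else 0) + mY L u := by
  unfold mY; rw [List.map_cons, List.sum_cons]

lemma mX_append (L M : WL) (u : ℕ) : mX (L ++ M) u = mX L u + mX M u := by
  unfold mX; rw [List.map_append, List.sum_append]

lemma mY_append (L M : WL) (u : ℕ) : mY (L ++ M) u = mY L u + mY M u := by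
  unfold mY; rw [List.map_append, List.sum_append]

lemma mX_insert (A B : WL) (v : ℕ × ℕ) (u : ℕ) : mX (A ++ (v, 0) :: B) u = mX (A ++ B) u := by
  rw [mX_append, mX_cons, mX_append]; simp

lemma mY_insert (A B : WL) (v : ℕ × ℕ) (u : ℕ) : mY (A ++ (v, 0) :: B) u = mY (A ++ B) u := by
  rw [mY_append, mY_cons, mY_append]; simp

lemma mX_nonneg {L : WL} (h : ∀ p ∈ L, 0 ≤ p.2) (u : ℕ) : 0 ≤ mX L u := by
  unfold mX
  apply List.sum_nonneg
  intro a ha
  obtain ⟨p, hp, rfl⟩ := List.mem_map.mp ha
  split_ifs
  · exact h p hp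
  · exact le_rfl

lemma mY_nonneg {L : WL} (h : ∀ p ∈ L, 0 ≤ p.2) (u : ℕ) : 0 ≤ mY L u := by
  unfold mY
  apply List.sum_nonneg
  intro a ha
  obtain ⟨p, hp, rfl⟩ := List.mem_map.mp ha
  split_ifs
  · exact h p hp
  · exact le_rfl

lemma mX_zero {L : WL} (u : ℕ) (h : ∀ p ∈ L, p.1.1 ≠ u) : mX L u = 0 := by
  unfold mX
  apply List.sum_eq_zero
  intro a ha
  obtain ⟨p, hp, rfl⟩ := List.mem_map.mp ha
  rw [if_neg (h p hp)]

lemma mY_zero {L : WL} (u : ℕ) (h : ∀ p ∈ L, p.1.2 ≠ u) : mY L u = 0 := by
  unfold mY
  apply List.sum_eq_zero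
  intro a ha
  obtain ⟨p, hp, rfl⟩ := List.mem_map.mp ha
  rw [if_neg (h p hp)]

lemma sum_ite_list {us : List ℕ} (hn : us.Nodup) (a : ℕ) (ha : a ∈ us) (t : ℝ) :
    (us.map (fun u => if a = u then t else 0)).sum = t := by
  rw [← List.sum_toFinset _ hn, Finset.sum_ite_eq, if_pos (List.mem_toFinset.mpr ha)]

lemma sum_mX {us : List ℕ} (hn : us.Nodup) {L : WL} (h : ∀ p ∈ L, p.1.1 ∈ us) : (us.map (mX L)).sum = tot L := by
  induction L with
  | nil =>
    unfold mX tot
    simp
  | cons p L ih =>
    have h1 : mX (p :: L) = fun u => (if p.1.1 = u then p.2 else 0) + mX L u := by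
      funext u; exact mX_cons p L u
    rw [h1, List.sum_map_add, ih (fun q hq => h q (List.mem_cons_of_mem _ hq)),
      sum_ite_list hn _ (h p List.mem_cons_self)]
    unfold tot
    rw [List.map_cons, List.sum_cons]

lemma sum_mY {us : List ℕ} (hn : us.Nodup) {L : WL} (h : ∀ p ∈ L, p.1.2 ∈ us) : (us.map (mY L)).sum = tot L := by
  induction L with
  | nil =>
    unfold mY tot
    simp
  | cons p L ih =>
    have h1 : mY (p :: L) = fun u => (if p.1.2 = u then p.2 else 0) + mY L u := by
      funext u; exact mY_cons p L u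
    rw [h1, List.sum_map_add, ih (fun q hq => h q (List.mem_cons_of_mem _ hq)),
      sum_ite_list hn _ (h p List.mem_cons_self)]
    unfold tot
    rw [List.map_cons, List.sum_cons]

lemma WPath.mem {L : WL} (h : WPath us vs L) : ∀ p ∈ L, p.1.1 ∈ us ∧ p.1.2 ∈ vs := fun p hp =>
  h.1.mem p.1 (List.mem_map_of_mem hp)

lemma sum_update_not_mem {us : List ℕ} (x : ℕ → ℝ) (a : ℕ) (c : ℝ) (h : a ∉ us) :
    (us.map (Function.update x a c)).sum = (us.map x).sum := by
  congr 1
  refine List.map_congr_left fun u hu => ?_
  rw [Function.update_of_ne]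
  rintro rfl
  exact h hu

/-- **Every pair of marginals is realised.** -/
theorem cover : ∀ (N : ℕ) (us vs : List ℕ) (x y : ℕ → ℝ), us.length + vs.length = N → us ≠ [] → vs ≠ [] →
    us.Nodup → vs.Nodup → (∀ u ∈ us, 0 ≤ x u) → (∀ v ∈ vs, 0 ≤ y v) → (us.map x).sum = (vs.map y).sum →
    ∃ L : WL, WPath us vs L ∧ (∀ u ∈ us, mX L u = x u) ∧ ∀ v ∈ vs, mY L v = y v := by
  intro N
  induction N with
  | zero =>
    intro us vs x y hN hus
    simp only [Nat.add_eq_zero_iff, List.length_eq_zero_iff] at hN
    exact absurd hN.1 hus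
  | succ N ih =>
    intro us vs x y hN hus hvs hnu hnv hx hy hs
    obtain ⟨u, us, rfl⟩ := List.exists_cons_of_ne_nil hus
    obtain ⟨v, vs, rfl⟩ := List.exists_cons_of_ne_nil hvs
    have hnu' := List.nodup_cons.mp hnu
    have hnv' := List.nodup_cons.mp hnv
    have hxu : 0 ≤ x u := hx u List.mem_cons_self
    have hyv : 0 ≤ y v := hy v List.mem_cons_self
    have hx' : 0 ≤ (us.map x).sum := List.sum_nonneg (fun a ha => by
      obtain ⟨w, hw, rfl⟩ := List.mem_map.mp ha; exact hx w (List.mem_cons_of_mem _ hw))
    have hy' : 0 ≤ (vs.map y).sum := List.sum_nonneg (fun a ha => by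
      obtain ⟨w, hw, rfl⟩ := List.mem_map.mp ha; exact hy w (List.mem_cons_of_mem _ hw))
    rw [List.map_cons, List.map_cons, List.sum_cons, List.sum_cons] at hs
    simp only [List.length_cons] at hN
    by_cases h1 : x u ≤ y v ∧ us ≠ []
    · -- a step to the left
      obtain ⟨h1, hne⟩ := h1
      obtain ⟨L, hL, hLx, hLy⟩ := ih us (v :: vs) x (Function.update y v (y v - x u))
        (by simp only [List.length_cons]; omega) hne (by simp) hnu'.2 hnv
        (fun w hw => hx w (List.mem_cons_of_mem _ hw)) (fun w hw => by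
          by_cases hwv : w = v
          · subst hwv; rw [Function.update_self]; linarith
          · rw [Function.update_of_ne hwv]; exact hy w hw)
        (by rw [List.map_cons, List.sum_cons, Function.update_self, sum_update_not_mem _ _ _ hnv'.1]; linarith)
      refine ⟨((u, v), x u) :: L, ⟨IsPath.left hL.1, ?_⟩, ?_, ?_⟩
      · intro p hp
        rcases List.mem_cons.mp hp with rfl | hp
        · exact hxu
        · exact hL.2 p hp
      · intro w hw
        rw [mX_cons]
        rcases List.mem_cons.mp hw with rfl | hw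
        · rw [if_pos rfl, mX_zero w (fun p hp hpw => hnu'.1 (hpw ▸ (hL.mem p hp).1)), add_zero]
        · rw [if_neg (fun h => hnu'.1 (by rw [show u = w from h]; exact hw)), hLx w hw, zero_add]
      · intro w hw
        rw [mY_cons, hLy w hw]
        by_cases hwv : w = v
        · subst hwv; rw [Function.update_self, if_pos rfl]; ring
        · rw [Function.update_of_ne hwv, if_neg (fun h => hwv h.symm), zero_add]
    · by_cases h2 : y v ≤ x u ∧ vs ≠ []
      · obtain ⟨h2, hne⟩ := h2
        obtain ⟨L, hL, hLx, hLy⟩ := ih (u :: us) vs (Function.update x u (x u - y v)) y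
          (by simp only [List.length_cons]; omega) (by simp) hne hnu hnv'.2
          (fun w hw => by
            by_cases hwv : w = u
            · subst hwv; rw [Function.update_self]; linarith
            · rw [Function.update_of_ne hwv]; exact hx w hw)
          (fun w hw => hy w (List.mem_cons_of_mem _ hw))
          (by rw [List.map_cons, List.sum_cons, Function.update_self, sum_update_not_mem _ _ _ hnu'.1]; linarith)
        refine ⟨((u, v), y v) :: L, ⟨IsPath.right hL.1, ?_⟩, ?_, ?_⟩
        · intro p hp
          rcases List.mem_cons.mp hp with rfl | hp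
          · exact hyv
          · exact hL.2 p hp
        · intro w hw
          rw [mX_cons, hLx w hw]
          by_cases hwv : w = u
          · subst hwv; rw [Function.update_self, if_pos rfl]; ring
          · rw [Function.update_of_ne hwv, if_neg (fun h => hwv h.symm), zero_add]
        · intro w hw
          rw [mY_cons]
          rcases List.mem_cons.mp hw with rfl | hw
          · rw [if_pos rfl, mY_zero w (fun p hp hpw => hnv'.1 (hpw ▸ (hL.mem p hp).2)), add_zero]
          · rw [if_neg (fun h => hnv'.1 (by rw [show v = w from h]; exact hw)), hLy w hw, zero_add]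
      · -- both lists are singletons
        have hus' : us = [] := by
          by_contra hne
          have h3 : y v < x u := by
            by_contra h4
            exact h1 ⟨not_lt.mp h4, hne⟩
          have hvs' : vs = [] := by
            by_contra hne'
            exact h2 ⟨h3.le, hne'⟩
          subst hvs'
          simp only [List.map_nil, List.sum_nil] at hs
          linarith
        subst hus'
        have hvs' : vs = [] := by
          by_contra hne'
          apply h2
          refine ⟨?_, hne'⟩
          simp only [List.map_nil, List.sum_nil] at hs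
          linarith
        subst hvs'
        simp only [List.map_nil, List.sum_nil, add_zero] at hs
        refine ⟨[((u, v), x u)], ⟨IsPath.base u v, ?_⟩, ?_, ?_⟩
        · intro p hp
          rw [List.mem_singleton] at hp
          subst hp
          exact hxu
        · intro w hw
          rw [List.mem_singleton] at hw
          subst hw
          simp [mX]
        · intro w hw
          rw [List.mem_singleton] at hw
          subst hw
          simp [mY, hs]

/-! ### connectivity -/

/-- the elementary moves: a point of weight zero is replaced by another point of weight zero -/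
def Adj (L L' : WL) : Prop := ∃ (A B A' B' : WL) (v w : ℕ × ℕ), L = A ++ (v, 0) :: B ∧ L' = A' ++ (w, 0) :: B' ∧
  A ++ B = A' ++ B'

/-- connected by elementary moves through lists with the property `P` -/
def Conn (P : WL → Prop) : WL → WL → Prop := Relation.EqvGen (fun L L' => P L ∧ P L' ∧ Adj L L')

lemma Conn.refl {P : WL → Prop} (L : WL) : Conn P L L := Relation.EqvGen.refl L

lemma Conn.symm {P : WL → Prop} {L L' : WL} (h : Conn P L L') : Conn P L' L := Relation.EqvGen.symm _ _ h

lemma Conn.trans {P : WL → Prop} {L L' L'' : WL} (h : Conn P L L') (h' : Conn P L' L'') : Conn P L L'' :=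
  Relation.EqvGen.trans _ _ _ h h'

lemma Conn.map {P Q : WL → Prop} (f : WL → WL) (hPQ : ∀ L, P L → Q (f L)) (hf : ∀ L L', Adj L L' → Adj (f L) (f L'))
    {L L' : WL} (h : Conn P L L') : Conn Q (f L) (f L') := by
  induction h with
  | rel L L' h => exact Relation.EqvGen.rel _ _ ⟨hPQ _ h.1, hPQ _ h.2.1, hf _ _ h.2.2⟩
  | refl L => exact Conn.refl _
  | symm L L' _ ih => exact ih.symm
  | trans L L' L'' _ _ ih1 ih2 => exact ih1.trans ih2

lemma Conn.mono {P Q : WL → Prop} (hPQ : ∀ L, P L → Q L) {L L' : WL} (h : Conn P L L') : Conn Q L L' :=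
  Conn.map id hPQ (fun _ _ h => h) h

lemma Adj.cons (p : (ℕ × ℕ) × ℝ) {L L' : WL} (h : Adj L L') : Adj (p :: L) (p :: L') := by
  obtain ⟨A, B, A', B', v, w, rfl, rfl, h⟩ := h
  exact ⟨p :: A, B, p :: A', B', v, w, rfl, rfl, by rw [List.cons_append, List.cons_append, h]⟩

lemma Conn.left {u v : ℕ} {t : ℝ} (ht : 0 ≤ t) {L L' : WL} (h : Conn (WPath us (v :: vs)) L L') :
    Conn (WPath (u :: us) (v :: vs)) (((u, v), t) :: L) (((u, v), t) :: L') :=
  h.map (fun L => ((u, v), t) :: L) (fun L hL => ⟨IsPath.left hL.1, fun p hp => by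
    rcases List.mem_cons.mp hp with rfl | hp
    · exact ht
    · exact hL.2 p hp⟩) (fun L L' hA => hA.cons _)

lemma Conn.right {u v : ℕ} {t : ℝ} (ht : 0 ≤ t) {L L' : WL} (h : Conn (WPath (u :: us) vs) L L') :
    Conn (WPath (u :: us) (v :: vs)) (((u, v), t) :: L) (((u, v), t) :: L') :=
  h.map (fun L => ((u, v), t) :: L) (fun L hL => ⟨IsPath.right hL.1, fun p hp => by
    rcases List.mem_cons.mp hp with rfl | hp
    · exact ht
    · exact hL.2 p hp⟩) (fun L L' hA => hA.cons _)

lemma WPath.cases {L : WL} (h : WPath us vs L) :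
    (∃ u v t, us = [u] ∧ vs = [v] ∧ L = [((u, v), t)] ∧ 0 ≤ t) ∨
    (∃ u us' v vs' t M, us = u :: us' ∧ vs = v :: vs' ∧ L = ((u, v), t) :: M ∧ 0 ≤ t ∧ WPath us' (v :: vs') M) ∨
    (∃ u us' v vs' t M, us = u :: us' ∧ vs = v :: vs' ∧ L = ((u, v), t) :: M ∧ 0 ≤ t ∧ WPath (u :: us') vs' M) := by
  obtain ⟨h1, h2⟩ := h
  generalize hl : L.map Prod.fst = l at h1
  cases h1 with
  | base u v =>
    left
    rw [List.map_eq_cons_iff] at hl
    obtain ⟨p, M, rfl, hp, hM⟩ := hl
    rw [List.map_eq_nil_iff] at hM
    subst hM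
    refine ⟨u, v, p.2, rfl, rfl, ?_, h2 p List.mem_cons_self⟩
    rw [← hp]
  | @left u v us' vs' l' h' =>
    right; left
    rw [List.map_eq_cons_iff] at hl
    obtain ⟨p, M, rfl, hp, hM⟩ := hl
    refine ⟨u, us', v, vs', p.2, M, rfl, rfl, ?_, h2 p List.mem_cons_self, ?_, ?_⟩
    · rw [← hp]
    · rw [hM]; exact h'
    · exact fun q hq => h2 q (List.mem_cons_of_mem _ hq)
  | @right u v us' vs' l' h' =>
    right; right
    rw [List.map_eq_cons_iff] at hl
    obtain ⟨p, M, rfl, hp, hM⟩ := hl
    refine ⟨u, us', v, vs', p.2, M, rfl, rfl, ?_, h2 p List.mem_cons_self, ?_, ?_⟩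
    · rw [← hp]
    · rw [hM]; exact h'
    · exact fun q hq => h2 q (List.mem_cons_of_mem _ hq)

/-- **Weighted paths with the same marginals are connected.** -/
theorem conn : ∀ (N : ℕ) (us vs : List ℕ), us.length + vs.length = N → us.Nodup → vs.Nodup → ∀ L L' : WL,
    WPath us vs L → WPath us vs L' → (∀ u, mX L u = mX L' u) → (∀ v, mY L v = mY L' v) →
    Conn (WPath us vs) L L' := by
  intro N
  induction N with
  | zero =>
    intro us vs hN _ _ L L' hL
    simp only [Nat.add_eq_zero_iff, List.length_eq_zero_iff] at hN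
    exact absurd hN.1 hL.1.ne.1
  | succ N ih =>
    intro us vs hN hnu hnv
    -- the mixed case
    have mixed : ∀ (u v : ℕ) (us' vs' : List ℕ) (t t' : ℝ) (M M' : WL), us = u :: us' → vs = v :: vs' →
        0 ≤ t → 0 ≤ t' → WPath us' (v :: vs') M → WPath (u :: us') vs' M' →
        (∀ w, mX (((u, v), t) :: M) w = mX (((u, v), t') :: M') w) →
        (∀ w, mY (((u, v), t) :: M) w = mY (((u, v), t') :: M') w) →
        Conn (WPath us vs) (((u, v), t) :: M) (((u, v), t') :: M') := by
      intro u v us' vs' t t' M M' hus hvs ht ht' hM hM' hx hy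
      subst hus hvs
      have hnu' := List.nodup_cons.mp hnu
      have hnv' := List.nodup_cons.mp hnv
      simp only [List.length_cons] at hN
      have e1 : mX M u = 0 := mX_zero u (fun p hp hpw => hnu'.1 (hpw ▸ (hM.mem p hp).1))
      have e2 : mY M' v = 0 := mY_zero v (fun p hp hpw => hnv'.1 (hpw ▸ (hM'.mem p hp).2))
      have hxu := hx u
      have hyv := hy v
      rw [mX_cons, mX_cons, if_pos rfl, if_pos rfl, e1] at hxu
      rw [mY_cons, mY_cons, if_pos rfl, if_pos rfl, e2] at hyv
      have h3 := mX_nonneg hM'.2 u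
      have h4 := mY_nonneg hM.2 v
      simp only at hxu hyv
      have htt : t = t' := by linarith
      subst htt
      have h5 : mX M' u = 0 := by linarith
      have h6 : mY M v = 0 := by linarith
      have hxx : ∀ w, mX M w = mX M' w := by
        intro w
        have := hx w
        rw [mX_cons, mX_cons] at this
        linarith
      have hyy : ∀ w, mY M w = mY M' w := by
        intro w
        have := hy w
        rw [mY_cons, mY_cons] at this
        linarith
      have s1 := sum_mX hnu'.2 (fun p hp => (hM.mem p hp).1)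
      have s2 := sum_mY hnv (fun p hp => (hM.mem p hp).2)
      rw [List.map_cons, List.sum_cons, h6, zero_add] at s2
      obtain ⟨L0, hL0, hL0x, hL0y⟩ := cover _ us' vs' (mX M) (mY M) rfl hM.1.ne.1 hM'.1.ne.2 hnu'.2 hnv'.2
        (fun u _ => mX_nonneg hM.2 u) (fun v _ => mY_nonneg hM.2 v) (s1.trans s2.symm)
      have hX0 : ∀ w, mX L0 w = mX M w := by
        intro w
        by_cases hw : w ∈ us'
        · exact hL0x w hw
        · rw [mX_zero w (fun p hp hpw => hw (hpw ▸ (hL0.mem p hp).1)),
            mX_zero w (fun p hp hpw => hw (hpw ▸ (hM.mem p hp).1))]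
      have hY0 : ∀ w, mY L0 w = mY M w := by
        intro w
        by_cases hw : w ∈ vs'
        · exact hL0y w hw
        · rw [mY_zero w (fun p hp hpw => hw (hpw ▸ (hL0.mem p hp).2)), hyy w,
            mY_zero w (fun p hp hpw => hw (hpw ▸ (hM'.mem p hp).2))]
      obtain ⟨u1, us1, rfl⟩ := List.exists_cons_of_ne_nil hM.1.ne.1
      obtain ⟨v1, vs1, rfl⟩ := List.exists_cons_of_ne_nil hM'.1.ne.2
      have nn : ∀ (q : ℕ × ℕ), ∀ p ∈ ((q, (0 : ℝ)) :: L0), 0 ≤ p.2 := by
        intro q p hp
        rcases List.mem_cons.mp hp with rfl | hp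
        · exact le_rfl
        · exact hL0.2 p hp
      have c1 : Conn (WPath (u1 :: us1) (v :: v1 :: vs1)) M (((u1, v), 0) :: L0) := by
        refine ih _ _ (by simp only [List.length_cons] at hN ⊢; omega) hnu'.2 hnv M _ hM
          ⟨IsPath.right hL0.1, nn _⟩ (fun w => ?_) (fun w => ?_)
        · rw [mX_cons, hX0]; simp
        · rw [mY_cons, hY0]; simp
      have c2 : Conn (WPath (u :: u1 :: us1) (v1 :: vs1)) M' (((u, v1), 0) :: L0) := by
        refine ih _ _ (by simp only [List.length_cons] at hN ⊢; omega) hnu hnv'.2 M' _ hM'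
          ⟨IsPath.left hL0.1, nn _⟩ (fun w => ?_) (fun w => ?_)
        · rw [mX_cons, hX0, hxx]; simp
        · rw [mY_cons, hY0, hyy]; simp
      refine (c1.left ht).trans (Conn.trans ?_ (c2.right ht).symm)
      have nn' : ∀ (q : ℕ × ℕ), ∀ p ∈ (((u, v), t) :: (q, (0 : ℝ)) :: L0), 0 ≤ p.2 := by
        intro q p hp
        rcases List.mem_cons.mp hp with rfl | hp
        · exact ht
        · exact nn q p hp
      refine Relation.EqvGen.rel _ _ ⟨⟨IsPath.left (IsPath.right hL0.1), nn' _⟩,
        ⟨IsPath.right (IsPath.left hL0.1), nn' _⟩, ?_⟩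
      exact ⟨[((u, v), t)], L0, [((u, v), t)], L0, _, _, rfl, rfl, rfl⟩
    intro L L' hL hL' hx hy
    rcases hL.cases with ⟨u, v, t, rfl, rfl, rfl, ht⟩ | ⟨u, us', v, vs', t, M, hus, hvs, rfl, ht, hM⟩ |
      ⟨u, us', v, vs', t, M, hus, hvs, rfl, ht, hM⟩
    · -- a single point
      rcases hL'.cases with ⟨u', v', t', h1, h2, rfl, ht'⟩ | ⟨u', us', v', vs', t', M', h1, h2, rfl, ht', hM'⟩ |
        ⟨u', us', v', vs', t', M', h1, h2, rfl, ht', hM'⟩
      · simp only [List.cons.injEq, and_true] at h1 h2
        subst h1 h2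
        have := hx u
        rw [mX_cons, mX_cons] at this
        simp only [if_true] at this
        have h3 : t = t' := by
          have e : mX [] u = 0 := rfl
          linarith
        rw [h3]
        exact Conn.refl _
      · simp only [List.cons.injEq] at h1
        rw [← h1.2] at hM'
        exact absurd rfl hM'.1.ne.1
      · simp only [List.cons.injEq] at h2
        rw [← h2.2] at hM'
        exact absurd rfl hM'.1.ne.2
    · rcases hL'.cases with ⟨u', v', t', h1, h2, rfl, ht'⟩ | ⟨u', us'', v', vs'', t', M', h1, h2, rfl, ht', hM'⟩ |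
        ⟨u', us'', v', vs'', t', M', h1, h2, rfl, ht', hM'⟩
      · rw [hus] at h1
        simp only [List.cons.injEq] at h1
        rw [h1.2] at hM
        exact absurd rfl hM.1.ne.1
      · subst hus hvs
        simp only [List.cons.injEq] at h1 h2
        obtain ⟨rfl, rfl⟩ := h1
        obtain ⟨rfl, rfl⟩ := h2
        have hnu' := List.nodup_cons.mp hnu
        have e1 : mX M u = 0 := mX_zero u (fun p hp hpw => hnu'.1 (hpw ▸ (hM.mem p hp).1))
        have e2 : mX M' u = 0 := mX_zero u (fun p hp hpw => hnu'.1 (hpw ▸ (hM'.mem p hp).1))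
        have h3 := hx u
        rw [mX_cons, mX_cons, if_pos rfl, if_pos rfl, e1, e2] at h3
        have h4 : t = t' := by simpa using h3
        subst h4
        refine Conn.left ht (ih _ _ (by simp only [List.length_cons] at hN ⊢; omega) hnu'.2 hnv M M' hM hM' ?_ ?_)
        · intro w
          have := hx w
          rw [mX_cons, mX_cons] at this
          linarith
        · intro w
          have := hy w
          rw [mY_cons, mY_cons] at this
          linarith
      · have h3 : u :: us' = u' :: us'' := hus.symm.trans h1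
        have h4 : v :: vs' = v' :: vs'' := hvs.symm.trans h2
        simp only [List.cons.injEq] at h3 h4
        obtain ⟨rfl, rfl⟩ := h3
        obtain ⟨rfl, rfl⟩ := h4
        exact mixed u v us' vs' t t' M M' hus hvs ht ht' hM hM' hx hy
    · rcases hL'.cases with ⟨u', v', t', h1, h2, rfl, ht'⟩ | ⟨u', us'', v', vs'', t', M', h1, h2, rfl, ht', hM'⟩ |
        ⟨u', us'', v', vs'', t', M', h1, h2, rfl, ht', hM'⟩
      · rw [hvs] at h2
        simp only [List.cons.injEq] at h2
        rw [h2.2] at hM
        exact absurd rfl hM.1.ne.2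
      · have h3 : u :: us' = u' :: us'' := hus.symm.trans h1
        have h4 : v :: vs' = v' :: vs'' := hvs.symm.trans h2
        simp only [List.cons.injEq] at h3 h4
        obtain ⟨rfl, rfl⟩ := h3
        obtain ⟨rfl, rfl⟩ := h4
        exact (mixed u v us' vs' t' t M' M hus hvs ht' ht hM' hM (fun w => (hx w).symm) (fun w => (hy w).symm)).symm
      · subst hus hvs
        simp only [List.cons.injEq] at h1 h2
        obtain ⟨rfl, rfl⟩ := h1
        obtain ⟨rfl, rfl⟩ := h2
        have hnv' := List.nodup_cons.mp hnv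
        have e1 : mY M v = 0 := mY_zero v (fun p hp hpw => hnv'.1 (hpw ▸ (hM.mem p hp).2))
        have e2 : mY M' v = 0 := mY_zero v (fun p hp hpw => hnv'.1 (hpw ▸ (hM'.mem p hp).2))
        have h3 := hy v
        rw [mY_cons, mY_cons, if_pos rfl, if_pos rfl, e1, e2] at h3
        have h4 : t = t' := by simpa using h3
        subst h4
        refine Conn.right ht (ih _ _ (by simp only [List.length_cons] at hN ⊢; omega) hnu hnv'.2 M M' hM hM' ?_ ?_)
        · intro w
          have := hx w
          rw [mX_cons, mX_cons] at this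
          linarith
        · intro w
          have := hy w
          rw [mY_cons, mY_cons] at this
          linarith

end Pool.Agent.H34.PLE.Stair
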