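import Pool.Agent.H34.PLE.Glue

/-!
# Piecewise linear homeomorphisms from realisations of gluing complexes onto subsets of vector spaces
-/

open Set

namespace Pool.Agent.H34.PLE

variable {n m : ℕ} {E : Type} [AddCommGroup E] [Module ℝ E]

/-- A map from the realisation of a gluing complex to a real vector space is piecewise linear if every facet is
covered by finitely many polyhedra (given by finitely many linear inequalities `0 ≤ ℓ x` in the barycentric
coordinates) on each of which the map is given by a linear map of the barycentric coordinates. -/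
def IsPLMap (K : Glue n) (f : K.Real → E) : Prop :=
  ∀ i : K.ι, ∃ Ps : List (List ((Fin (n + 1) → ℝ) →ₗ[ℝ] ℝ) × ((Fin (n + 1) → ℝ) →ₗ[ℝ] E)),
    (∀ x : Sx n, ∃ P ∈ Ps, ∀ ℓ ∈ P.1, 0 ≤ ℓ x.1) ∧
    ∀ P ∈ Ps, ∀ x : Sx n, (∀ ℓ ∈ P.1, 0 ≤ ℓ x.1) → f (K.pt i x) = P.2 x.1

lemma IsPLMap.comp {K : Glue n} {K' : Glue m} {f : K'.Real → E} {g : K.Real → K'.Real} (hf : IsPLMap K' f)
    (hg : IsPL K K' g) : IsPLMap K (f ∘ g) := by
  classical
  intro i
  obtain ⟨Ps, hP1, hP2⟩ := hg i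
  choose Qs hQ1 hQ2 using hf
  refine ⟨Ps.flatMap (fun P => (Qs P.j).map (fun Q =>
    (P.L ++ Q.1.map (fun ℓ => ℓ.comp P.T), Q.2.comp P.T))), ?_, ?_⟩
  · intro x
    obtain ⟨P, hP, hPx⟩ := hP1 x
    obtain ⟨h, _⟩ := hP2 P hP x hPx
    obtain ⟨Q, hQ, hQx⟩ := hQ1 P.j ⟨P.T x.1, h⟩
    refine ⟨(P.L ++ Q.1.map (fun ℓ => ℓ.comp P.T), Q.2.comp P.T), ?_, ?_⟩
    · rw [List.mem_flatMap]
      exact ⟨P, hP, List.mem_map.mpr ⟨Q, hQ, rfl⟩⟩
    · intro ℓ hℓ
      rw [List.mem_append] at hℓ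
      rcases hℓ with hℓ | hℓ
      · exact hPx ℓ hℓ
      · obtain ⟨ℓ', hℓ', rfl⟩ := List.mem_map.mp hℓ
        exact hQx ℓ' hℓ'
  · intro R hR x hx
    rw [List.mem_flatMap] at hR
    obtain ⟨P, hP, hR⟩ := hR
    obtain ⟨Q, hQ, rfl⟩ := List.mem_map.mp hR
    have hPx : P.Dom x.1 := fun ℓ hℓ => hx ℓ (List.mem_append_left _ hℓ)
    obtain ⟨h, hf'⟩ := hP2 P hP x hPx
    have hQx : ∀ ℓ ∈ Q.1, 0 ≤ ℓ (P.T x.1) := fun ℓ hℓ =>
      hx _ (List.mem_append_right _ (List.mem_map.mpr ⟨ℓ, hℓ, rfl⟩))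
    show f (g (K.pt i x)) = _
    rw [hf', hQ2 P.j Q hQ ⟨P.T x.1, h⟩ hQx]
    rfl

/-- A piecewise linear homeomorphism from the realisation of a gluing complex onto a subset of a vector space. -/
def PLHomeoOnto [TopologicalSpace E] (K : Glue n) (S : Set E) : Prop :=
  ∃ h : K.Real ≃ₜ S, IsPLMap K (fun z => (h z : E))

/-- The boundary of the standard simplex of dimension `m` in `ℝ^(m+1)`. -/
def bdSx (m : ℕ) : Set (Fin (m + 1) → ℝ) := {x | x ∈ stdSimplex ℝ (Fin (m + 1)) ∧ ∃ i, x i = 0}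

lemma PLHomeoOnto.of_plHomeo [TopologicalSpace E] {K : Glue n} {K' : Glue m} {S : Set E} (h' : PLHomeoOnto K' S)
    (h : PLHomeo K K') : PLHomeoOnto K S := by
  obtain ⟨f, g, hf, hg, h1, h2⟩ := h
  obtain ⟨e, he⟩ := h'
  let e' : K.Real ≃ₜ K'.Real := { toFun := f, invFun := g, left_inv := h1, right_inv := h2,
                                  continuous_toFun := hf.continuous, continuous_invFun := hg.continuous }
  exact ⟨e'.trans e, he.comp hf⟩

lemma PLHomeoOnto.homeomorph [TopologicalSpace E] {K : Glue n} {S : Set E} (h : PLHomeoOnto K S) :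
    Nonempty (K.Real ≃ₜ S) := by
  obtain ⟨e, _⟩ := h
  exact ⟨e⟩

instance instCompactReal (K : Glue n) [Finite K.ι] : CompactSpace K.Real := by
  have : CompactSpace (Sx n) := isCompact_iff_compactSpace.mp (isCompact_stdSimplex ℝ (Fin (n + 1)))
  have : CompactSpace (Σ _ : K.ι, Sx n) := inferInstance
  exact Quot.compactSpace

end Pool.Agent.H34.PLE
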