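import Pool.Agent.H34.PLE.ReorderList

/-!
# A kernel test for renamings of lists of rows

Two lists of rows of the same length whose names correspond by mutually inverse functions (given by search trees
with packed leaves) define piecewise linearly homeomorphic gluing complexes.
-/

namespace Pool.Agent.H34.PLE

/-- a search tree of packed numbers -/
inductive RT : Type
  | l (x : ℕ) : RT
  | n (k : ℕ) (a b : RT) : RT

/-- The value with key `x` in the packed list `P` of pairs of 24-bit numbers (key, value). -/
noncomputable def scan (m : ℕ) : ℕ → ℕ → ℕ :=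
  Nat.rec (motive := fun _ => ℕ → ℕ → ℕ) (fun _ _ => 0)
    (fun _ ih P x => cond (Nat.beq (Nat.mod P 0x1000000) x) (Nat.mod (Nat.shiftRight P 24) 0x1000000)
      (ih (Nat.shiftRight P 48) x)) m

/-- the value found in the tree; every leaf holds at most `m` pairs -/
noncomputable def RT.look (m : ℕ) (t : RT) : ℕ → ℕ :=
  RT.rec (motive := fun _ => ℕ → ℕ) (fun P x => scan m P x)
    (fun k _ _ il ir x => cond (Nat.ble k x) (ir x) (il x)) t

/-- the first `m` names of two codes correspond -/
noncomputable def okD (w : ℕ) (f g : ℕ → ℕ) (x y : ℕ) (m : ℕ) : Bool :=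
  Nat.rec (motive := fun _ => Bool) true
    (fun a ih => cond (Nat.beq (f (dg w x a)) (dg w y a))
      (cond (Nat.beq (g (dg w y a)) (dg w x a)) ih false) false) m

theorem okD_spec {w : ℕ} {f g : ℕ → ℕ} {x y : ℕ} : ∀ {m : ℕ}, okD w f g x y m = true → ∀ a < m,
    f (dg w x a) = dg w y a ∧ g (dg w y a) = dg w x a := by
  intro m
  induction m with
  | zero => intro _ a ha; exact absurd ha (Nat.not_lt_zero a)
  | succ m ih =>
    intro h a ha
    have h' : cond (Nat.beq (f (dg w x m)) (dg w y m))
      (cond (Nat.beq (g (dg w y m)) (dg w x m)) (okD w f g x y m) false) false = true := h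
    cases h1 : Nat.beq (f (dg w x m)) (dg w y m) with
    | false => rw [h1] at h'; exact absurd h' Bool.false_ne_true
    | true =>
      cases h2 : Nat.beq (g (dg w y m)) (dg w x m) with
      | false => rw [h1, h2] at h'; exact absurd h' Bool.false_ne_true
      | true =>
        rw [h1, h2] at h'
        rcases Nat.lt_succ_iff_lt_or_eq.mp ha with h3 | rfl
        · exact ih h' a h3
        · exact ⟨Nat.eq_of_beq_eq_true h1, Nat.eq_of_beq_eq_true h2⟩

/-- The test for two lists of codes. -/
noncomputable def okL (n w : ℕ) (f g : ℕ → ℕ) (L : List ℕ) : List ℕ → Bool :=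
  List.rec (motive := fun _ => List ℕ → Bool)
    (fun b => List.rec (motive := fun _ => Bool) true (fun _ _ _ => false) b)
    (fun x _ ih b => List.rec (motive := fun _ => Bool) false
      (fun y ys _ => cond (okD w f g x y (Nat.succ n)) (ih ys) false) b) L

theorem okL_spec {n w : ℕ} {f g : ℕ → ℕ} : ∀ {L L' : List ℕ}, okL n w f g L L' = true →
    ∃ h : L.length = L'.length, ∀ (i : Fin L.length) (a : ℕ), a < n + 1 →
      f (dg w (L.get i) a) = dg w (L'.get (i.cast h)) a ∧
        g (dg w (L'.get (i.cast h)) a) = dg w (L.get i) a := by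
  intro L
  induction L with
  | nil =>
    intro L' h
    cases L' with
    | nil => exact ⟨rfl, fun i => i.elim0⟩
    | cons y ys => exact absurd h (by show ¬ (false = true); decide)
  | cons x xs ih =>
    intro L' h
    cases L' with
    | nil => exact absurd h (by show ¬ (false = true); decide)
    | cons y ys =>
      have h' : cond (okD w f g x y (Nat.succ n)) (okL n w f g xs ys) false = true := h
      cases h1 : okD w f g x y (Nat.succ n) with
      | false => rw [h1] at h'; exact absurd h' Bool.false_ne_true
      | true =>
        rw [h1] at h'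
        obtain ⟨h2, h3⟩ := ih h'
        refine ⟨congrArg (· + 1) h2, ?_⟩
        intro i
        refine Fin.cases ?_ (fun j => ?_) i
        · intro a ha
          exact okD_spec h1 a ha
        · intro a ha
          exact h3 j a ha

theorem PLHomeo.of_okL {n w : ℕ} {L L' : List ℕ} {f g : ℕ → ℕ} (h : okL n w f g L L' = true) :
    PLHomeo (glueL n w L) (glueL n w L') := by
  obtain ⟨h1, h2⟩ := okL_spec h
  have hr : ∀ (i : Fin L.length) (a : Fin (n + 1)), f (row n w (L.get i) a) = row n w (L'.get (i.cast h1)) a ∧
      g (row n w (L'.get (i.cast h1)) a) = row n w (L.get i) a := fun i a => h2 i a a.2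
  refine PLHomeo.reorder (K := glueL n w L) (K' := glueL n w L') (finCongr h1) (fun _ => Equiv.refl _)
    (fun i j a b hij => ?_) (fun i j a b hij => ?_)
  · have hij' : row n w (L.get i) a = row n w (L.get j) b := hij
    refine ⟨?_, fun s => ⟨s, rfl, rfl⟩⟩
    show row n w (L'.get (i.cast h1)) a = row n w (L'.get (j.cast h1)) b
    rw [← (hr i a).1, ← (hr j b).1, hij']
  · have hij' : row n w (L'.get (i.cast h1)) a = row n w (L'.get (j.cast h1)) b := hij
    show row n w (L.get i) a = row n w (L.get j) b
    rw [← (hr i a).2, ← (hr j b).2, hij']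

end Pool.Agent.H34.PLE
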