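import Pool.Agent.H34.PLE.Tools

/-!
# Unordered isomorphisms of gluing complexes

The facets of a gluing complex have ordered vertices.  Here we prove that two gluing complexes whose facets
correspond by permutations of the coordinates which are compatible with the gluings have piecewise linearly
homeomorphic realisations.
-/

open Set

namespace Pool.Agent.H34.PLE

variable {n : ℕ}

/-- the point with permuted coordinates -/
def permPt (p : Equiv.Perm (Fin (n + 1))) (x : Sx n) : Sx n :=
  ⟨fun a => x.1 (p.symm a), fun a => x.2.1 _, by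
    rw [Equiv.sum_comp p.symm (fun a => x.1 a)]; exact x.2.2⟩

lemma permPt_apply (p : Equiv.Perm (Fin (n + 1))) (x : Sx n) (a : Fin (n + 1)) :
    (permPt p x).1 (p a) = x.1 a := by
  show x.1 (p.symm (p a)) = _
  rw [Equiv.symm_apply_apply]

/-- A map of gluing complexes given by a map of facets and permutations of the coordinates. -/
lemma exists_permMap {K K' : Glue n} (e : K.ι → K'.ι) (p : K.ι → Equiv.Perm (Fin (n + 1)))
    (h : ∀ i j a b, K.face i a = K.face j b → K'.face (e i) (p i a) = K'.face (e j) (p j b) ∧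
      ∀ s : Fin n, ∃ t : Fin n, p i (a.succAbove s) = (p i a).succAbove t ∧
        p j (b.succAbove s) = (p j b).succAbove t) :
    ∃ f : K.Real → K'.Real, (∀ i x, f (K.pt i x) = K'.pt (e i) (permPt (p i) x)) ∧ IsPL K K' f := by
  let f : K.Real → K'.Real := Quot.lift (fun q => K'.pt (e q.1) (permPt (p q.1) q.2)) (by
    rintro ⟨i, x⟩ ⟨j, y⟩ ⟨a, b, ha, hb, hf, hs⟩
    obtain ⟨h1, h2⟩ := h i j a b hf
    refine K'.pt_eq_of_rel (p i a) (p j b) ?_ ?_ h1 ?_
    · rw [permPt_apply]; exact ha
    · rw [permPt_apply]; exact hb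
    · intro t
      have h3 : (p i).symm ((p i a).succAbove t) ≠ a := by
        intro h4
        have h5 := congrArg (p i) h4
        rw [Equiv.apply_symm_apply] at h5
        exact Fin.succAbove_ne _ _ h5
      obtain ⟨s, hs'⟩ := Fin.exists_succAbove_eq h3
      obtain ⟨t', ht1, ht2⟩ := h2 s
      have h6 : (p i a).succAbove t = (p i a).succAbove t' := by
        rw [← ht1, hs', Equiv.apply_symm_apply]
      have h7 : t = t' := Fin.succAbove_right_injective h6
      subst h7
      rw [← ht1, ← ht2, permPt_apply, permPt_apply]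
      exact hs s)
  refine ⟨f, fun i x => rfl, ?_⟩
  intro i
  refine ⟨[⟨[], e i, LinearMap.pi (fun a => LinearMap.proj ((p i).symm a))⟩], ?_, ?_⟩
  · intro x
    refine ⟨_, List.mem_singleton_self _, ?_⟩
    intro ℓ hℓ
    simp at hℓ
  · intro P hP x _
    rw [List.mem_singleton] at hP
    subst hP
    exact ⟨(permPt (p i) x).2, rfl⟩

/-- **Unordered isomorphisms** are piecewise linear homeomorphisms. -/
theorem PLHomeo.reorder {K K' : Glue n} (e : K.ι ≃ K'.ι) (p : K.ι → Equiv.Perm (Fin (n + 1)))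
    (h : ∀ i j a b, K.face i a = K.face j b → K'.face (e i) (p i a) = K'.face (e j) (p j b) ∧
      ∀ s : Fin n, ∃ t : Fin n, p i (a.succAbove s) = (p i a).succAbove t ∧
        p j (b.succAbove s) = (p j b).succAbove t)
    (h' : ∀ i j a b, K'.face (e i) (p i a) = K'.face (e j) (p j b) → K.face i a = K.face j b) :
    PLHomeo K K' := by
  obtain ⟨f, hf1, hf2⟩ := exists_permMap (K' := K') e p h
  obtain ⟨g, hg1, hg2⟩ := exists_permMap (K := K') (K' := K) e.symm (fun i => (p (e.symm i)).symm) (by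
    intro i j a b hij
    obtain ⟨i, rfl⟩ := e.surjective i
    obtain ⟨j, rfl⟩ := e.surjective j
    obtain ⟨a, rfl⟩ := (p i).surjective a
    obtain ⟨b, rfl⟩ := (p j).surjective b
    have h1 := h' i j a b hij
    simp only [Equiv.symm_apply_apply]
    refine ⟨h1, ?_⟩
    obtain ⟨_, h2⟩ := h i j a b h1
    intro t
    have h3 : (p i).symm ((p i a).succAbove t) ≠ a := by
      intro h4
      have h5 := congrArg (p i) h4
      rw [Equiv.apply_symm_apply] at h5
      exact Fin.succAbove_ne _ _ h5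
    obtain ⟨s, hs'⟩ := Fin.exists_succAbove_eq h3
    obtain ⟨t', ht1, ht2⟩ := h2 s
    have h6 : (p i a).succAbove t = (p i a).succAbove t' := by
      rw [← ht1, hs', Equiv.apply_symm_apply]
    have h7 : t = t' := Fin.succAbove_right_injective h6
    subst h7
    refine ⟨s, hs'.symm, ?_⟩
    rw [← ht2, Equiv.symm_apply_apply])
  refine ⟨f, g, hf2, hg2, ?_, ?_⟩
  · intro z
    obtain ⟨i, x, rfl⟩ := K.exists_pt z
    rw [hf1, hg1]
    simp only [Equiv.symm_apply_apply]
    congr 1
    apply Subtype.ext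
    funext a
    show x.1 ((p i).symm ((p i).symm.symm a)) = x.1 a
    rw [Equiv.symm_symm, Equiv.symm_apply_apply]
  · intro z
    obtain ⟨i, x, rfl⟩ := K'.exists_pt z
    rw [hg1, hf1, e.apply_symm_apply]
    congr 1
    apply Subtype.ext
    funext a
    show x.1 ((p (e.symm i)).symm.symm ((p (e.symm i)).symm a)) = x.1 a
    rw [Equiv.symm_symm, Equiv.apply_symm_apply]

/-- Version for explicit finite data. -/
theorem PLHomeo.reorder_fin {N : ℕ} (R R' : Fin N → Fin (n + 1) → ℕ) (eF eI : Fin N → Fin N)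
    (pF pI : Fin N → Fin (n + 1) → Fin (n + 1))
    (h1 : ∀ i, eI (eF i) = i ∧ eF (eI i) = i) (h2 : ∀ i a, pI i (pF i a) = a ∧ pF i (pI i a) = a)
    (h : ∀ i j a b, (R i a = R j b → R' (eF i) (pF i a) = R' (eF j) (pF j b) ∧
      ∀ s : Fin n, ∃ t : Fin n, pF i (a.succAbove s) = (pF i a).succAbove t ∧
        pF j (b.succAbove s) = (pF j b).succAbove t) ∧
      (R' (eF i) (pF i a) = R' (eF j) (pF j b) → R i a = R j b)) :
    PLHomeo (⟨Fin N, R⟩ : Glue n) (⟨Fin N, R'⟩ : Glue n) :=
  PLHomeo.reorder (K := ⟨Fin N, R⟩) (K' := ⟨Fin N, R'⟩)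
    (⟨eF, eI, fun i => (h1 i).1, fun i => (h1 i).2⟩ : Fin N ≃ Fin N)
    (fun i => ⟨pF i, pI i, fun a => (h2 i a).1, fun a => (h2 i a).2⟩)
    (fun i j a b => (h i j a b).1) (fun i j a b => (h i j a b).2)

/-- The realisations of the two ends of a checked path, as complexes of lists of codes. -/
theorem path_glueL {n w W pW cap pC pw c c' : ℕ} {L L' : List ℕ} {t t' : T} (hl : Link n w t c t' c')
    (hW : w * (n + 1) = W) (hW0 : 0 < W) (hpW : pW = 2 ^ W) (hpw : pw = 2 ^ w) (hpC : pC = 2 ^ (W * cap))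
    (h1 : t.toL W pW cap = L) (h2 : t.capB pC = true) (h3 : goodL w pw (n + 1) c L = true)
    (h4 : t'.toL W pW cap = L') (h5 : t'.capB pC = true) : PLHomeo (glueL n w L) (glueL n w L') := by
  subst hW
  have e1 : t.rows n w = ((L.map (row n w) : List (Fin (n + 1) → ℕ)) : Multiset (Fin (n + 1) → ℕ)) := by
    unfold T.rows
    rw [T.mc_toL hW0 hpW hpC t h2, h1, Multiset.map_coe]
  have e2 : t'.rows n w = ((L'.map (row n w) : List (Fin (n + 1) → ℕ)) : Multiset (Fin (n + 1) → ℕ)) := by
    unfold T.rows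
    rw [T.mc_toL hW0 hpW hpC t' h5, h4, Multiset.map_coe]
  have hg : Good (t.rows n w) c := by rw [e1]; exact good_of_goodL hpw L h3
  obtain ⟨h6, _⟩ := hl hg
  have h7 : PLHomeo (glueL n w L) (glueOf (t.rows n w)) :=
    PLHomeo.of_rows (by rw [rows_glueL, rows_glueOf, e1])
  have h8 : PLHomeo (glueOf (t'.rows n w)) (glueL n w L') :=
    PLHomeo.of_rows (by rw [rows_glueL, rows_glueOf, e2])
  exact (h7.trans h6).trans h8

end Pool.Agent.H34.PLE
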