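import Pool.Agent.H34.PLE.ReorderList

/-!
# A faster kernel test for unordered isomorphisms of lists of rows

The quadratic test `chkReorder` follows from two look-ups for every entry.
-/

namespace Pool.Agent.H34.PLE

/-- a search tree of natural numbers -/
inductive NT (α : Type) : Type
  | leaf (x : α) : NT α
  | node (k : ℕ) (l r : NT α) : NT α

/-- the value found in the tree -/
noncomputable def NT.look {α : Type} (t : NT α) : ℕ → α :=
  NT.rec (motive := fun _ => ℕ → α) (fun x _ => x) (fun k _ _ il ir x => cond (Nat.ble k x) (ir x) (il x)) t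

/-- equality of lists of numbers -/
noncomputable def eqL (a : List ℕ) : List ℕ → Bool :=
  List.rec (motive := fun _ => List ℕ → Bool)
    (fun b => List.rec (motive := fun _ => Bool) true (fun _ _ _ => false) b)
    (fun x _ ih b => List.rec (motive := fun _ => Bool) false (fun y ys _ => cond (Nat.beq x y) (ih ys) false) b) a

theorem eq_of_eqL : ∀ {a b : List ℕ}, eqL a b = true → a = b := by
  intro a
  induction a with
  | nil =>
    intro b h
    cases b with
    | nil => rfl
    | cons y ys => exact absurd h (by show ¬ (false = true); decide)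
  | cons x xs ih =>
    intro b h
    cases b with
    | nil => exact absurd h (by show ¬ (false = true); decide)
    | cons y ys =>
      have h' : cond (Nat.beq x y) (eqL xs ys) false = true := h
      cases hb : Nat.beq x y with
      | false => rw [hb] at h'; exact absurd h' Bool.false_ne_true
      | true =>
        rw [hb] at h'
        rw [Nat.eq_of_beq_eq_true hb, ih h']

/-- The test with two search trees. -/
noncomputable def chkReorderF (n w : ℕ) (L L' : List ℕ) (P Q : List (List ℕ)) (f : NT (ℕ × List ℕ)) (g : NT ℕ) : Bool :=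
  Nat.beq L.length L'.length && Nat.beq L.length P.length && Nat.beq L.length Q.length &&
    ((P.zip Q).all fun x => isInv n x.1 x.2) &&
    (((L.zip (L'.zip P)).flatMap (entries1 n w)).all fun e =>
      Nat.beq (f.look e.1).1 e.2.1 && (eqL (f.look e.1).2 e.2.2 && Nat.beq (g.look e.2.1) e.1))

theorem chkReorder_of_F {n w : ℕ} {L L' : List ℕ} {P Q : List (List ℕ)} {f : NT (ℕ × List ℕ)} {g : NT ℕ}
    (h : chkReorderF n w L L' P Q f g = true) : chkReorder n w L L' P Q = true := by
  unfold chkReorderF at h
  unfold chkReorder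
  rw [Bool.and_eq_true] at h ⊢
  refine ⟨h.1, ?_⟩
  have h5 := h.2
  rw [List.all_eq_true] at h5 ⊢
  intro e he
  rw [List.all_eq_true]
  intro x hx
  have h1 := h5 e he
  have h2 := h5 x hx
  rw [Bool.and_eq_true, Bool.and_eq_true] at h1 h2
  have a1 := Nat.eq_of_beq_eq_true h1.1
  have a2 := eq_of_eqL h1.2.1
  have a3 := Nat.eq_of_beq_eq_true h1.2.2
  have b1 := Nat.eq_of_beq_eq_true h2.1
  have b2 := eq_of_eqL h2.2.1
  have b3 := Nat.eq_of_beq_eq_true h2.2.2
  cases hc : Nat.beq e.1 x.1 with
  | true =>
    have hx1 := Nat.eq_of_beq_eq_true hc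
    rw [cond_true, Bool.and_eq_true, decide_eq_true_eq]
    rw [hx1] at a1 a2
    refine ⟨?_, a2.symm.trans b2⟩
    rw [a1.symm.trans b1]
    exact Nat.beq_refl _
  | false =>
    rw [cond_false]
    cases hd : Nat.beq e.2.1 x.2.1 with
    | false => rfl
    | true =>
      exfalso
      have hx1 := Nat.eq_of_beq_eq_true hd
      rw [hx1, b3] at a3
      rw [← a3, Nat.beq_refl] at hc
      exact absurd hc (by decide)

theorem PLHomeo.of_chkReorderF {n w : ℕ} {L L' : List ℕ} {P Q : List (List ℕ)} {f : NT (ℕ × List ℕ)} {g : NT ℕ}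
    (h : chkReorderF n w L L' P Q f g = true) : PLHomeo (glueL n w L) (glueL n w L') :=
  PLHomeo.of_chkReorder (chkReorder_of_F h)

end Pool.Agent.H34.PLE
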