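import Pool.Agent.H34.PLE.Reorder

/-!
# A kernel test for unordered isomorphisms of lists of rows
-/

open Set

namespace Pool.Agent.H34.PLE

/-- the bijection of the vertices of the face opposite to `a` induced by the permutation `p`, after renumbering -/
def fperm (p : List ℕ) (a : ℕ) : List ℕ :=
  (p.eraseIdx a).map (fun v => if Nat.blt (p.getD a 0) v then v - 1 else v)

/-- the data of one facet -/
def entries1 (n w : ℕ) (x : ℕ × ℕ × List ℕ) : List (ℕ × ℕ × List ℕ) :=
  (List.range (n + 1)).map fun a => (dg w x.1 a, dg w x.2.1 (x.2.2.getD a 0), fperm x.2.2 a)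

/-- `q` is the inverse of `p` -/
def isInv (n : ℕ) (p q : List ℕ) : Bool :=
  Nat.beq p.length (n + 1) && (List.range (n + 1)).all fun a =>
    Nat.blt (p.getD a 0) (n + 1) && Nat.blt (q.getD a 0) (n + 1) && Nat.beq (q.getD (p.getD a 0) 0) a &&
      Nat.beq (p.getD (q.getD a 0) 0) a

/-- The test: the facets number `i` of `L` and `L'` correspond by the permutation number `i` of `P`. -/
def chkReorder (n w : ℕ) (L L' : List ℕ) (P Q : List (List ℕ)) : Bool :=
  Nat.beq L.length L'.length && Nat.beq L.length P.length && Nat.beq L.length Q.length &&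
    ((P.zip Q).all fun x => isInv n x.1 x.2) &&
    (((L.zip (L'.zip P)).flatMap (entries1 n w)).all fun e =>
      ((L.zip (L'.zip P)).flatMap (entries1 n w)).all fun f =>
        cond (Nat.beq e.1 f.1) (Nat.beq e.2.1 f.2.1 && decide (e.2.2 = f.2.2)) (!(Nat.beq e.2.1 f.2.1)))

theorem PLHomeo.of_chkReorder {n w : ℕ} {L L' : List ℕ} {P Q : List (List ℕ)}
    (h : chkReorder n w L L' P Q = true) : PLHomeo (glueL n w L) (glueL n w L') := by
  unfold chkReorder at h
  rw [Bool.and_eq_true, Bool.and_eq_true, Bool.and_eq_true, Bool.and_eq_true] at h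
  obtain ⟨⟨⟨⟨h1, h2⟩, h3⟩, h4⟩, h5⟩ := h
  have e1 : L.length = L'.length := Nat.eq_of_beq_eq_true h1
  have e2 : L.length = P.length := Nat.eq_of_beq_eq_true h2
  have e3 : L.length = Q.length := Nat.eq_of_beq_eq_true h3
  rw [List.all_eq_true] at h4
  -- the permutations
  have hPQ : ∀ i : Fin L.length, isInv n (P.getD i []) (Q.getD i []) = true := by
    intro i
    have hi : (i : ℕ) < (P.zip Q).length := by rw [List.length_zip, ← e2, ← e3, Nat.min_self]; exact i.2
    have := h4 _ (List.getElem_mem hi)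
    rw [List.getElem_zip] at this
    rwa [List.getD_eq_getElem P [] (by rw [← e2]; exact i.2), List.getD_eq_getElem Q [] (by rw [← e3]; exact i.2)]
  have hinv : ∀ (i : Fin L.length), (P.getD i []).length = n + 1 ∧ ∀ a < n + 1,
      (P.getD i []).getD a 0 < n + 1 ∧ (Q.getD i []).getD a 0 < n + 1 ∧
      (Q.getD i []).getD ((P.getD i []).getD a 0) 0 = a ∧ (P.getD i []).getD ((Q.getD i []).getD a 0) 0 = a := by
    intro i
    have h6 := hPQ i
    unfold isInv at h6
    rw [Bool.and_eq_true, List.all_eq_true] at h6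
    refine ⟨Nat.eq_of_beq_eq_true h6.1, fun a ha => ?_⟩
    have h7 := h6.2 a (List.mem_range.mpr ha)
    rw [Bool.and_eq_true, Bool.and_eq_true, Bool.and_eq_true] at h7
    exact ⟨Nat.le_of_ble_eq_true h7.1.1.1, Nat.le_of_ble_eq_true h7.1.1.2, Nat.eq_of_beq_eq_true h7.1.2,
      Nat.eq_of_beq_eq_true h7.2⟩
  let p : Fin L.length → Equiv.Perm (Fin (n + 1)) := fun i =>
    { toFun := fun a => ⟨(P.getD i []).getD a 0, ((hinv i).2 a a.2).1⟩
      invFun := fun a => ⟨(Q.getD i []).getD a 0, ((hinv i).2 a a.2).2.1⟩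
      left_inv := fun a => Fin.ext ((hinv i).2 a a.2).2.2.1
      right_inv := fun a => Fin.ext ((hinv i).2 a a.2).2.2.2 }
  let e : (glueL n w L).ι ≃ (glueL n w L').ι := finCongr e1
  -- the entries
  have hent : ∀ (i : Fin L.length) (a : Fin (n + 1)),
      (row n w (L.get i) a, row n w (L'.get (finCongr e1 i)) (p i a), fperm (P.getD i []) a) ∈
        (L.zip (L'.zip P)).flatMap (entries1 n w) := by
    intro i a
    rw [List.mem_flatMap]
    have hi : (i : ℕ) < (L.zip (L'.zip P)).length := by
      rw [List.length_zip, List.length_zip, ← e1, ← e2, Nat.min_self, Nat.min_self]; exact i.2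
    refine ⟨_, List.getElem_mem hi, ?_⟩
    rw [List.getElem_zip, List.getElem_zip]
    unfold entries1
    rw [List.mem_map]
    refine ⟨a, List.mem_range.mpr a.2, ?_⟩
    have hP : P[(i : ℕ)]'(by rw [← e2]; exact i.2) = P.getD i [] :=
      (List.getD_eq_getElem P [] (by rw [← e2]; exact i.2)).symm
    simp only [hP]
    rfl
  rw [List.all_eq_true] at h5
  have hkey : ∀ (i j : Fin L.length) (a b : Fin (n + 1)),
      (row n w (L.get i) a = row n w (L.get j) b → row n w (L'.get (finCongr e1 i)) (p i a) =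
        row n w (L'.get (finCongr e1 j)) (p j b) ∧ fperm (P.getD i []) a = fperm (P.getD j []) b) ∧
      (row n w (L'.get (finCongr e1 i)) (p i a) = row n w (L'.get (finCongr e1 j)) (p j b) →
        row n w (L.get i) a = row n w (L.get j) b) := by
    intro i j a b
    have h6 := h5 _ (hent i a)
    rw [List.all_eq_true] at h6
    have h7 := h6 _ (hent j b)
    constructor
    · intro hx
      have h8 : Nat.beq (row n w (L.get i) a) (row n w (L.get j) b) = true := by rw [hx]; exact Nat.beq_refl _
      simp only [h8, cond_true, Bool.and_eq_true, decide_eq_true_eq] at h7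
      exact ⟨Nat.eq_of_beq_eq_true h7.1, h7.2⟩
    · intro hy
      by_contra hx
      have h8 : Nat.beq (row n w (L.get i) a) (row n w (L.get j) b) = false := by
        by_contra h9
        rw [Bool.not_eq_false] at h9
        exact hx (Nat.eq_of_beq_eq_true h9)
      have h9 : Nat.beq (row n w (L'.get (finCongr e1 i)) (p i a)) (row n w (L'.get (finCongr e1 j)) (p j b)) =
          true := by rw [hy]; exact Nat.beq_refl _
      simp only [h8, cond_false, h9, Bool.not_true, Bool.false_eq_true] at h7
  have hfperm : ∀ (i : Fin L.length) (a : Fin (n + 1)) (s : Fin n),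
      (fperm (P.getD i []) a).getD s 0 =
        if ((p i a : Fin (n + 1)) : ℕ) < (p i (a.succAbove s) : Fin (n + 1)) then
          ((p i (a.succAbove s) : Fin (n + 1)) : ℕ) - 1 else (p i (a.succAbove s) : Fin (n + 1)) := by
    intro i a s
    have hl := (hinv i).1
    have hl2 : ((P.getD i []).eraseIdx a).length = n := by
      rw [List.length_eraseIdx_of_lt (by rw [hl]; exact a.2), hl]; rfl
    unfold fperm
    rw [List.getD_eq_getElem _ 0 (by rw [List.length_map, hl2]; exact s.2), List.getElem_map]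
    have h8 : ((P.getD i []).eraseIdx a)[(s : ℕ)]'(by rw [hl2]; exact s.2) =
        (P.getD i []).getD (a.succAbove s) 0 := by
      rw [← List.getD_eq_getElem _ 0]
      rw [List.getD_eq_getElem?_getD, List.getD_eq_getElem?_getD, List.getElem?_eraseIdx]
      unfold Fin.succAbove
      by_cases h : s.castSucc < a
      · have h1 : (s : ℕ) < a := h
        rw [if_pos h, if_pos h1]
        rfl
      · have h1 : ¬ (s : ℕ) < a := h
        rw [if_neg h, if_neg h1]
        rfl
    rw [h8]
    show (if Nat.blt ((p i a : Fin (n + 1)) : ℕ) ((p i (a.succAbove s) : Fin (n + 1)) : ℕ) = true then _ else _) = _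
    by_cases h9 : ((p i a : Fin (n + 1)) : ℕ) < (p i (a.succAbove s) : Fin (n + 1))
    · have h10 : Nat.blt ((p i a : Fin (n + 1)) : ℕ) ((p i (a.succAbove s) : Fin (n + 1)) : ℕ) = true :=
        Nat.ble_eq_true_of_le h9
      rw [if_pos h9, if_pos h10]
      rfl
    · have h10 : ¬ Nat.blt ((p i a : Fin (n + 1)) : ℕ) ((p i (a.succAbove s) : Fin (n + 1)) : ℕ) = true :=
        fun h10 => h9 (Nat.le_of_ble_eq_true h10)
      rw [if_neg h9, if_neg h10]
      rfl
  have hsucc : ∀ (x y : Fin (n + 1)) (hxy : y ≠ x), ∃ t : Fin n, y = x.succAbove t ∧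
      (t : ℕ) = if (x : ℕ) < y then (y : ℕ) - 1 else y := by
    intro x y hxy
    obtain ⟨t, ht⟩ := Fin.exists_succAbove_eq hxy
    refine ⟨t, ht.symm, ?_⟩
    rw [← ht]
    unfold Fin.succAbove
    by_cases h : t.castSucc < x
    · have h1 : (t : ℕ) < x := h
      rw [if_pos h, if_neg (by show ¬ (x : ℕ) < (t : ℕ); omega)]
      rfl
    · have h1 : (x : ℕ) ≤ t := not_lt.mp h
      rw [if_neg h, if_pos (by show (x : ℕ) < (t : ℕ) + 1; omega)]
      rfl
  refine PLHomeo.reorder (K := glueL n w L) (K' := glueL n w L') e p (fun i j a b hij => ?_)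
    (fun i j a b hij => (hkey i j a b).2 hij)
  obtain ⟨h8, h9⟩ := (hkey i j a b).1 hij
  refine ⟨h8, fun s => ?_⟩
  obtain ⟨t, ht1, ht2⟩ := hsucc (p i a) (p i (a.succAbove s))
    (fun h => Fin.succAbove_ne a s ((p i).injective h))
  obtain ⟨t', ht1', ht2'⟩ := hsucc (p j b) (p j (b.succAbove s))
    (fun h => Fin.succAbove_ne b s ((p j).injective h))
  have h10 : t = t' := by
    apply Fin.ext
    rw [ht2, ht2', ← hfperm i a s, ← hfperm j b s, h9]
  subst h10
  exact ⟨t, ht1, ht1'⟩

theorem PLHomeo.of_perm {n w : ℕ} {L L' : List ℕ} (h : L.isPerm L' = true) :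
    PLHomeo (glueL n w L) (glueL n w L') := by
  refine PLHomeo.of_rows ?_
  rw [rows_glueL, rows_glueL]
  exact Multiset.coe_eq_coe.mpr ((List.isPerm_iff.mp h).map _)

end Pool.Agent.H34.PLE
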