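import Pool.Agent.H34.PLE.Move

/-!
# Gluing complexes up to the multiset of their rows, and the move relation

The rows of a finite gluing complex form a multiset of functions `Fin (n+1) → ℕ`; two complexes with the same
multiset of rows are isomorphic.  `MoveRel` is the relation of a generalised bistellar move on multisets of rows
and `Good` is the invariant (every name is below a counter and occurs at most twice).
-/

open Set

namespace Pool.Agent.H34.PLE

variable {n : ℕ}

lemma equiv_of_map_eq {α : Type} {ι κ : Type} [Fintype ι] [Fintype κ] (f : ι → α) (g : κ → α)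
    (h : (Finset.univ : Finset ι).val.map f = (Finset.univ : Finset κ).val.map g) :
    ∃ e : ι ≃ κ, ∀ i, g (e i) = f i := by
  classical
  have key : ∀ (ι : Type) [Fintype ι] (f : ι → α),
      ∃ e : ι ≃ ((Finset.univ : Finset ι).val.map f).ToType, ∀ i, (e i).1 = f i := by
    intro ι _ f
    have hc : ∀ i : ι, (Finset.univ : Finset ι).val.count i = 1 := fun i =>
      Multiset.count_eq_one_of_mem Finset.univ.nodup (Finset.mem_univ i)
    let e0 : ι ≃ (Finset.univ : Finset ι).val.ToType :=
      { toFun := fun i => ⟨i, ⟨0, by rw [hc]; exact Nat.zero_lt_one⟩⟩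
        invFun := fun p => p.1
        left_inv := fun i => rfl
        right_inv := fun p => by
          obtain ⟨i, j, hj⟩ := p
          have : j = 0 := by rw [hc] at hj; omega
          subst this
          rfl }
    refine ⟨e0.trans (Multiset.mapEquiv _ f), fun i => ?_⟩
    rw [Equiv.trans_apply, Multiset.mapEquiv_apply]
    rfl
  obtain ⟨e, he⟩ := key ι f
  obtain ⟨e', he'⟩ := key κ g
  refine ⟨(e.trans (Multiset.cast h)).trans e'.symm, fun i => ?_⟩
  rw [← he' _]
  simp only [Equiv.trans_apply, Equiv.apply_symm_apply]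
  exact he i

/-- The rows of a finite gluing complex. -/
def Glue.rows (K : Glue n) [Fintype K.ι] : Multiset (Fin (n + 1) → ℕ) := (Finset.univ : Finset K.ι).val.map K.face

/-- Complexes with the same rows up to an injective renaming are isomorphic. -/
lemma PLHomeo.of_rows_map {K K' : Glue n} [Fintype K.ι] [Fintype K'.ι] (φ : ℕ → ℕ)
    (hφ : ∀ r ∈ K.rows, ∀ r' ∈ K.rows, ∀ a b, φ (r a) = φ (r' b) → r a = r' b)
    (h : K.rows.map (fun r a => φ (r a)) = K'.rows) : PLHomeo K K' := by
  unfold Glue.rows at h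
  rw [Multiset.map_map] at h
  obtain ⟨e, he⟩ := equiv_of_map_eq _ _ h
  refine PLHomeo.of_equiv e (fun i j a b => ?_)
  have h1 : ∀ i a, K'.face (e i) a = φ (K.face i a) := fun i a => congrFun (he i) a
  rw [h1, h1]
  have hm : ∀ i, K.face i ∈ K.rows := fun i => Multiset.mem_map.mpr ⟨i, Finset.mem_univ i, rfl⟩
  exact ⟨fun h => by rw [h], fun h => hφ _ (hm i) _ (hm j) _ _ h⟩

lemma PLHomeo.of_rows {K K' : Glue n} [Fintype K.ι] [Fintype K'.ι] (h : K.rows = K'.rows) : PLHomeo K K' := by
  refine PLHomeo.of_rows_map id (fun _ _ _ _ _ _ h => h) ?_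
  simpa using h

/-- the number of occurrences of a name in a row -/
def rcount (x : ℕ) (r : Fin (n + 1) → ℕ) : ℕ := (Finset.univ.filter (fun a => r a = x)).card

/-- the number of occurrences of a name in a multiset of rows -/
def cntG (x : ℕ) (s : Multiset (Fin (n + 1) → ℕ)) : ℕ := (s.map (rcount x)).sum

lemma cntG_add (x : ℕ) (s t : Multiset (Fin (n + 1) → ℕ)) : cntG x (s + t) = cntG x s + cntG x t := by
  simp [cntG]

lemma cntG_eq_zero {x : ℕ} {s : Multiset (Fin (n + 1) → ℕ)} (h : cntG x s = 0) (r : Fin (n + 1) → ℕ) (hr : r ∈ s)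
    (a : Fin (n + 1)) : r a ≠ x := by
  intro ha
  have h1 : rcount x r = 0 := by
    unfold cntG at h
    exact Multiset.sum_eq_zero_iff.mp h _ (Multiset.mem_map_of_mem _ hr)
  unfold rcount at h1
  rw [Finset.card_eq_zero] at h1
  have h2 : a ∈ Finset.univ.filter (fun a => r a = x) := by simp [ha]
  rw [h1] at h2
  simp at h2

/-- the invariant: names are below the counter and occur at most twice -/
def Good (s : Multiset (Fin (n + 1) → ℕ)) (c : ℕ) : Prop :=
  (∀ r ∈ s, ∀ a, r a < c) ∧ ∀ x, cntG x s ≤ 2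

/-- the row `b` of a matrix of names without the diagonal entry -/
def rowM (M : Fin (n + 2) → Fin (n + 2) → ℕ) (b : Fin (n + 2)) : Fin (n + 1) → ℕ := fun a => M b (b.succAbove a)

/-- the rows of the facets with index in `B` -/
def rowsM (M : Fin (n + 2) → Fin (n + 2) → ℕ) (B : Finset (Fin (n + 2))) : Multiset (Fin (n + 1) → ℕ) :=
  B.val.map (rowM M)

/-- The move relation: the facets with index in `B` are replaced by those with index in the complement of `B`,
whose common names are new. -/
def MoveRel (s s' : Multiset (Fin (n + 1) → ℕ)) (c c' : ℕ) : Prop :=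
  ∃ (B : Finset (Fin (n + 2))) (M : Fin (n + 2) → Fin (n + 2) → ℕ) (r : Multiset (Fin (n + 1) → ℕ)),
    B.Nonempty ∧ Bᶜ.Nonempty ∧ (∀ i j, M i j = M j i) ∧ s = r + rowsM M B ∧ s' = r + rowsM M Bᶜ ∧ c ≤ c' ∧
    (∀ a ∉ B, ∀ a' ∉ B, a ≠ a' → c ≤ M a a' ∧ M a a' < c') ∧
    ∀ a ∉ B, ∀ a' ∉ B, a ≠ a' → ∀ d ∉ B, ∀ d' ∉ B, d ≠ d' → M a a' = M d d' → (a = d ∧ a' = d') ∨ (a = d' ∧ a' = d)

/-- the positions of a name in the rows of a matrix -/
def posM (M : Fin (n + 2) → Fin (n + 2) → ℕ) (B : Finset (Fin (n + 2))) (x : ℕ) :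
    Finset (Fin (n + 2) × Fin (n + 2)) :=
  (Finset.univ.filter (fun p => p.1 ∈ B ∧ p.1 ≠ p.2 ∧ M p.1 p.2 = x))

lemma rcount_rowM (M : Fin (n + 2) → Fin (n + 2) → ℕ) (b : Fin (n + 2)) (x : ℕ) :
    rcount x (rowM M b) = (Finset.univ.filter (fun j => b ≠ j ∧ M b j = x)).card := by
  unfold rcount rowM
  rw [← Finset.card_image_of_injective _ (Fin.succAbove_right_injective (p := b))]
  congr 1
  ext j
  simp only [Finset.mem_image, Finset.mem_filter, Finset.mem_univ, true_and]
  constructor
  · rintro ⟨a, ha, rfl⟩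
    exact ⟨(Fin.succAbove_ne b a).symm, ha⟩
  · rintro ⟨hj, hx⟩
    obtain ⟨a, rfl⟩ := Fin.exists_succAbove_eq (Ne.symm hj)
    exact ⟨a, hx, rfl⟩

lemma cntG_rowsM (M : Fin (n + 2) → Fin (n + 2) → ℕ) (B : Finset (Fin (n + 2))) (x : ℕ) :
    cntG x (rowsM M B) = (posM M B x).card := by
  have h1 : cntG x (rowsM M B) = ∑ b ∈ B, rcount x (rowM M b) := by
    unfold cntG rowsM
    rw [Multiset.map_map]
    rfl
  rw [h1]
  unfold posM
  rw [Finset.card_filter, Fintype.sum_prod_type, ← Finset.sum_subset (Finset.subset_univ B)]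
  · refine Finset.sum_congr rfl (fun b hb => ?_)
    rw [rcount_rowM, Finset.card_filter]
    refine Finset.sum_congr rfl (fun j _ => ?_)
    simp [hb]
  · intro b _ hb
    refine Finset.sum_eq_zero (fun j _ => ?_)
    simp [hb]

instance mvFintype (J : Type) [Fintype J] (fJ : J → Fin (n + 1) → ℕ) (M : Fin (n + 2) → Fin (n + 2) → ℕ)
    (C : Finset (Fin (n + 2))) : Fintype (mv J fJ M C).ι :=
  inferInstanceAs (Fintype (J ⊕ {c : Fin (n + 2) // c ∈ C}))

lemma rows_mv {J : Type} [Fintype J] (fJ : J → Fin (n + 1) → ℕ) (M : Fin (n + 2) → Fin (n + 2) → ℕ)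
    (C : Finset (Fin (n + 2))) [Fintype (mv J fJ M C).ι] :
    (mv J fJ M C).rows = (Finset.univ : Finset J).val.map fJ + rowsM M C := by
  classical
  obtain rfl : ‹Fintype (mv J fJ M C).ι› = (inferInstanceAs (Fintype (J ⊕ {c : Fin (n + 2) // c ∈ C}))) :=
    Subsingleton.elim _ _
  have h2 : (Finset.univ : Finset (J ⊕ {c : Fin (n + 2) // c ∈ C})).val =
      (Finset.univ : Finset J).val.map Sum.inl + (Finset.univ : Finset {c : Fin (n + 2) // c ∈ C}).val.map Sum.inr := by
    rw [← Finset.univ_disjSum_univ]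
    rfl
  show (Finset.univ : Finset (J ⊕ {c : Fin (n + 2) // c ∈ C})).val.map
    (Sum.elim fJ (fun c s => M c.1 (c.1.succAbove s))) = _
  rw [h2, Multiset.map_add, Multiset.map_map, Multiset.map_map]
  congr 1
  have h3 : C.val = (Finset.univ : Finset {c : Fin (n + 2) // c ∈ C}).val.map Subtype.val := by
    have := Finset.univ_val_map_subtype_val (p := fun c => c ∈ C)
    rw [this]
    congr 1
    ext c
    simp
  unfold rowsM
  conv_rhs => rw [h3]
  rw [Multiset.map_map]
  rfl

/-- **The engine**: a move is a piecewise linear homeomorphism and keeps the invariant. -/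
theorem MoveRel.plHomeo {K K' : Glue n} [Fintype K.ι] [Fintype K'.ι] {c c' : ℕ} (hK : Good K.rows c)
    (h : MoveRel K.rows K'.rows c c') : PLHomeo K K' ∧ Good K'.rows c' := by
  classical
  obtain ⟨B, M, r, hB, hA, hsym, hs, hs', hcc, hnew, hinj⟩ := h
  -- realise the rest
  let J := Fin r.toList.length
  let fJ : J → Fin (n + 1) → ℕ := fun i => r.toList.get i
  have hJ : (Finset.univ : Finset J).val.map fJ = r := by
    show (Finset.univ : Finset (Fin r.toList.length)).val.map fJ = r
    rw [Fin.univ_val_map]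
    show ((List.ofFn (fun i => r.toList.get i) : List _) : Multiset _) = r
    rw [List.ofFn_get, Multiset.coe_toList]
  have hmem : ∀ j, fJ j ∈ r := fun j => by
    rw [← hJ]; exact Multiset.mem_map.mpr ⟨j, Finset.mem_univ j, rfl⟩
  have hrB : ∀ b ∈ B, ∀ j, b ≠ j → M b j < c := by
    intro b hb j hj
    obtain ⟨a, rfl⟩ := Fin.exists_succAbove_eq (Ne.symm hj)
    have h1 : rowM M b ∈ K.rows := by
      rw [hs]
      exact Multiset.mem_add.mpr (Or.inr (Multiset.mem_map_of_mem _ hb))
    exact hK.1 _ h1 a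
  have hrr : ∀ q ∈ r, ∀ a, q a < c := fun q hq a => hK.1 q (by rw [hs]; exact Multiset.mem_add.mpr (Or.inl hq)) a
  have hcnt : ∀ x, cntG x r + (posM M B x).card ≤ 2 := by
    intro x
    have := hK.2 x
    rwa [hs, cntG_add, cntG_rowsM] at this
  have hrc : ∀ x, c ≤ x → cntG x r = 0 := by
    intro x hx
    unfold cntG
    rw [Multiset.sum_eq_zero_iff]
    intro y hy
    obtain ⟨q, hq, rfl⟩ := Multiset.mem_map.mp hy
    unfold rcount
    rw [Finset.card_eq_zero, Finset.filter_eq_empty_iff]
    intro a _ ha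
    have := hrr q hq a
    omega
  have hin : Inner J fJ M B := by
    intro b hb b' hb' hbb
    have hpair : ({(b, b'), (b', b)} : Finset _) ⊆ posM M B (M b b') := by
      intro p hp
      simp only [Finset.mem_insert, Finset.mem_singleton] at hp
      rcases hp with rfl | rfl
      · simp [posM, hb, hbb]
      · simp [posM, hb', Ne.symm hbb, hsym b' b]
    have hcard : ({(b, b'), (b', b)} : Finset (Fin (n + 2) × Fin (n + 2))).card = 2 := by
      rw [Finset.card_pair]
      intro h
      exact hbb (Prod.mk.inj h).1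
    have h2 := hcnt (M b b')
    have h3 := Finset.card_le_card hpair
    rw [hcard] at h3
    have h4 : posM M B (M b b') = {(b, b'), (b', b)} :=
      (Finset.eq_of_subset_of_card_le hpair (by rw [hcard]; omega)).symm
    refine ⟨fun j s => ?_, fun d hd e hde hx => ?_⟩
    · exact cntG_eq_zero (by omega) (fJ j) (hmem j) s
    · have h5 : (d, e) ∈ posM M B (M b b') := by simp [posM, hd, Ne.symm hde, hx]
      rw [h4] at h5
      simp only [Finset.mem_insert, Finset.mem_singleton, Prod.mk.injEq] at h5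
      exact h5
  have hin' : Inner J fJ M Bᶜ := by
    intro a ha a' ha' haa
    rw [Finset.mem_compl] at ha ha'
    have h1 := hnew a ha a' ha' haa
    refine ⟨fun j s h => ?_, fun d hd e hde hx => ?_⟩
    · have := hrr _ (hmem j) s
      omega
    · rw [Finset.mem_compl] at hd
      by_cases he : e ∈ B
      · have := hrB e he d hde
        rw [hsym e d] at this
        omega
      · rcases hinj d hd e he (Ne.symm hde) a ha a' ha' haa hx with h | h
        · exact Or.inl h
        · exact Or.inr h
  have hmove := move hsym (C := B) (D := Bᶜ) (J := J) (fJ := fJ) (M := M) (compl_compl B).symm hB hA hin hin'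
  refine ⟨?_, ?_⟩
  · have h1 : PLHomeo K (mv J fJ M B) := PLHomeo.of_rows (by rw [rows_mv, hJ, hs])
    have h2 : PLHomeo (mv J fJ M Bᶜ) K' := PLHomeo.of_rows (by rw [rows_mv, hJ, hs'])
    exact (h1.trans hmove).trans h2
  · rw [hs']
    refine ⟨?_, ?_⟩
    · intro q hq a
      rcases Multiset.mem_add.mp hq with hq | hq
      · exact lt_of_lt_of_le (hrr q hq a) hcc
      · obtain ⟨b, hb, rfl⟩ := Multiset.mem_map.mp hq
        have hb' : b ∉ B := by
          have : b ∈ Bᶜ := hb
          rwa [Finset.mem_compl] at this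
        show M b (b.succAbove a) < c'
        by_cases hj : b.succAbove a ∈ B
        · rw [hsym]
          exact lt_of_lt_of_le (hrB _ hj _ (Fin.succAbove_ne b a)) hcc
        · exact (hnew b hb' _ hj (Fin.succAbove_ne b a).symm).2
    · intro x
      rw [cntG_add, cntG_rowsM]
      by_cases hx : c ≤ x
      · rw [hrc x hx, zero_add]
        by_contra hlt
        push Not at hlt
        -- three positions
        obtain ⟨p, q, t, hp, hq, ht, hpq, hpt, hqt⟩ := Finset.two_lt_card_iff.mp hlt
        have hA' : ∀ p ∈ posM M Bᶜ x, p.1 ∉ B ∧ p.2 ∉ B ∧ p.1 ≠ p.2 ∧ M p.1 p.2 = x := by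
          intro p hp
          simp only [posM, Finset.mem_filter, Finset.mem_univ, true_and, Finset.mem_compl] at hp
          refine ⟨hp.1, ?_, hp.2.1, hp.2.2⟩
          intro h2
          have := hrB _ h2 _ (Ne.symm hp.2.1)
          rw [hsym, hp.2.2] at this
          omega
        obtain ⟨p1, p2, p3, p4⟩ := hA' p hp
        obtain ⟨q1, q2, q3, q4⟩ := hA' q hq
        obtain ⟨t1, t2, t3, t4⟩ := hA' t ht
        rcases hinj _ p1 _ p2 p3 _ q1 _ q2 q3 (p4.trans q4.symm) with ⟨h1, h2⟩ | ⟨h1, h2⟩
        · exact hpq (Prod.ext h1 h2)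
        · rcases hinj _ p1 _ p2 p3 _ t1 _ t2 t3 (p4.trans t4.symm) with ⟨h3, h4⟩ | ⟨h3, h4⟩
          · exact hpt (Prod.ext h3 h4)
          · exact hqt (Prod.ext (h2.symm.trans h4) (h1.symm.trans h3))
      · push Not at hx
        have h1 : (posM M Bᶜ x).card ≤ (posM M B x).card := by
          refine Finset.card_le_card_of_injOn Prod.swap ?_ (Prod.swap_injective.injOn)
          intro p hp
          simp only [posM, Finset.coe_filter, Finset.mem_univ, true_and, Finset.mem_compl, Set.mem_ofPred_eq] at hp ⊢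
          have h2 : p.2 ∈ B := by
            by_contra h2
            have := (hnew _ hp.1 _ h2 hp.2.1).1
            omega
          exact ⟨h2, Ne.symm hp.2.1, by rw [← hp.2.2]; exact hsym _ _⟩
        exact le_trans (Nat.add_le_add_left h1 _) (hcnt x)

end Pool.Agent.H34.PLE
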