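import Pool.Agent.H34.PLE.Check

/-!
# Soundness of the checker
-/

namespace Pool.Agent.H34.PLE

lemma nrec_or {x y : Bool} {b : ℕ} (h : Nat.rec (motive := fun _ => Bool) x (fun _ _ => y) b = true) :
    x = true ∨ y = true := by
  cases b with
  | zero => exact Or.inl h
  | succ b => exact Or.inr h

lemma brec_and {x b : Bool} (h : Bool.rec (motive := fun _ => Bool) false x b = true) : x = true ∧ b = true := by
  cases b with
  | false => exact absurd h (by simp)
  | true => exact ⟨h, rfl⟩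

lemma ble_true {a b : ℕ} (h : Nat.ble a b = true) : a ≤ b := Nat.le_of_ble_eq_true h

lemma beq_true {a b : ℕ} (h : Nat.beq a b = true) : a = b := Nat.eq_of_beq_eq_true h

lemma lm_eq {W : ℕ} (hW : 0 < W) (x N : ℕ) (hN : x ≤ N) :
    lm W x = ∑ j ∈ Finset.range N, if dg W x j = 0 then 0 else {dg W x j} := by
  unfold lm
  refine Finset.sum_subset (Finset.range_mono hN) (fun j _ hj => ?_)
  rw [Finset.mem_range, not_lt] at hj
  rw [dg_of_lt W x x j ?_ hj, if_pos rfl]
  calc x < 2 ^ x := Nat.lt_two_pow_self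
    _ ≤ 2 ^ (W * x) := Nat.pow_le_pow_right (by omega) (Nat.le_mul_of_pos_left x hW)

/-- replacing a digit `0` by `v` -/
lemma lm_insert {W : ℕ} (hW : 0 < W) (x y k v : ℕ) (hv : v ≠ 0) (hx : dg W x k = 0) (hy : dg W y k = v)
    (h : ∀ j, j ≠ k → dg W y j = dg W x j) : lm W y = v ::ₘ lm W x := by
  rw [lm_eq hW y (max x y + k + 1) (by omega), lm_eq hW x (max x y + k + 1) (by omega)]
  have hk : k ∈ Finset.range (max x y + k + 1) := by rw [Finset.mem_range]; omega
  rw [← Finset.add_sum_erase _ _ hk, ← Finset.add_sum_erase _ _ hk, hy, hx, if_neg hv, if_pos rfl, zero_add]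
  rw [← Multiset.singleton_add]
  congr 1
  refine Finset.sum_congr rfl (fun j hj => ?_)
  rw [h j (Finset.ne_of_mem_erase hj)]

theorem T.take_spec {W pW : ℕ} (hW : 0 < W) (hp : pW = 2 ^ W) (t : T) : ∀ (k : ℕ) (κ : ℕ → T → Bool),
    T.take W pW t k κ = true → ∃ v t', v ≠ 0 ∧ v < 2 ^ W ∧ t.mc W = v ::ₘ T.mc W t' ∧ κ v t' = true := by
  induction t with
  | l x =>
    intro k κ h
    obtain ⟨h1, h2⟩ := brec_and h
    have hv : Nat.mod (Nat.shiftRight x (Nat.mul W k)) pW = dg W x k := by rw [hp]; rfl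
    rw [hv] at h1 h2
    have h3 := ble_true h2
    refine ⟨dg W x k, _, by omega, dg_lt W x k, ?_, h1⟩
    show lm W x = dg W x k ::ₘ lm W (x ^^^ (dg W x k <<< (W * k)))
    refine lm_insert hW _ _ k _ (by omega) ?_ rfl ?_
    · rw [dg_xor, dg_shl, if_pos le_rfl, Nat.sub_self, dg_small W _ (dg_lt W x k), if_pos rfl, Nat.xor_self]
    · intro j hj
      rw [dg_xor, dg_shl]
      split_ifs with h
      · rw [dg_small W _ (dg_lt W x k), if_neg (by omega), Nat.xor_zero]
      · rw [Nat.xor_zero]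
  | n a b iha ihb =>
    intro k κ h
    rcases nrec_or h with h | h
    · obtain ⟨v, t', h1, h2, h3, h4⟩ := iha _ _ h
      refine ⟨v, T.n t' b, h1, h2, ?_, h4⟩
      show a.mc W + b.mc W = v ::ₘ (t'.mc W + b.mc W)
      rw [h3, Multiset.cons_add]
    · obtain ⟨v, t', h1, h2, h3, h4⟩ := ihb _ _ h
      refine ⟨v, T.n a t', h1, h2, ?_, h4⟩
      show a.mc W + b.mc W = v ::ₘ (a.mc W + t'.mc W)
      rw [h3, Multiset.add_cons]

theorem T.put_spec {W pW : ℕ} (hW : 0 < W) (hp : pW = 2 ^ W) (t : T) : ∀ (k v : ℕ) (κ : T → Bool), v < 2 ^ W →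
    T.put W pW t k v κ = true → ∃ t', T.mc W t' = v ::ₘ T.mc W t ∧ κ t' = true := by
  induction t with
  | l x =>
    intro k v κ hlt h
    obtain ⟨h1, h2⟩ := brec_and h
    obtain ⟨h3, h4⟩ := brec_and h1
    have hv : Nat.mod (Nat.shiftRight x (Nat.mul W k)) pW = dg W x k := by rw [hp]; rfl
    rw [hv] at h4
    have h5 := beq_true h4
    have h6 := ble_true h2
    refine ⟨_, ?_, h3⟩
    show lm W (x ||| (v <<< (W * k))) = v ::ₘ lm W x
    refine lm_insert hW _ _ k _ (by omega) h5 ?_ ?_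
    · rw [dg_or, h5, dg_shl, if_pos le_rfl, Nat.sub_self, dg_small W _ hlt, if_pos rfl, Nat.zero_or]
    · intro j hj
      rw [dg_or, dg_shl]
      split_ifs with h
      · rw [dg_small W _ hlt, if_neg (by omega), Nat.or_zero]
      · rw [Nat.or_zero]
  | n a b iha ihb =>
    intro k v κ hlt h
    rcases nrec_or h with h | h
    · obtain ⟨t', h3, h4⟩ := iha _ _ _ hlt h
      refine ⟨T.n t' b, ?_, h4⟩
      show t'.mc W + b.mc W = v ::ₘ (a.mc W + b.mc W)
      rw [h3, Multiset.cons_add]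
    · obtain ⟨t', h3, h4⟩ := ihb _ _ _ hlt h
      refine ⟨T.n a t', ?_, h4⟩
      show a.mc W + t'.mc W = v ::ₘ (a.mc W + b.mc W)
      rw [h3, Multiset.add_cons]

theorem T.eq_of_beq (t : T) : ∀ s, T.beq t s = true → t = s := by
  induction t with
  | l x =>
    intro s h
    cases s with
    | l y => exact congrArg T.l (beq_true h)
    | n a b => exact absurd h (by simp [T.beq])
  | n a b iha ihb =>
    intro s h
    cases s with
    | l y => exact absurd h (by simp [T.beq])
    | n c d =>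
      obtain ⟨h1, h2⟩ := brec_and h
      rw [iha _ h2, ihb _ h1]

/-! ### index lists -/

/-- the indices -/
def IL.idx : IL → List ℕ
  | .nil => []
  | .cons i _ _ _ _ r => i :: r.idx

/-- the precomputed numbers are correct -/
def IL.Ok (w S : ℕ) : IL → Prop
  | .nil => True
  | .cons i wi wj pi si r => (wi = w * i ∧ wj = w * (i + 1) ∧ pi = 2 ^ (w * i) ∧ si = S * i) ∧ r.Ok w S

lemma IL.sel_perm (l : IL) : ∀ m, ((l.selB m).idx ++ (l.selA m).idx).Perm l.idx := by
  induction l with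
  | nil => intro m; exact List.Perm.refl _
  | cons i wi wj pi si r ih =>
    intro m
    rcases hm : Nat.land m 1 with _ | j
    · have h1 : (IL.cons i wi wj pi si r).selB m = r.selB (Nat.div m 2) := by
        show Nat.rec (motive := fun _ => IL) _ _ (Nat.land m 1) = _
        rw [hm]; rfl
      have h2 : (IL.cons i wi wj pi si r).selA m = IL.cons i wi wj pi si (r.selA (Nat.div m 2)) := by
        show Nat.rec (motive := fun _ => IL) _ _ (Nat.land m 1) = _
        rw [hm]; rfl
      rw [h1, h2]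
      show ((r.selB (Nat.div m 2)).idx ++ i :: (r.selA (Nat.div m 2)).idx).Perm (i :: r.idx)
      exact List.perm_middle.trans ((ih _).cons i)
    · have h1 : (IL.cons i wi wj pi si r).selB m = IL.cons i wi wj pi si (r.selB (Nat.div m 2)) := by
        show Nat.rec (motive := fun _ => IL) _ _ (Nat.land m 1) = _
        rw [hm]; rfl
      have h2 : (IL.cons i wi wj pi si r).selA m = r.selA (Nat.div m 2) := by
        show Nat.rec (motive := fun _ => IL) _ _ (Nat.land m 1) = _
        rw [hm]; rfl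
      rw [h1, h2]
      show (i :: (r.selB (Nat.div m 2)).idx ++ (r.selA (Nat.div m 2)).idx).Perm (i :: r.idx)
      exact (ih _).cons i

lemma IL.selB_ok {w S : ℕ} (l : IL) : ∀ m, l.Ok w S → (l.selB m).Ok w S := by
  induction l with
  | nil => intro m h; exact h
  | cons i wi wj pi si r ih =>
    intro m h
    rcases hm : Nat.land m 1 with _ | j
    · have h1 : (IL.cons i wi wj pi si r).selB m = r.selB (Nat.div m 2) := by
        show Nat.rec (motive := fun _ => IL) _ _ (Nat.land m 1) = _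
        rw [hm]; rfl
      rw [h1]
      exact ih _ h.2
    · have h1 : (IL.cons i wi wj pi si r).selB m = IL.cons i wi wj pi si (r.selB (Nat.div m 2)) := by
        show Nat.rec (motive := fun _ => IL) _ _ (Nat.land m 1) = _
        rw [hm]; rfl
      rw [h1]
      exact ⟨h.1, ih _ h.2⟩

lemma IL.selA_ok {w S : ℕ} (l : IL) : ∀ m, l.Ok w S → (l.selA m).Ok w S := by
  induction l with
  | nil => intro m h; exact h
  | cons i wi wj pi si r ih =>
    intro m h
    rcases hm : Nat.land m 1 with _ | j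
    · have h1 : (IL.cons i wi wj pi si r).selA m = IL.cons i wi wj pi si (r.selA (Nat.div m 2)) := by
        show Nat.rec (motive := fun _ => IL) _ _ (Nat.land m 1) = _
        rw [hm]; rfl
      rw [h1]
      exact ⟨h.1, ih _ h.2⟩
    · have h1 : (IL.cons i wi wj pi si r).selA m = r.selA (Nat.div m 2) := by
        show Nat.rec (motive := fun _ => IL) _ _ (Nat.land m 1) = _
        rw [hm]; rfl
      rw [h1]
      exact ih _ h.2

/-- bitwise or over a list -/
def orl (l : List ℕ) (f : ℕ → ℕ) : ℕ := l.foldr (fun i acc => f i ||| acc) 0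

lemma orl_nil (f : ℕ → ℕ) : orl [] f = 0 := rfl

lemma orl_cons (i : ℕ) (l : List ℕ) (f : ℕ → ℕ) : orl (i :: l) f = f i ||| orl l f := rfl

lemma dg_orl (w : ℕ) (l : List ℕ) (f : ℕ → ℕ) (k : ℕ) : dg w (orl l f) k = orl l (fun i => dg w (f i) k) := by
  induction l with
  | nil => exact dg_zero w k
  | cons i l ih => rw [orl_cons, orl_cons, dg_or, ih]

lemma orl_congr {l : List ℕ} {f g : ℕ → ℕ} (h : ∀ i ∈ l, f i = g i) : orl l f = orl l g := by
  induction l with
  | nil => rfl
  | cons i l ih =>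
    rw [orl_cons, orl_cons, h i (by simp), ih (fun j hj => h j (by simp [hj]))]

lemma orl_eq_zero {l : List ℕ} {f : ℕ → ℕ} (h : ∀ i ∈ l, f i = 0) : orl l f = 0 := by
  induction l with
  | nil => rfl
  | cons i l ih => rw [orl_cons, h i (by simp), ih (fun j hj => h j (by simp [hj]))]; rfl

lemma orl_single {l : List ℕ} {f : ℕ → ℕ} (i : ℕ) (h : ∀ j ∈ l, j ≠ i → f j = 0) :
    orl l f = if i ∈ l then f i else 0 := by
  induction l with
  | nil => simp [orl_nil]
  | cons j l ih =>
    rw [orl_cons, ih (fun j hj => h j (by simp [hj]))]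
    by_cases hji : j = i
    · subst hji
      simp only [List.mem_cons, true_or, if_true]
      split_ifs
      · exact Nat.or_self _
      · exact Nat.or_zero _
    · rw [h j (by simp) hji, Nat.zero_or]
      have : (i ∈ j :: l) ↔ i ∈ l := by simp [Ne.symm hji]
      simp only [this]

lemma IL.orw_spec {w S x : ℕ} (l : IL) (h : l.Ok w S) : IL.orw x l = orl l.idx (fun i => x <<< (w * i)) := by
  induction l with
  | nil => rfl
  | cons i wi wj pi si r ih =>
    obtain ⟨⟨h1, h2, h3, h4⟩, h5⟩ := h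
    show (x <<< wi) ||| IL.orw x r = orl (i :: r.idx) _
    rw [ih h5, orl_cons, h1]

lemma IL.ors_spec {w S x : ℕ} (l : IL) (h : l.Ok w S) : IL.ors x l = orl l.idx (fun i => x <<< (S * i)) := by
  induction l with
  | nil => rfl
  | cons i wi wj pi si r ih =>
    obtain ⟨⟨h1, h2, h3, h4⟩, h5⟩ := h
    show (x <<< si) ||| IL.ors x r = orl (i :: r.idx) _
    rw [ih h5, orl_cons, h4]

/-- insert a zero digit -/
def insd (w i v : ℕ) : ℕ := (v % 2 ^ (w * i)) ||| ((v >>> (w * i)) <<< (w * (i + 1)))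

/-- remove a digit -/
def remd (w i v : ℕ) : ℕ := (v % 2 ^ (w * i)) ||| ((v >>> (w * (i + 1))) <<< (w * i))

lemma dg_insd (w i v j : ℕ) : dg w (insd w i v) j = if j < i then dg w v j else if j = i then 0 else dg w v (j - 1) := by
  unfold insd
  rw [dg_or, dg_mod, dg_shl]
  split_ifs with h1 h2 h3 h4 h5
  · omega
  · rw [Nat.or_zero]
  · omega
  · rw [dg_shr, Nat.zero_or]; congr 1; omega
  · rfl
  · omega

lemma dg_remd (w i v j : ℕ) : dg w (remd w i v) j = if j < i then dg w v j else dg w v (j + 1) := by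
  unfold remd
  rw [dg_or, dg_mod, dg_shl]
  split_ifs with h1 h2 h3
  · omega
  · rw [Nat.or_zero]
  · rw [dg_shr, Nat.zero_or]; congr 1; omega
  · omega

theorem gather_spec {w W S d pW pd cC cS : ℕ} (hW : 0 < W) (hp : pW = 2 ^ W) (l : IL) (hl : l.Ok w S)
    (hnd : l.idx.Nodup) : ∀ (am : ℕ) (t : T) (P Q : ℕ) (κ : ℕ → T → ℕ → ℕ → Bool),
    gather W d pW pd cC cS l am t P Q κ = true →
    ∃ (V : ℕ → ℕ) (am' : ℕ) (t' : T), (∀ i ∈ l.idx, V i ≠ 0 ∧ V i < 2 ^ W) ∧
      t.mc W = ((l.idx.map V : List ℕ) : Multiset ℕ) + T.mc W t' ∧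
      κ am' t' (P ||| orl l.idx (fun i => insd w i (V i) <<< (S * i)))
        (Q ||| orl l.idx (fun i => ((insd w i (V i) * cC) &&& cS) <<< (w * i))) = true := by
  induction l with
  | nil =>
    intro am t P Q κ h
    refine ⟨fun _ => 0, am, t, by simp [IL.idx], by simp [IL.idx], ?_⟩
    show κ am t (P ||| 0) (Q ||| 0) = true
    rw [Nat.or_zero, Nat.or_zero]
    exact h
  | cons i wi wj pi si r ih =>
    intro am t P Q κ h
    obtain ⟨⟨h1, h2, h3, h4⟩, h5⟩ := hl
    have hnd' : i ∉ r.idx ∧ r.idx.Nodup := by simpa [IL.idx] using hnd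
    obtain ⟨v, t1, hv0, hv, hmc, hk⟩ := T.take_spec hW hp t _ _ h
    obtain ⟨V, am', t', hV, hmc', hk'⟩ := ih h5 hnd'.2 _ _ _ _ _ hk
    refine ⟨Function.update V i v, am', t', ?_, ?_, ?_⟩
    · intro j hj
      by_cases hji : j = i
      · subst hji; rw [Function.update_self]; exact ⟨hv0, hv⟩
      · rw [Function.update_of_ne hji]
        exact hV j (by simpa [IL.idx, hji] using hj)
    · rw [hmc, hmc']
      have : r.idx.map (Function.update V i v) = r.idx.map V :=
        List.map_congr_left (fun j hj => Function.update_of_ne (by rintro rfl; exact hnd'.1 hj) _ _)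
      show v ::ₘ _ = (((i :: r.idx).map (Function.update V i v) : List ℕ) : Multiset ℕ) + _
      rw [List.map_cons, Function.update_self, this, ← Multiset.cons_coe, Multiset.cons_add]
    · have e1 : orl r.idx (fun j => insd w j (Function.update V i v j) <<< (S * j)) =
          orl r.idx (fun j => insd w j (V j) <<< (S * j)) :=
        orl_congr (fun j hj => by rw [Function.update_of_ne (by rintro rfl; exact hnd'.1 hj)])
      have e2 : orl r.idx (fun j => ((insd w j (Function.update V i v j) * cC) &&& cS) <<< (w * j)) =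
          orl r.idx (fun j => ((insd w j (V j) * cC) &&& cS) <<< (w * j)) :=
        orl_congr (fun j hj => by rw [Function.update_of_ne (by rintro rfl; exact hnd'.1 hj)])
      show κ am' t' (P ||| orl (i :: r.idx) _) (Q ||| orl (i :: r.idx) _) = true
      rw [orl_cons, orl_cons, e1, e2, Function.update_self, ← Nat.or_assoc, ← Nat.or_assoc]
      have e3 : insd w i v = Nat.lor (Nat.mod v pi) (Nat.shiftLeft (Nat.shiftRight v wi) wj) := by
        rw [h3, h1, h2]; rfl
      rw [e3, ← h4, ← h1]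
      exact hk'

theorem scatter_spec {w W S d pW pS pd Z : ℕ} (hW : 0 < W) (hp : pW = 2 ^ W) (l : IL) (hl : l.Ok w S) :
    ∀ (am : ℕ) (t : T) (κ : T → Bool), (∀ i ∈ l.idx, remd w i ((Z >>> (S * i)) % pS) < 2 ^ W) →
    scatter W d pW pS pd Z l am t κ = true →
    ∃ (t' : T), T.mc W t' = ((l.idx.map (fun i => remd w i ((Z >>> (S * i)) % pS)) : List ℕ) : Multiset ℕ) + T.mc W t ∧
      κ t' = true := by
  induction l with
  | nil =>
    intro am t κ _ h
    exact ⟨t, by simp [IL.idx], h⟩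
  | cons i wi wj pi si r ih =>
    intro am t κ hlt h
    obtain ⟨⟨h1, h2, h3, h4⟩, h5⟩ := hl
    have e : Nat.lor (Nat.mod (Nat.mod (Nat.shiftRight Z si) pS) pi)
        (Nat.shiftLeft (Nat.shiftRight (Nat.mod (Nat.shiftRight Z si) pS) wj) wi) =
        remd w i ((Z >>> (S * i)) % pS) := by
      rw [h3, h1, h2, h4]; rfl
    have h' : T.put W pW t (Nat.mod am pd) (Nat.lor (Nat.mod (Nat.mod (Nat.shiftRight Z si) pS) pi)
        (Nat.shiftLeft (Nat.shiftRight (Nat.mod (Nat.shiftRight Z si) pS) wj) wi))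
        (fun t' => scatter W d pW pS pd Z r (Nat.shiftRight am d) t' κ) = true := h
    rw [e] at h'
    obtain ⟨t1, hmc, hk⟩ := T.put_spec hW hp t _ _ _ (hlt i (by simp [IL.idx])) h'
    obtain ⟨t', hmc', hk'⟩ := ih h5 _ _ _ (fun j hj => hlt j (by simp [IL.idx, hj])) hk
    refine ⟨t', ?_, hk'⟩
    rw [hmc', hmc]
    show _ = (((i :: r.idx).map _ : List ℕ) : Multiset ℕ) + _
    rw [List.map_cons, ← Multiset.cons_coe, Multiset.cons_add, Multiset.add_cons]

/-! ### one step -/

/-- the name pattern of new faces -/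
def pat (n i j : ℕ) : ℕ := (n + 3) * min i j + max i j

/-- the parameters of the checker are correct -/
structure Valid (n w W S o pW pS cC cS cF cE cO cP cb cL : ℕ) (tab : IL) : Prop where
  hw : 0 < w
  hW : W = w * (n + 1)
  hS : S = w * (n + 3)
  ho : o = 2 ^ w - 1
  hpW : pW = 2 ^ W
  hpS : pS = 2 ^ S
  hcC : cC = orf (n + 2) (fun j => 1 <<< (w * (n + 2) * j))
  hcS : cS = orf (n + 2) (fun j => (2 ^ w - 1) <<< (w * (n + 3) * j))
  hcF : cF = 2 ^ (w * (n + 3)) - 1
  hcE : cE = orf (n + 2) (fun j => 1 <<< (w * (n + 3) * j))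
  hcO : cO = orf ((n + 3) * (n + 2)) (fun p => 1 <<< (w * p))
  hcP : cP = orf ((n + 3) * (n + 2)) (fun p => pat n (p / (n + 3)) (p % (n + 3)) <<< (w * p))
  hcb : cb = (n + 3) * (n + 3)
  hcL : cL = 2 ^ w
  htab : tab.Ok w S
  hidx : tab.idx = List.range (n + 2)

section digits

variable {n w : ℕ}

/-- positions of matrix entries are unique -/
lemma pos_aux {D j k i l : ℕ} (hk : k < D) (hl : l < D) (h : D * j + k = D * i + l) : j = i ∧ k = l := by
  have h1 : (D * j + k) / D = j := by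
    rw [Nat.mul_add_div (by omega), Nat.div_eq_of_lt hk, Nat.add_zero]
  have h2 : (D * i + l) / D = i := by
    rw [Nat.mul_add_div (by omega), Nat.div_eq_of_lt hl, Nat.add_zero]
  have h3 : j = i := by rw [← h1, ← h2, h]
  subst h3
  exact ⟨rfl, by omega⟩

/-- digits of `x <<< (w * D * i)` at the position `D * j + k` for a number with at most `D` digits -/
lemma dg_shl_block {D x i j k : ℕ} (hx : ∀ q, D ≤ q → dg w x q = 0) (hk : k < D) :
    dg w (x <<< (w * D * i)) (D * j + k) = if i = j then dg w x k else 0 := by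
  rw [mul_assoc, dg_shl]
  rcases lt_trichotomy i j with h | h | h
  · have h1 : D * i + D ≤ D * j := by
      calc D * i + D = D * (i + 1) := by ring
        _ ≤ D * j := Nat.mul_le_mul_left _ h
    rw [if_pos (by omega), if_neg (by omega)]
    exact hx _ (by omega)
  · subst h
    rw [if_pos (by omega), if_pos rfl]
    congr 1; omega
  · have h1 : D * j + D ≤ D * i := by
      calc D * j + D = D * (j + 1) := by ring
        _ ≤ D * i := Nat.mul_le_mul_left _ h
    rw [if_neg (by omega), if_neg (by omega)]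

lemma dg_insd_big {i v k : ℕ} (hi : i < n + 2) (hv : v < 2 ^ (w * (n + 1))) (hk : n + 2 ≤ k) :
    dg w (insd w i v) k = 0 := by
  rw [dg_insd, if_neg (by omega), if_neg (by omega)]
  exact dg_of_lt w v (n + 1) _ hv (by omega)

lemma dg_P {Bs : List ℕ} {V : ℕ → ℕ} (hB : ∀ i ∈ Bs, i < n + 2) (hV : ∀ i ∈ Bs, V i < 2 ^ (w * (n + 1)))
    {j k : ℕ} (hk : k < n + 3) :
    dg w (orl Bs (fun i => insd w i (V i) <<< (w * (n + 3) * i))) ((n + 3) * j + k) =
      if j ∈ Bs then dg w (insd w j (V j)) k else 0 := by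
  rw [dg_orl, orl_single j]
  · split_ifs with h
    · rw [dg_shl_block _ hk, if_pos rfl]
      intro q hq
      exact dg_insd_big (hB j h) (hV j h) (by omega)
    · rfl
  · intro i hi hij
    rw [dg_shl_block _ hk, if_neg hij]
    intro q hq
    exact dg_insd_big (hB i hi) (hV i hi) (by omega)

lemma dg_rep {x j : ℕ} (hx : ∀ q, n + 2 ≤ q → dg w x q = 0) (hw : 0 < w) (hj : j < n + 2) :
    dg w (x * orf (n + 2) (fun j => 1 <<< (w * (n + 2) * j))) ((n + 3) * j) = dg w x j := by
  rw [mul_orf _ _ _ (lt_of_dg w hw x (n + 2) hx), dg_orf]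
  have e : (n + 3) * j = (n + 2) * j + j := by ring
  rw [e]
  have h1 : orf (n + 2) (fun q => dg w (x <<< (w * (n + 2) * q)) ((n + 2) * j + j)) =
      orf (n + 2) (fun q => if q = j then dg w x j else 0) :=
    orf_congr _ _ _ (fun q _ => dg_shl_block hx hj)
  rw [h1, orf_single _ _ j hj (fun q _ hq => if_neg hq), if_pos rfl]

lemma dg_mask {p : ℕ} : dg w (orf (n + 2) (fun j => (2 ^ w - 1) <<< (w * (n + 3) * j))) p =
    orf (n + 2) (fun j => if p = (n + 3) * j then 2 ^ w - 1 else 0) := by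
  rw [dg_orf]
  refine orf_congr _ _ _ (fun j _ => ?_)
  have ho : (2 ^ w - 1 : ℕ) < 2 ^ w := Nat.sub_lt (by positivity) Nat.one_pos
  rw [mul_assoc, dg_shl]
  split_ifs with h1 h2 h2
  · rw [h2, Nat.sub_self, dg_small w _ ho, if_pos rfl]
  · rw [dg_small w _ ho, if_neg (by omega)]
  · omega
  · rfl

lemma dg_Q {Bs : List ℕ} {V : ℕ → ℕ} (hw : 0 < w) (hB : ∀ i ∈ Bs, i < n + 2)
    (hV : ∀ i ∈ Bs, V i < 2 ^ (w * (n + 1))) {j k : ℕ} (hj : j < n + 2) (hk : k < n + 3) :
    dg w (orl Bs (fun i => ((insd w i (V i) * orf (n + 2) (fun j => 1 <<< (w * (n + 2) * j))) &&&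
      orf (n + 2) (fun j => (2 ^ w - 1) <<< (w * (n + 3) * j))) <<< (w * i))) ((n + 3) * j + k) =
      if k ∈ Bs then dg w (insd w k (V k)) j else 0 := by
  rw [dg_orl, orl_single k]
  · split_ifs with h
    · rw [dg_shl, if_pos (by omega), dg_and]
      have e : (n + 3) * j + k - k = (n + 3) * j := by omega
      rw [e, dg_rep (fun q hq => dg_insd_big (hB k h) (hV k h) hq) hw hj, dg_mask,
        orf_single _ _ j hj, if_pos rfl, and_ones (dg_lt _ _ _)]
      intro q _ hq
      rw [if_neg]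
      intro h'
      exact hq (Nat.eq_of_mul_eq_mul_left (by omega) h'.symm)
    · rfl
  · intro i hi hik
    rw [dg_shl]
    split_ifs with h
    · have hz : orf (n + 2) (fun q => if (n + 3) * j + k - i = (n + 3) * q then 2 ^ w - 1 else 0) = 0 := by
        refine orf_zero_fun _ _ (fun q _ => ?_)
        rw [if_neg]
        intro h'
        have hi' := hB i hi
        have h2 : (n + 3) * j + k = (n + 3) * q + i := by omega
        exact hik (pos_aux hk (by omega) h2).2.symm
      rw [dg_and, dg_mask, hz, Nat.and_zero]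
    · rfl

lemma dg_rowmask {Bs : List ℕ} (k : ℕ) :
    dg w (orl Bs (fun i => (2 ^ w - 1) <<< (w * i))) k = if k ∈ Bs then 2 ^ w - 1 else 0 := by
  have ho : (2 ^ w - 1 : ℕ) < 2 ^ w := Nat.sub_lt (by positivity) Nat.one_pos
  rw [dg_orl, orl_single k]
  · split_ifs with h
    · rw [dg_shl, if_pos le_rfl, Nat.sub_self, dg_small w _ ho, if_pos rfl]
    · rfl
  · intro i _ hik
    rw [dg_shl]
    split_ifs with h
    · rw [dg_small w _ ho, if_neg (by omega)]
    · rfl

lemma dg_mB {Bs : List ℕ} (hw : 0 < w) (hB : ∀ i ∈ Bs, i < n + 2) {j k : ℕ} (hj : j < n + 2) (hk : k < n + 3) :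
    dg w (orl Bs (fun i => (2 ^ w - 1) <<< (w * i)) * orf (n + 2) (fun j => 1 <<< (w * (n + 3) * j)))
      ((n + 3) * j + k) = if k ∈ Bs then 2 ^ w - 1 else 0 := by
  have hx : ∀ q, n + 3 ≤ q → dg w (orl Bs (fun i => (2 ^ w - 1) <<< (w * i))) q = 0 := by
    intro q hq
    rw [dg_rowmask, if_neg]
    intro h
    have := hB q h
    omega
  rw [mul_orf _ _ _ (lt_of_dg w hw _ (n + 3) hx), dg_orf]
  have h1 : orf (n + 2) (fun q => dg w (orl Bs (fun i => (2 ^ w - 1) <<< (w * i)) <<< (w * (n + 3) * q)) ((n + 3) * j + k)) =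
      orf (n + 2) (fun q => if q = j then dg w (orl Bs (fun i => (2 ^ w - 1) <<< (w * i))) k else 0) :=
    orf_congr _ _ _ (fun q _ => dg_shl_block hx hk)
  rw [h1, orf_single _ _ j hj (fun q _ hq => if_neg hq), if_pos rfl, dg_rowmask]

lemma dg_rB {Bs : List ℕ} {j k : ℕ} (hk : k < n + 3) :
    dg w (orl Bs (fun i => (2 ^ (w * (n + 3)) - 1) <<< (w * (n + 3) * i))) ((n + 3) * j + k) =
      if j ∈ Bs then 2 ^ w - 1 else 0 := by
  have hx : ∀ q, n + 3 ≤ q → dg w (2 ^ (w * (n + 3)) - 1) q = 0 := by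
    intro q hq
    rw [dg_ones, if_neg (by omega)]
  rw [dg_orl, orl_single j]
  · split_ifs with h
    · rw [dg_shl_block hx hk, if_pos rfl, dg_ones, if_pos hk]
    · rfl
  · intro i _ hij
    rw [dg_shl_block hx hk, if_neg hij]

lemma dg_fresh {c : ℕ} (hw : 0 < w) (hc : c + (n + 3) * (n + 3) ≤ 2 ^ w) {j k : ℕ} (hj : j < n + 2) (hk : k < n + 3) :
    dg w (c * orf ((n + 3) * (n + 2)) (fun p => 1 <<< (w * p)) +
      orf ((n + 3) * (n + 2)) (fun p => pat n (p / (n + 3)) (p % (n + 3)) <<< (w * p))) ((n + 3) * j + k) =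
      c + pat n j k := by
  have hb : ∀ p < (n + 3) * (n + 2), c + pat n (p / (n + 3)) (p % (n + 3)) < 2 ^ w := by
    intro p hp
    have h1 : p / (n + 3) < n + 2 := Nat.div_lt_of_lt_mul hp
    have h2 : p % (n + 3) < n + 3 := Nat.mod_lt _ (by omega)
    have h3 : min (p / (n + 3)) (p % (n + 3)) ≤ n + 1 := by omega
    have h4 : max (p / (n + 3)) (p % (n + 3)) ≤ n + 2 := by omega
    have h5 : (n + 3) * min (p / (n + 3)) (p % (n + 3)) ≤ (n + 3) * (n + 1) := Nat.mul_le_mul_left _ h3
    have h6 : (n + 3) * (n + 3) = (n + 3) * (n + 1) + 2 * (n + 3) := by ring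
    unfold pat
    omega
  rw [affine_orf w _ c hw _ hb, dg_orf]
  have hp : (n + 3) * j + k < (n + 3) * (n + 2) := by
    calc (n + 3) * j + k < (n + 3) * j + (n + 3) := by omega
      _ = (n + 3) * (j + 1) := by ring
      _ ≤ (n + 3) * (n + 2) := Nat.mul_le_mul_left _ (by omega)
  rw [orf_single _ _ ((n + 3) * j + k) hp]
  · rw [dg_shl, if_pos le_rfl, Nat.sub_self, dg_small w _ (hb _ hp), if_pos rfl]
    have e1 : ((n + 3) * j + k) / (n + 3) = j := by
      rw [Nat.mul_add_div (by omega), Nat.div_eq_of_lt hk, Nat.add_zero]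
    have e2 : ((n + 3) * j + k) % (n + 3) = k := by
      rw [Nat.mul_add_mod, Nat.mod_eq_of_lt hk]
    rw [e1, e2]
  · intro q hq hne
    rw [dg_shl]
    split_ifs with h
    · rw [dg_small w _ (hb _ hq), if_neg (by omega)]
    · rfl

end digits

/-- the row of a code -/
def row (n w v : ℕ) : Fin (n + 1) → ℕ := fun a => dg w v a

/-- the rows of a trie -/
def T.rows (n w : ℕ) (t : T) : Multiset (Fin (n + 1) → ℕ) := (t.mc (w * (n + 1))).map (row n w)

lemma pat_comm (n i j : ℕ) : pat n i j = pat n j i := by unfold pat; rw [min_comm, max_comm]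

lemma pat_lt {n i j : ℕ} (hi : i < n + 2) (hj : j < n + 2) : pat n i j < (n + 3) * (n + 3) := by
  have h3 : min i j ≤ n + 1 := by omega
  have h4 : max i j ≤ n + 1 := by omega
  have h5 : (n + 3) * min i j ≤ (n + 3) * (n + 1) := Nat.mul_le_mul_left _ h3
  have h6 : (n + 3) * (n + 3) = (n + 3) * (n + 1) + 2 * (n + 3) := by ring
  unfold pat
  omega

lemma pat_inj {n i j k l : ℕ} (hi : i < n + 2) (hj : j < n + 2) (hk : k < n + 2) (hl : l < n + 2)
    (h : pat n i j = pat n k l) : (i = k ∧ j = l) ∨ (i = l ∧ j = k) := by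
  unfold pat at h
  obtain ⟨h1, h2⟩ := pos_aux (D := n + 3) (by omega : max i j < n + 3) (by omega : max k l < n + 3) h
  omega

theorem step_spec {n w W S d o pW pS pd cC cS cF cE cO cP cb cL : ℕ} {tab : IL}
    (hv : Valid n w W S o pW pS cC cS cF cE cO cP cb cL tab) {m am c : ℕ} {t : T} {κ : T → ℕ → Bool}
    (h : step W d o pW pS pd cC cS cF cE cO cP cb cL tab m am t c κ = true) :
    ∃ (t' : T) (c' : ℕ), MoveRel (t.rows n w) (t'.rows n w) c c' ∧ κ t' c' = true := by
  classical
  obtain ⟨hw, rfl, rfl, rfl, rfl, rfl, rfl, rfl, rfl, rfl, rfl, rfl, rfl, rfl, htab, hidx⟩ := hv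
  obtain ⟨h0, hlim⟩ := brec_and h
  obtain ⟨h, hmok⟩ := brec_and h0
  clear h0
  have hlim' : c + (n + 3) * (n + 3) ≤ 2 ^ w := ble_true hlim
  obtain ⟨hok1, hok2⟩ := brec_and hmok
  have hperm := tab.sel_perm m
  have hokB := tab.selB_ok m htab
  have hokA := tab.selA_ok m htab
  generalize hLB : tab.selB m = LB at *
  generalize hLA : tab.selA m = LA at *
  rw [hidx] at hperm
  have hnd : (LB.idx ++ LA.idx).Nodup := hperm.nodup_iff.mpr List.nodup_range
  obtain ⟨hndB, hndA, hdisj⟩ := List.nodup_append.mp hnd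
  have hmem : ∀ i, i < n + 2 ↔ i ∈ LB.idx ∨ i ∈ LA.idx := by
    intro i
    rw [← List.mem_range, ← hperm.mem_iff, List.mem_append]
  have hBlt : ∀ i ∈ LB.idx, i < n + 2 := fun i hi => (hmem i).mpr (Or.inl hi)
  have hAlt : ∀ i ∈ LA.idx, i < n + 2 := fun i hi => (hmem i).mpr (Or.inr hi)
  have hAB : ∀ i ∈ LA.idx, i ∉ LB.idx := fun i hi h' => hdisj _ h' _ hi rfl
  have hBne : ∃ i, i ∈ LB.idx := by
    by_contra hne
    push Not at hne
    have h0 : LB.idx = [] := List.eq_nil_iff_forall_not_mem.mpr hne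
    have := ble_true hok2
    rw [LB.orw_spec hokB, h0, orl_nil] at this
    omega
  have hAne : ∃ i, i ∈ LA.idx := by
    by_contra hne
    push Not at hne
    have h0 : LA.idx = [] := List.eq_nil_iff_forall_not_mem.mpr hne
    have := ble_true hok1
    rw [LA.orw_spec hokA, h0, orl_nil] at this
    omega
  have hWpos : 0 < w * (n + 1) := by positivity
  obtain ⟨V, am', t1, hV, hmc, hg⟩ := gather_spec hWpos rfl LB hokB hndB _ _ _ _ _ h
  obtain ⟨hs, hchk0⟩ := brec_and hg
  have hchk := beq_true hchk0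
  clear hg hchk0 h
  have hmBe : mB (2 ^ w - 1) (orf (n + 2) (fun j => 1 <<< (w * (n + 3) * j))) tab m =
      orl LB.idx (fun i => (2 ^ w - 1) <<< (w * i)) * orf (n + 2) (fun j => 1 <<< (w * (n + 3) * j)) := by
    unfold mB
    rw [hLB, LB.orw_spec hokB]
    rfl
  have hmAe : mA (2 ^ w - 1) (orf (n + 2) (fun j => 1 <<< (w * (n + 3) * j))) tab m =
      orl LA.idx (fun i => (2 ^ w - 1) <<< (w * i)) * orf (n + 2) (fun j => 1 <<< (w * (n + 3) * j)) := by
    unfold mA
    rw [hLA, LA.orw_spec hokA]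
    rfl
  have hrBe : rB (2 ^ (w * (n + 3)) - 1) tab m =
      orl LB.idx (fun i => (2 ^ (w * (n + 3)) - 1) <<< (w * (n + 3) * i)) := by
    unfold rB
    rw [hLB, LB.ors_spec hokB]
  simp only [Nat.zero_or] at hchk hs
  have hVlt : ∀ i ∈ LB.idx, V i < 2 ^ (w * (n + 1)) := fun i hi => (hV i hi).2
  -- abbreviations
  set P := orl LB.idx (fun i => insd w i (V i) <<< (w * (n + 3) * i)) with hP
  set Q := orl LB.idx (fun i => ((insd w i (V i) * orf (n + 2) (fun j => 1 <<< (w * (n + 2) * j))) &&&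
      orf (n + 2) (fun j => (2 ^ w - 1) <<< (w * (n + 3) * j))) <<< (w * i)) with hQ
  have hPd : ∀ j k, k < n + 3 → dg w P ((n + 3) * j + k) = if j ∈ LB.idx then dg w (insd w j (V j)) k else 0 :=
    fun j k hk => dg_P hBlt hVlt hk
  have hQd : ∀ j k, j < n + 2 → k < n + 3 →
      dg w Q ((n + 3) * j + k) = if k ∈ LB.idx then dg w (insd w k (V k)) j else 0 :=
    fun j k hj hk => dg_Q hw hBlt hVlt hj hk
  -- symmetry
  have hsymB : ∀ j ∈ LB.idx, ∀ k ∈ LB.idx, dg w (insd w j (V j)) k = dg w (insd w k (V k)) j := by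
    intro j hj k hk
    have hj' := hBlt j hj
    have hk' := hBlt k hk
    have h1 : dg w (P &&& mB (2 ^ w - 1) (orf (n + 2) (fun j => 1 <<< (w * (n + 3) * j))) tab m) ((n + 3) * j + k) =
        dg w (Q &&& rB (2 ^ (w * (n + 3)) - 1) tab m) ((n + 3) * j + k) := congrArg (fun x => dg w x _) hchk
    rw [dg_and, dg_and, hPd j k (by omega), hQd j k hj' (by omega), hmBe, hrBe, dg_mB hw hBlt hj' (by omega),
      dg_rB (by omega), if_pos hj, if_pos hk, if_pos hk, if_pos hj, and_ones (dg_lt _ _ _), and_ones (dg_lt _ _ _)] at h1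
    exact h1
  -- the new matrix
  obtain ⟨Z, hZ⟩ : ∃ Z, Z = Nat.lor Q (Nat.land (Nat.add (Nat.mul c (orf ((n + 3) * (n + 2)) (fun p => 1 <<< (w * p))))
      (orf ((n + 3) * (n + 2)) (fun p => pat n (p / (n + 3)) (p % (n + 3)) <<< (w * p))))
      (mA (2 ^ w - 1) (orf (n + 2) (fun j => 1 <<< (w * (n + 3) * j))) tab m)) := ⟨_, rfl⟩
  rw [← hZ] at hs
  have hZd : ∀ j k, j < n + 2 → k < n + 3 → dg w Z ((n + 3) * j + k) =
      if k ∈ LB.idx then dg w (insd w k (V k)) j else if k ∈ LA.idx then c + pat n j k else 0 := by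
    intro j k hj hk
    have e : dg w Z ((n + 3) * j + k) = dg w Q ((n + 3) * j + k) |||
        (dg w (c * orf ((n + 3) * (n + 2)) (fun p => 1 <<< (w * p)) +
          orf ((n + 3) * (n + 2)) (fun p => pat n (p / (n + 3)) (p % (n + 3)) <<< (w * p))) ((n + 3) * j + k) &&&
         dg w (orl LA.idx (fun i => (2 ^ w - 1) <<< (w * i)) * orf (n + 2) (fun j => 1 <<< (w * (n + 3) * j)))
          ((n + 3) * j + k)) := by
      rw [hZ, hmAe, ← dg_and, ← dg_or]
      rfl
    rw [e, hQd j k hj hk, dg_mB hw hAlt hj hk]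
    by_cases hkB : k ∈ LB.idx
    · rw [if_pos hkB, if_pos hkB, if_neg (fun h' => hAB k h' hkB), Nat.and_zero, Nat.or_zero]
    · rw [if_neg hkB, if_neg hkB, Nat.zero_or]
      by_cases hkA : k ∈ LA.idx
      · rw [if_pos hkA, if_pos hkA, and_ones (dg_lt _ _ _), dg_fresh hw hlim' hj hk]
      · rw [if_neg hkA, if_neg hkA, Nat.and_zero]
  -- the new codes
  have hX : ∀ a s, s < n + 3 → dg w ((Z >>> (w * (n + 3) * a)) % 2 ^ (w * (n + 3))) s = dg w Z ((n + 3) * a + s) := by
    intro a s hs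
    rw [dg_mod, if_pos hs, mul_assoc, dg_shr, add_comm]
  have hnew : ∀ a ∈ LA.idx, ∀ s, s < n + 2 →
      dg w (remd w a ((Z >>> (w * (n + 3) * a)) % 2 ^ (w * (n + 3)))) s =
        if s < a then dg w Z ((n + 3) * a + s) else dg w Z ((n + 3) * a + (s + 1)) := by
    intro a _ s hs
    rw [dg_remd]
    split_ifs with h1
    · exact hX a s (by omega)
    · exact hX a (s + 1) (by omega)
  have hnewlt : ∀ a ∈ LA.idx, remd w a ((Z >>> (w * (n + 3) * a)) % 2 ^ (w * (n + 3))) < 2 ^ (w * (n + 1)) := by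
    intro a ha
    apply lt_of_dg w hw
    intro s hs
    have ha' := hAlt a ha
    rw [dg_remd, if_neg (by omega)]
    by_cases hs' : s + 1 < n + 3
    · rw [hX a (s + 1) hs', hZd a (s + 1) ha' hs', if_neg, if_neg]
      · intro h'; have := hAlt _ h'; omega
      · intro h'; have := hBlt _ h'; omega
    · rw [dg_mod, if_neg hs']
  obtain ⟨t', hmc', hk⟩ := scatter_spec hWpos rfl LA hokA _ _ _ hnewlt hs
  refine ⟨t', _, ?_, hk⟩
  -- the move relation
  let B : Finset (Fin (n + 2)) := Finset.univ.filter (fun i => i.val ∈ LB.idx)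
  let M : Fin (n + 2) → Fin (n + 2) → ℕ := fun i j =>
    if i.val ∈ LB.idx then dg w (insd w i (V i)) j else if j.val ∈ LB.idx then dg w (insd w j (V j)) i
    else c + pat n i j
  have hBm : ∀ i : Fin (n + 2), i ∈ B ↔ i.val ∈ LB.idx := fun i => by simp [B]
  have hAm : ∀ i : Fin (n + 2), i ∉ B ↔ i.val ∈ LA.idx := fun i => by
    rw [hBm]
    constructor
    · intro h'
      rcases (hmem i).mp i.2 with h'' | h''
      · exact absurd h'' h'
      · exact h''
    · exact hAB _
  have hMnew : ∀ a ∉ B, ∀ a' ∉ B, M a a' = c + pat n a a' := by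
    intro a ha a' ha'
    show (if _ then _ else if _ then _ else _) = _
    rw [if_neg (by rwa [hBm] at ha), if_neg (by rwa [hBm] at ha')]
  have hsuccv : ∀ (b : Fin (n + 2)) (a : Fin (n + 1)), (b.succAbove a).val = if a.val < b.val then a.val else a.val + 1 := by
    intro b a
    unfold Fin.succAbove
    split_ifs with h1 h2 h2
    · rfl
    · exact absurd h1 h2
    · exact absurd h2 h1
    · rfl
  have hrowsB : rowsM M B = ((LB.idx.map V : List ℕ) : Multiset ℕ).map (row n w) := by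
    have h1 : B.val.map (fun i : Fin (n + 2) => i.val) = ((LB.idx : List ℕ) : Multiset ℕ) := by
      apply (Multiset.Nodup.ext (Multiset.Nodup.map Fin.val_injective B.nodup) (Multiset.coe_nodup.mpr hndB)).mpr
      intro i
      simp only [Multiset.mem_map, Finset.mem_val, hBm, Multiset.mem_coe]
      constructor
      · rintro ⟨j, hj, rfl⟩; exact hj
      · intro hi; exact ⟨⟨i, hBlt i hi⟩, hi, rfl⟩
    rw [← Multiset.map_coe, ← h1, Multiset.map_map, Multiset.map_map]
    unfold rowsM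
    refine Multiset.map_congr rfl (fun b hb => ?_)
    have hb' : b.val ∈ LB.idx := (hBm b).mp hb
    funext a
    show (if b.val ∈ LB.idx then dg w (insd w b (V b)) (b.succAbove a) else _) = dg w (V b) a
    rw [if_pos hb', dg_insd, hsuccv]
    by_cases hab : a.val < b.val
    · rw [if_pos hab, if_pos hab]
    · rw [if_neg hab, if_neg (by omega), if_neg (by omega)]
      congr 1
  have hrowsA : rowsM M Bᶜ = ((LA.idx.map (fun a => remd w a ((Z >>> (w * (n + 3) * a)) % 2 ^ (w * (n + 3)))) : List ℕ) :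
      Multiset ℕ).map (row n w) := by
    have h1 : Bᶜ.val.map (fun i : Fin (n + 2) => i.val) = ((LA.idx : List ℕ) : Multiset ℕ) := by
      apply (Multiset.Nodup.ext (Multiset.Nodup.map Fin.val_injective Bᶜ.nodup) (Multiset.coe_nodup.mpr hndA)).mpr
      intro i
      simp only [Multiset.mem_map, Finset.mem_val, Finset.mem_compl, hAm, Multiset.mem_coe]
      constructor
      · rintro ⟨j, hj, rfl⟩; exact hj
      · intro hi; exact ⟨⟨i, hAlt i hi⟩, hi, rfl⟩
    rw [← Multiset.map_coe, ← h1, Multiset.map_map, Multiset.map_map]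
    unfold rowsM
    refine Multiset.map_congr rfl (fun b hb => ?_)
    have hbA : b ∉ B := Finset.mem_compl.mp hb
    have hb' : b.val ∈ LA.idx := (hAm b).mp hbA
    have hbB : b.val ∉ LB.idx := hAB _ hb'
    funext a
    show (if b.val ∈ LB.idx then _ else if (b.succAbove a).val ∈ LB.idx then
      dg w (insd w (b.succAbove a) (V (b.succAbove a))) b else c + pat n b (b.succAbove a)) =
      dg w (remd w b ((Z >>> (w * (n + 3) * b)) % 2 ^ (w * (n + 3)))) a
    rw [if_neg hbB, hnew b hb' a (by omega)]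
    have e : (if a.val < b.val then dg w Z ((n + 3) * b + a) else dg w Z ((n + 3) * b + (a + 1))) =
        dg w Z ((n + 3) * b + (b.succAbove a).val) := by
      rw [hsuccv]; split_ifs <;> rfl
    rw [e, hZd b (b.succAbove a) b.2 (by omega)]
    by_cases hs : (b.succAbove a).val ∈ LB.idx
    · rw [if_pos hs, if_pos hs]
    · rw [if_neg hs, if_neg hs, if_pos]
      rcases (hmem _).mp (b.succAbove a).2 with h'' | h''
      · exact absurd h'' hs
      · exact h''
  refine ⟨B, M, t1.rows n w, ?_, ?_, ?_, ?_, ?_, Nat.le_add_right _ _, ?_, ?_⟩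
  · obtain ⟨i, hi⟩ := hBne
    exact ⟨⟨i, hBlt i hi⟩, (hBm _).mpr hi⟩
  · obtain ⟨i, hi⟩ := hAne
    exact ⟨⟨i, hAlt i hi⟩, Finset.mem_compl.mpr ((hAm _).mpr hi)⟩
  · intro i j
    show (if _ then _ else if _ then _ else _) = (if _ then _ else if _ then _ else _)
    by_cases hi : i.val ∈ LB.idx <;> by_cases hj : j.val ∈ LB.idx
    · rw [if_pos hi, if_pos hj]; exact hsymB i hi j hj
    · rw [if_pos hi, if_neg hj, if_pos hi]
    · rw [if_neg hi, if_pos hj, if_pos hj]
    · rw [if_neg hi, if_neg hj, if_neg hj, if_neg hi, pat_comm]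
  · show (t.mc (w * (n + 1))).map (row n w) = (t1.mc (w * (n + 1))).map (row n w) + rowsM M B
    rw [hrowsB, hmc, Multiset.map_add]
    exact add_comm _ _
  · show (t'.mc (w * (n + 1))).map (row n w) = (t1.mc (w * (n + 1))).map (row n w) + rowsM M Bᶜ
    rw [hrowsA, hmc', Multiset.map_add]
    exact add_comm _ _
  · intro a ha a' ha' haa
    rw [hMnew a ha a' ha']
    have := pat_lt a.2 a'.2
    show c ≤ c + pat n a a' ∧ c + pat n a a' < c + (n + 3) * (n + 3)
    omega
  · intro a ha a' ha' haa d hd d' hd' hdd hM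
    rw [hMnew a ha a' ha', hMnew d hd d' hd'] at hM
    rcases pat_inj a.2 a'.2 d.2 d'.2 (Nat.add_left_cancel hM) with ⟨h1, h2⟩ | ⟨h1, h2⟩
    · exact Or.inl ⟨Fin.ext h1, Fin.ext h2⟩
    · exact Or.inr ⟨Fin.ext h1, Fin.ext h2⟩

/-- a complex with given rows -/
noncomputable def glueOf {n : ℕ} (s : Multiset (Fin (n + 1) → ℕ)) : Glue n :=
  ⟨Fin s.toList.length, fun i => s.toList.get i⟩

noncomputable instance {n : ℕ} (s : Multiset (Fin (n + 1) → ℕ)) : Fintype (glueOf s).ι :=
  inferInstanceAs (Fintype (Fin s.toList.length))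

lemma rows_glueOf {n : ℕ} (s : Multiset (Fin (n + 1) → ℕ)) : (glueOf s).rows = s := by
  show (Finset.univ : Finset (Fin s.toList.length)).val.map (fun i => s.toList.get i) = s
  rw [Fin.univ_val_map, List.ofFn_get, Multiset.coe_toList]

/-- The states `(t, c)` and `(t', c')` are linked: if the first is good then so is the second and the complexes are
piecewise linearly homeomorphic. -/
def Link (n w : ℕ) (t : T) (c : ℕ) (t' : T) (c' : ℕ) : Prop :=
  Good (t.rows n w) c → PLHomeo (glueOf (t.rows n w)) (glueOf (t'.rows n w)) ∧ Good (t'.rows n w) c'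

lemma Link.refl (n w : ℕ) (t : T) (c : ℕ) : Link n w t c t c := fun h => ⟨PLHomeo.refl _, h⟩

lemma Link.trans {n w : ℕ} {t t' t'' : T} {c c' c'' : ℕ} (h : Link n w t c t' c') (h' : Link n w t' c' t'' c'') :
    Link n w t c t'' c'' := by
  intro hg
  obtain ⟨h1, h2⟩ := h hg
  obtain ⟨h3, h4⟩ := h' h2
  exact ⟨h1.trans h3, h4⟩

theorem run_spec {n w W S d o pW pS pd cC cS cF cE cO cP cb cL : ℕ} {tab : IL}
    (hv : Valid n w W S o pW pS cC cS cF cE cO cP cb cL tab) {pM M2 L pL : ℕ} (fuel : ℕ) :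
    ∀ (cert : ℕ) (t : T) (c : ℕ) (κ : T → ℕ → Bool),
    run W d o pW pS pd cC cS cF cE cO cP cb cL tab pM M2 L pL fuel cert t c κ = true →
    ∃ (t' : T) (c' : ℕ), Link n w t c t' c' ∧ κ t' c' = true := by
  induction fuel with
  | zero => intro cert t c κ h; exact ⟨t, c, Link.refl _ _ _ _, h⟩
  | succ k ih =>
    intro cert t c κ h
    have h' : Nat.rec (motive := fun _ => Bool) false
        (fun m _ => step W d o pW pS pd cC cS cF cE cO cP cb cL tab m (Nat.shiftRight (Nat.mod cert pL) M2) t c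
          (fun t' c' => run W d o pW pS pd cC cS cF cE cO cP cb cL tab pM M2 L pL k (Nat.shiftRight cert L) t' c' κ))
        (Nat.add (Nat.mod cert pM) 1) = true := h
    have h'' : step W d o pW pS pd cC cS cF cE cO cP cb cL tab (Nat.mod cert pM) (Nat.shiftRight (Nat.mod cert pL) M2) t c
          (fun t' c' => run W d o pW pS pd cC cS cF cE cO cP cb cL tab pM M2 L pL k (Nat.shiftRight cert L) t' c' κ) =
          true := h'
    obtain ⟨t1, c1, hmove, hk⟩ := step_spec hv h''
    obtain ⟨t', c', hlink, hk'⟩ := ih _ _ _ _ hk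
    refine ⟨t', c', Link.trans ?_ hlink, hk'⟩
    intro hg
    have := MoveRel.plHomeo (K := glueOf (t.rows n w)) (K' := glueOf (t1.rows n w)) (c := c) (c' := c1)
      (by rw [rows_glueOf]; exact hg) (by rw [rows_glueOf, rows_glueOf]; exact hmove)
    rw [rows_glueOf] at this
    exact this

/-- **Soundness of the checker.** -/
theorem link_of_run {n w W S d o pW pS pd cC cS cF cE cO cP cb cL : ℕ} {tab : IL}
    (hv : Valid n w W S o pW pS cC cS cF cE cO cP cb cL tab) {pM M2 L pL fuel cert : ℕ} {t t' : T} {c c' : ℕ}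
    (h : run W d o pW pS pd cC cS cF cE cO cP cb cL tab pM M2 L pL fuel cert t c
      (fun s e => Bool.rec (motive := fun _ => Bool) false (T.beq s t') (Nat.beq e c')) = true) :
    Link n w t c t' c' := by
  obtain ⟨s, e, hl, hk⟩ := run_spec hv fuel cert t c _ h
  obtain ⟨h1, h2⟩ := brec_and hk
  have h3 := T.eq_of_beq _ _ h1
  have h4 := beq_true h2
  subst h3 h4
  exact hl

/-- Run a list of certificates; an entry is `number of moves + 256 * certificate`. -/
noncomputable def runs (R : ℕ → ℕ → T → ℕ → (T → ℕ → Bool) → Bool) (l : List ℕ) : T → ℕ → (T → ℕ → Bool) → Bool :=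
  List.rec (motive := fun _ => T → ℕ → (T → ℕ → Bool) → Bool) (fun t c κ => κ t c)
    (fun x _ ih t c κ => R (Nat.mod x 256) (Nat.shiftRight x 8) t c (fun t' c' => ih t' c' κ)) l

/-- The full check of a chunk: from the state `(t, c)` to the state `(t', c')`. -/
noncomputable def chunk (R : ℕ → ℕ → T → ℕ → (T → ℕ → Bool) → Bool) (l : List ℕ) (t : T) (c : ℕ) (t' : T) (c' : ℕ) :
    Bool :=
  runs R l t c (fun s e => Bool.rec (motive := fun _ => Bool) false (T.beq s t') (Nat.beq e c'))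

theorem link_of_chunk {n w W S d o pW pS pd cC cS cF cE cO cP cb cL : ℕ} {tab : IL}
    (hv : Valid n w W S o pW pS cC cS cF cE cO cP cb cL tab) {pM M2 L pL : ℕ} {l : List ℕ} {t t' : T} {c c' : ℕ}
    (h : chunk (run W d o pW pS pd cC cS cF cE cO cP cb cL tab pM M2 L pL) l t c t' c' = true) :
    Link n w t c t' c' := by
  have key : ∀ (l : List ℕ) (t : T) (c : ℕ) (κ : T → ℕ → Bool),
      runs (run W d o pW pS pd cC cS cF cE cO cP cb cL tab pM M2 L pL) l t c κ = true →
      ∃ (t' : T) (c' : ℕ), Link n w t c t' c' ∧ κ t' c' = true := by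
    intro l
    induction l with
    | nil => intro t c κ h; exact ⟨t, c, Link.refl _ _ _ _, h⟩
    | cons x l ih =>
      intro t c κ h
      obtain ⟨t1, c1, h1, h2⟩ := run_spec hv _ _ _ _ _ h
      obtain ⟨t', c', h3, h4⟩ := ih _ _ _ h2
      exact ⟨t', c', h1.trans h3, h4⟩
  obtain ⟨s, e, hl, hk⟩ := key l t c _ h
  obtain ⟨h1, h2⟩ := brec_and hk
  have h3 := T.eq_of_beq _ _ h1
  have h4 := beq_true h2
  subst h3 h4
  exact hl

end Pool.Agent.H34.PLE
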