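import Pool.Agent.H34.PLE.Sound

/-!
# Tools around the checker

* `glueL n w L`: the complex of a list of codes (the digits in base `2 ^ w` of a code are the names);
* `goodL`: a kernel friendly test for the invariant `Good`;
* `T.toL`: the list of the codes in a trie;
* `PLHomeo.of_lists`: renaming.
-/

namespace Pool.Agent.H34.PLE

/-- The complex of a list of codes. -/
def glueL (n w : ℕ) (L : List ℕ) : Glue n := ⟨Fin L.length, fun i => row n w (L.get i)⟩

instance (n w : ℕ) (L : List ℕ) : Fintype (glueL n w L).ι := inferInstanceAs (Fintype (Fin L.length))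

lemma rows_glueL (n w : ℕ) (L : List ℕ) : (glueL n w L).rows = ((L.map (row n w) : List (Fin (n + 1) → ℕ)) : Multiset (Fin (n + 1) → ℕ)) := by
  show (Finset.univ : Finset (Fin L.length)).val.map (fun i => row n w (L.get i)) = _
  have : (fun i : Fin L.length => row n w (L.get i)) = (row n w) ∘ (fun i => L.get i) := rfl
  rw [this, ← Multiset.map_map, Fin.univ_val_map, List.ofFn_get, Multiset.map_coe]

/-! ### the list of the codes in a trie -/

/-- the nonzero digits among the first `cap` digits -/
noncomputable def leafL (W pW : ℕ) (cap : ℕ) : ℕ → List ℕ :=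
  Nat.rec (motive := fun _ => ℕ → List ℕ) (fun _ => [])
    (fun _ ih x => Nat.rec (motive := fun _ => List ℕ) (ih (Nat.shiftRight x W))
      (fun v _ => (v + 1) :: ih (Nat.shiftRight x W)) (Nat.mod x pW)) cap

lemma leafL_succ (W pW cap x : ℕ) : leafL W pW (cap + 1) x =
    if x % pW = 0 then leafL W pW cap (x >>> W) else (x % pW) :: leafL W pW cap (x >>> W) := by
  show Nat.rec (motive := fun _ => List ℕ) _ _ (x % pW) = _
  rcases h : x % pW with _ | v
  · rfl
  · rfl

lemma sum_leafL {W pW : ℕ} (hp : pW = 2 ^ W) (cap : ℕ) : ∀ x,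
    (∑ j ∈ Finset.range cap, if dg W x j = 0 then 0 else {dg W x j}) = ((leafL W pW cap x : List ℕ) : Multiset ℕ) := by
  induction cap with
  | zero => intro x; rfl
  | succ cap ih =>
    intro x
    rw [Finset.sum_range_succ', leafL_succ, hp]
    have h0 : dg W x 0 = x % 2 ^ W := by rw [dg_def, mul_zero, Nat.shiftRight_zero]
    have h1 : ∀ j, dg W x (j + 1) = dg W (x >>> W) j := by
      intro j
      have := dg_shr W x 1 j
      rw [mul_one] at this
      rw [this]
    simp only [h1, h0]
    rw [ih (x >>> W), hp]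
    split_ifs with h
    · rw [add_zero]
    · rw [add_comm]; rfl

/-- the list of codes in a trie -/
noncomputable def T.toL (W pW cap : ℕ) (t : T) : List ℕ :=
  T.rec (motive := fun _ => List ℕ) (fun x => leafL W pW cap x) (fun _ _ iha ihb => iha ++ ihb) t

/-- all leaves are small -/
noncomputable def T.capB (pC : ℕ) (t : T) : Bool :=
  T.rec (motive := fun _ => Bool) (fun x => Nat.blt x pC)
    (fun _ _ iha ihb => Bool.rec (motive := fun _ => Bool) false ihb iha) t

theorem T.mc_toL {W pW cap pC : ℕ} (hW : 0 < W) (hp : pW = 2 ^ W) (hC : pC = 2 ^ (W * cap)) (t : T)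
    (h : t.capB pC = true) : t.mc W = ((t.toL W pW cap : List ℕ) : Multiset ℕ) := by
  induction t with
  | l x =>
    have hx : x < pC := Nat.le_of_ble_eq_true h
    show lm W x = ((leafL W pW cap x : List ℕ) : Multiset ℕ)
    rw [← sum_leafL hp, lm_eq hW x (max x cap) (le_max_left _ _)]
    symm
    refine Finset.sum_subset (Finset.range_mono (le_max_right _ _)) (fun j _ hj => ?_)
    rw [Finset.mem_range, not_lt] at hj
    rw [dg_of_lt W x cap j (by rwa [← hC]) hj, if_pos rfl]
  | n a b iha ihb =>
    obtain ⟨h1, h2⟩ := brec_and h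
    show a.mc W + b.mc W = ((a.toL W pW cap ++ b.toL W pW cap : List ℕ) : Multiset ℕ)
    rw [iha h2, ihb h1, Multiset.coe_add]

/-! ### the test of the invariant -/

/-- process a list of names; `s1`, `s2`, `s3` are the sets of names occurring at least once, twice, three times -/
noncomputable def cntB (l : List ℕ) : ℕ → ℕ → ℕ → (ℕ → ℕ → ℕ → Bool) → Bool :=
  List.rec (motive := fun _ => ℕ → ℕ → ℕ → (ℕ → ℕ → ℕ → Bool) → Bool) (fun s1 s2 s3 κ => κ s1 s2 s3)
    (fun x _ ih s1 s2 s3 κ => ih (Nat.lor s1 (Nat.shiftLeft 1 x)) (Nat.lor s2 (Nat.land s1 (Nat.shiftLeft 1 x)))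
      (Nat.lor s3 (Nat.land s2 (Nat.shiftLeft 1 x))) κ) l

lemma testBit_one_shl (x i : ℕ) : (1 <<< x).testBit i = decide (x = i) := by
  rw [Nat.one_shiftLeft, Nat.testBit_two_pow]

theorem cntB_spec (l : List ℕ) : ∀ (l0 : List ℕ) (s1 s2 s3 : ℕ) (κ : ℕ → ℕ → ℕ → Bool),
    (∀ x, s1.testBit x = decide (1 ≤ l0.count x)) → (∀ x, s2.testBit x = decide (2 ≤ l0.count x)) →
    (∀ x, s3.testBit x = decide (3 ≤ l0.count x)) → cntB l s1 s2 s3 κ = true →
    ∃ s1' s2' s3', (∀ x, s1'.testBit x = decide (1 ≤ (l0 ++ l).count x)) ∧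
      (∀ x, s2'.testBit x = decide (2 ≤ (l0 ++ l).count x)) ∧
      (∀ x, s3'.testBit x = decide (3 ≤ (l0 ++ l).count x)) ∧ κ s1' s2' s3' = true := by
  have hc : ∀ x y : ℕ, List.count x [y] = if y = x then 1 else 0 := by
    intro x y
    rw [List.count_singleton]
    by_cases h : y = x <;> simp [h]
  induction l with
  | nil =>
    intro l0 s1 s2 s3 κ h1 h2 h3 h
    refine ⟨s1, s2, s3, fun x => ?_, fun x => ?_, fun x => ?_, h⟩
    · rw [List.append_nil]; exact h1 x
    · rw [List.append_nil]; exact h2 x
    · rw [List.append_nil]; exact h3 x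
  | cons y l ih =>
    intro l0 s1 s2 s3 κ h1 h2 h3 h
    have := ih (l0 ++ [y]) _ _ _ κ ?_ ?_ ?_ h
    · simpa using this
    · intro x
      show (s1 ||| 1 <<< y).testBit x = _
      rw [Nat.testBit_or, testBit_one_shl, h1, List.count_append, hc, Bool.eq_iff_iff]
      simp only [Bool.or_eq_true, decide_eq_true_eq]
      generalize List.count x l0 = m
      by_cases h : y = x
      · simp only [h, if_true, or_true, true_iff]; omega
      · simp only [h, if_false, or_false, and_false, add_zero]
    · intro x
      show (s2 ||| (s1 &&& 1 <<< y)).testBit x = _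
      rw [Nat.testBit_or, Nat.testBit_and, testBit_one_shl, h1, h2, List.count_append, hc, Bool.eq_iff_iff]
      simp only [Bool.or_eq_true, Bool.and_eq_true, decide_eq_true_eq]
      generalize List.count x l0 = m
      by_cases h : y = x
      · simp only [h, if_true, or_true, and_true]; omega
      · simp only [h, if_false, or_false, and_false, add_zero]
    · intro x
      show (s3 ||| (s2 &&& 1 <<< y)).testBit x = _
      rw [Nat.testBit_or, Nat.testBit_and, testBit_one_shl, h2, h3, List.count_append, hc, Bool.eq_iff_iff]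
      simp only [Bool.or_eq_true, Bool.and_eq_true, decide_eq_true_eq]
      generalize List.count x l0 = m
      by_cases h : y = x
      · simp only [h, if_true, or_true, and_true]; omega
      · simp only [h, if_false, or_false, and_false, add_zero]

/-- the names of a code -/
noncomputable def names (w pw : ℕ) (k : ℕ) : ℕ → List ℕ :=
  Nat.rec (motive := fun _ => ℕ → List ℕ) (fun _ => [])
    (fun _ ih x => Nat.mod x pw :: ih (Nat.shiftRight x w)) k

lemma names_eq (w pw k : ℕ) (hp : pw = 2 ^ w) : ∀ x, names w pw k x = List.ofFn (fun a : Fin k => dg w x a) := by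
  induction k with
  | zero => intro x; rfl
  | succ k ih =>
    intro x
    rw [List.ofFn_succ]
    show (x % pw) :: names w pw k (x >>> w) = _
    rw [ih, hp]
    have e1 : x % 2 ^ w = dg w x 0 := by rw [dg_def, mul_zero, Nat.shiftRight_zero]
    have e2 : (fun a : Fin k => dg w (x >>> w) a) = fun a : Fin k => dg w x a.succ := by
      funext a
      show _ = dg w x (a.val + 1)
      have := dg_shr w x 1 a
      rw [mul_one] at this
      rw [this]
    rw [e1, e2]
    rfl

/-- all names of a list of codes -/
noncomputable def allNames (w pw k : ℕ) (L : List ℕ) : List ℕ :=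
  List.rec (motive := fun _ => List ℕ) [] (fun v _ ih => names w pw k v ++ ih) L

/-- the test of the invariant -/
noncomputable def goodL (w pw k c : ℕ) (L : List ℕ) : Bool :=
  cntB (allNames w pw k L) 0 0 0 (fun s1 _ s3 => Bool.rec (motive := fun _ => Bool) false
    (Nat.blt s1 (Nat.pow 2 c)) (Nat.beq s3 0))

lemma count_allNames {n w pw : ℕ} (hp : pw = 2 ^ w) (L : List ℕ) (x : ℕ) :
    (allNames w pw (n + 1) L).count x = cntG x ((L.map (row n w) : List (Fin (n + 1) → ℕ)) : Multiset (Fin (n + 1) → ℕ)) := by
  induction L with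
  | nil => rfl
  | cons v L ih =>
    show (names w pw (n + 1) v ++ allNames w pw (n + 1) L).count x = _
    rw [List.count_append, ih, List.map_cons, ← Multiset.cons_coe]
    have h1 : cntG x (row n w v ::ₘ ((L.map (row n w) : List (Fin (n + 1) → ℕ)) : Multiset (Fin (n + 1) → ℕ))) =
        rcount x (row n w v) + cntG x ((L.map (row n w) : List (Fin (n + 1) → ℕ)) : Multiset (Fin (n + 1) → ℕ)) := by
      unfold cntG
      rw [Multiset.map_cons, Multiset.sum_cons]
    rw [h1, names_eq w pw (n + 1) hp]
    congr 1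
    unfold rcount
    rw [List.count_eq_countP, List.countP_eq_length_filter]
    have h2 : (List.ofFn (fun a : Fin (n + 1) => dg w v a)) = (List.finRange (n + 1)).map (row n w v) := by
      rw [List.ofFn_eq_map]; rfl
    rw [h2, List.filter_map, List.length_map]
    have h3 : (Finset.univ.filter (fun a => row n w v a = x)).card =
        ((List.finRange (n + 1)).filter (fun a => decide (row n w v a = x))).length := by
      rfl
    rw [h3]
    congr 1

theorem good_of_goodL {n w pw c : ℕ} (hp : pw = 2 ^ w) (L : List ℕ) (h : goodL w pw (n + 1) c L = true) :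
    Good ((L.map (row n w) : List (Fin (n + 1) → ℕ)) : Multiset (Fin (n + 1) → ℕ)) c := by
  obtain ⟨s1, s2, s3, h1, h2, h3, hk⟩ := cntB_spec _ [] 0 0 0 _ (by simp) (by simp) (by simp) h
  obtain ⟨h4, h5⟩ := brec_and hk
  have h6 : s1 < 2 ^ c := Nat.le_of_ble_eq_true h4
  have h7 : s3 = 0 := beq_true h5
  simp only [List.nil_append, count_allNames hp] at h1 h2 h3
  constructor
  · intro r hr a
    by_contra hlt
    push Not at hlt
    have h8 : s1.testBit (r a) = false :=
      Nat.testBit_lt_two_pow (lt_of_lt_of_le h6 (Nat.pow_le_pow_right (by omega) hlt))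
    rw [h1] at h8
    have h9 : cntG (r a) ((L.map (row n w) : List (Fin (n + 1) → ℕ)) : Multiset (Fin (n + 1) → ℕ)) = 0 := by
      have := of_decide_eq_false h8
      omega
    exact cntG_eq_zero h9 r hr a rfl
  · intro x
    have h8 := h3 x
    rw [h7, Nat.zero_testBit] at h8
    have := of_decide_eq_false h8.symm
    omega

/-! ### renaming -/

/-- all pairs `p, q` of the list satisfy `p.1 = q.1 ↔ p.2 = q.2` -/
def matchB (l : List (ℕ × ℕ)) : Bool := l.all (fun p => l.all (fun q => (Nat.beq p.1 q.1) == (Nat.beq p.2 q.2)))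

/-- Two complexes with the same number of facets whose names correspond. -/
lemma PLHomeo.of_lists {n : ℕ} (L L' : List (Fin (n + 1) → ℕ)) (hlen : L.length = L'.length)
    (h : matchB ((L.zip L').flatMap (fun p => List.ofFn (fun a => (p.1 a, p.2 a)))) = true) :
    PLHomeo (⟨Fin L.length, fun i => L.get i⟩ : Glue n) (⟨Fin L'.length, fun i => L'.get i⟩ : Glue n) := by
  refine PLHomeo.of_equiv (K := ⟨Fin L.length, fun i => L.get i⟩) (K' := ⟨Fin L'.length, fun i => L'.get i⟩)
    (finCongr hlen) ?_
  intro i j a b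
  show L.get i a = L.get j b ↔ L'.get (finCongr hlen i) a = L'.get (finCongr hlen j) b
  have hm : ∀ (i : Fin L.length) (a : Fin (n + 1)), (L.get i a, L'.get (finCongr hlen i) a) ∈
      (L.zip L').flatMap (fun p => List.ofFn (fun a => (p.1 a, p.2 a))) := by
    intro i a
    rw [List.mem_flatMap]
    refine ⟨(L.get i, L'.get (finCongr hlen i)), ?_, ?_⟩
    · rw [List.mem_iff_getElem]
      refine ⟨i, ?_, ?_⟩
      · rw [List.length_zip, ← hlen, Nat.min_self]; exact i.2
      · rw [List.getElem_zip]; rfl
    · rw [List.mem_ofFn]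
      exact ⟨a, rfl⟩
  unfold matchB at h
  rw [List.all_eq_true] at h
  have h1 := h _ (hm i a)
  rw [List.all_eq_true] at h1
  have h2 := h1 _ (hm j b)
  simp only [beq_iff_eq] at h2
  rw [← Nat.beq_eq, ← Nat.beq_eq, h2]

end Pool.Agent.H34.PLE
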