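import Pool.Agent.H34.PLE.Path
import Pool.Agent.H34.PLE.Tools

/-!
# The staircase triangulation of the product of the boundaries of two simplices
-/

open Set

namespace Pool.Agent.H34.PLE.Stair

/-- The facets: monotone lattice paths in the grid `{0,…,m} × {0,…,k}` without one column and one row. -/
def Facet (m k : ℕ) (l : List (ℕ × ℕ)) : Prop :=
  ∃ i ∈ List.range (m + 1), ∃ j ∈ List.range (k + 1),
    IsPath ((List.range (m + 1)).erase i) ((List.range (k + 1)).erase j) l

/-- weighted facets -/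
def WS (m k : ℕ) (L : WL) : Prop := Facet m k (L.map Prod.fst) ∧ ∀ p ∈ L, 0 ≤ p.2

variable {m k : ℕ}

lemma WPath.toWS {i j : ℕ} (hi : i ∈ List.range (m + 1)) (hj : j ∈ List.range (k + 1)) {L : WL}
    (h : WPath ((List.range (m + 1)).erase i) ((List.range (k + 1)).erase j) L) : WS m k L :=
  ⟨⟨i, hi, j, hj, h.1⟩, h.2⟩

lemma nodup_range_erase (m i : ℕ) : ((List.range (m + 1)).erase i).Nodup := (List.nodup_range).erase i

/-- changing the omitted column -/
lemma conn_col {R vs : List ℕ} (hR : R.Nodup) (hR3 : 3 ≤ R.length) (hvs : vs.Nodup) {i i' : ℕ} (hi : i ∈ R)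
    (hi' : i' ∈ R) {P : WL → Prop} (hP : ∀ i ∈ R, ∀ L, WPath (R.erase i) vs L → P L) {L L' : WL}
    (hL : WPath (R.erase i) vs L) (hL' : WPath (R.erase i') vs L') (hx : ∀ u, mX L u = mX L' u)
    (hy : ∀ v, mY L v = mY L' v) : Conn P L L' := by
  by_cases hii : i = i'
  · subst hii
    exact (conn _ _ _ rfl (hR.erase i) hvs L L' hL hL' hx hy).mono (fun L hL => hP i hi L hL)
  have h1 : i' ∈ R.erase i := (List.mem_erase_of_ne (Ne.symm hii)).mpr hi'
  have h2 : i ∈ R.erase i' := (List.mem_erase_of_ne hii).mpr hi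
  have x1 : mX L i = 0 := mX_zero i (fun p hp hpi => (hR.not_mem_erase) (hpi ▸ (hL.mem p hp).1))
  have x2 : mX L i' = 0 := by
    rw [hx]
    exact mX_zero i' (fun p hp hpi => (hR.not_mem_erase) (hpi ▸ (hL'.mem p hp).1))
  have s1 := sum_mX (hR.erase i) (fun p hp => (hL.mem p hp).1)
  have s2 := sum_mY hvs (fun p hp => (hL.mem p hp).2)
  have s3 := List.sum_map_erase (mX L) h1
  rw [x2, zero_add] at s3
  have hlen : ((R.erase i).erase i').length = R.length - 1 - 1 := by
    rw [List.length_erase_of_mem h1, List.length_erase_of_mem hi]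
  have hne : (R.erase i).erase i' ≠ [] := by
    intro h
    rw [h] at hlen
    simp only [List.length_nil] at hlen
    omega
  obtain ⟨N, hN, hNx, hNy⟩ := cover _ ((R.erase i).erase i') vs (mX L) (mY L) rfl hne hL.1.ne.2
    ((hR.erase i).erase i') hvs (fun u _ => mX_nonneg hL.2 u) (fun v _ => mY_nonneg hL.2 v)
    (by rw [s3, s1, s2])
  have hNX : ∀ u, mX N u = mX L u := by
    intro u
    by_cases hu : u ∈ (R.erase i).erase i'
    · exact hNx u hu
    · rw [mX_zero u (fun p hp hpu => hu (hpu ▸ (hN.mem p hp).1))]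
      by_cases hui : u = i'
      · rw [hui, x2]
      · symm
        refine mX_zero u (fun p hp hpu => hu ?_)
        exact (List.mem_erase_of_ne hui).mpr (hpu ▸ (hL.mem p hp).1)
  have hNY : ∀ u, mY N u = mY L u := by
    intro u
    by_cases hu : u ∈ vs
    · exact hNy u hu
    · rw [mY_zero u (fun p hp hpu => hu (hpu ▸ (hN.mem p hp).2)),
        mY_zero u (fun p hp hpu => hu (hpu ▸ (hL.mem p hp).2))]
  -- insert the two columns
  obtain ⟨a, b, _, he, hab⟩ := List.exists_erase_eq h1
  obtain ⟨a', b', _, he', hab'⟩ := List.exists_erase_eq h2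
  have key : ∀ (i : ℕ) (us a b : List ℕ), a ++ b = us → IsPath us vs (N.map Prod.fst) →
      ∃ (v : ℕ) (A B : WL), N = A ++ B ∧ WPath (a ++ i :: b) vs (A ++ ((i, v), 0) :: B) := by
    intro i us a b hab hp
    obtain ⟨v, A, B, hAB, hp'⟩ := hp.insert i a b hab
    obtain ⟨A', B', hN', hA', hB'⟩ := List.map_eq_append_iff.mp hAB
    refine ⟨v, A', B', hN', ?_, ?_⟩
    · rw [List.map_append, List.map_cons, hA', hB']
      exact hp'
    · intro p hp
      rcases List.mem_append.mp hp with hp | hp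
      · exact hN.2 p (by rw [hN']; exact List.mem_append_left _ hp)
      · rcases List.mem_cons.mp hp with rfl | hp
        · exact le_rfl
        · exact hN.2 p (by rw [hN']; exact List.mem_append_right _ hp)
  obtain ⟨v, A, B, hNA, hW⟩ := key i' _ a b hab.symm hN.1
  obtain ⟨v', A', B', hNA', hW'⟩ := key i _ a' b' (by rw [← hab', List.erase_comm]) hN.1
  rw [← he] at hW
  rw [← he'] at hW'
  have c1 : Conn P L (A ++ ((i', v), 0) :: B) := by
    refine (conn _ _ _ rfl (hR.erase i) hvs L _ hL hW (fun u => ?_) (fun u => ?_)).mono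
      (fun L hL => hP i hi L hL)
    · rw [mX_insert, ← hNA, hNX]
    · rw [mY_insert, ← hNA, hNY]
  have c2 : Conn P L' (A' ++ ((i, v'), 0) :: B') := by
    refine (conn _ _ _ rfl (hR.erase i') hvs L' _ hL' hW' (fun u => ?_) (fun u => ?_)).mono
      (fun L hL => hP i' hi' L hL)
    · rw [mX_insert, ← hNA', hNX, hx]
    · rw [mY_insert, ← hNA', hNY, hy]
  refine c1.trans (Conn.trans ?_ c2.symm)
  exact Relation.EqvGen.rel _ _ ⟨hP i hi _ hW, hP i' hi' _ hW', A, B, A', B', _, _, rfl, rfl, by rw [← hNA, ← hNA']⟩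

/-- the transposed weighted list -/
def swapL (L : WL) : WL := L.map (fun p => (p.1.swap, p.2))

lemma swapL_swapL (L : WL) : swapL (swapL L) = L := by
  unfold swapL
  rw [List.map_map]
  conv_rhs => rw [← List.map_id L]
  rfl

lemma WPath.swapL {us vs : List ℕ} {L : WL} (h : WPath us vs L) : WPath vs us (swapL L) := by
  refine ⟨?_, ?_⟩
  · have := h.1.swap
    rw [List.map_map] at this
    unfold Stair.swapL
    rw [List.map_map]
    exact this
  · intro p hp
    obtain ⟨q, hq, rfl⟩ := List.mem_map.mp hp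
    exact h.2 q hq

lemma mX_swapL (L : WL) (u : ℕ) : mX (swapL L) u = mY L u := by
  unfold mX mY swapL
  rw [List.map_map]
  rfl

lemma mY_swapL (L : WL) (u : ℕ) : mY (swapL L) u = mX L u := by
  unfold mX mY swapL
  rw [List.map_map]
  rfl

lemma Adj.swapL {L L' : WL} (h : Adj L L') : Adj (swapL L) (swapL L') := by
  obtain ⟨A, B, A', B', v, w, rfl, rfl, h⟩ := h
  refine ⟨Stair.swapL A, Stair.swapL B, Stair.swapL A', Stair.swapL B', v.swap, w.swap, ?_, ?_, ?_⟩
  · unfold Stair.swapL; rw [List.map_append, List.map_cons]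
  · unfold Stair.swapL; rw [List.map_append, List.map_cons]
  · unfold Stair.swapL; rw [← List.map_append, ← List.map_append, h]

/-- changing the omitted row -/
lemma conn_row {R us : List ℕ} (hR : R.Nodup) (hR3 : 3 ≤ R.length) (hus : us.Nodup) {i i' : ℕ} (hi : i ∈ R)
    (hi' : i' ∈ R) {P : WL → Prop} (hP : ∀ i ∈ R, ∀ L, WPath us (R.erase i) L → P L) {L L' : WL}
    (hL : WPath us (R.erase i) L) (hL' : WPath us (R.erase i') L') (hx : ∀ u, mX L u = mX L' u)
    (hy : ∀ v, mY L v = mY L' v) : Conn P L L' := by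
  have h := conn_col hR hR3 hus hi hi' (P := fun L => P (swapL L))
    (fun i hi L hL => hP i hi _ hL.swapL) hL.swapL hL'.swapL
    (fun u => by rw [mX_swapL, mX_swapL, hy]) (fun u => by rw [mY_swapL, mY_swapL, hx])
  have h2 := h.map (Q := P) swapL (fun L hL => hL) (fun L L' hA => hA.swapL)
  rwa [swapL_swapL, swapL_swapL] at h2

/-- **Weighted facets with the same marginals are connected.** -/
theorem connS (hm : 2 ≤ m) (hk : 2 ≤ k) {L L' : WL} (hL : WS m k L) (hL' : WS m k L')
    (hx : ∀ u, mX L u = mX L' u) (hy : ∀ v, mY L v = mY L' v) : Conn (WS m k) L L' := by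
  obtain ⟨⟨i, hi, j, hj, hp⟩, hn⟩ := hL
  obtain ⟨⟨i', hi', j', hj', hp'⟩, hn'⟩ := hL'
  have hW : WPath _ _ L := ⟨hp, hn⟩
  have hW' : WPath _ _ L' := ⟨hp', hn'⟩
  have hRm : (List.range (m + 1)).Nodup := List.nodup_range
  have hRk : (List.range (k + 1)).Nodup := List.nodup_range
  have x1 : mX L i' = 0 := by
    rw [hx]
    exact mX_zero i' (fun p hp hpi => hRm.not_mem_erase (hpi ▸ (hW'.mem p hp).1))
  have y1 : mY L j = 0 := mY_zero j (fun p hp hpi => hRk.not_mem_erase (hpi ▸ (hW.mem p hp).2))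
  have s1 := sum_mX hRm (fun p hp => List.mem_of_mem_erase (hW.mem p hp).1)
  have s2 := sum_mY hRk (fun p hp => List.mem_of_mem_erase (hW.mem p hp).2)
  have s3 := List.sum_map_erase (mX L) hi'
  have s4 := List.sum_map_erase (mY L) hj
  rw [x1, zero_add] at s3
  rw [y1, zero_add] at s4
  have len : ∀ (n i : ℕ), 2 ≤ n → i ∈ List.range (n + 1) → (List.range (n + 1)).erase i ≠ [] := by
    intro n i hn hi h
    have := List.length_erase_of_mem hi
    rw [h, List.length_range] at this
    simp only [List.length_nil] at this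
    omega
  obtain ⟨N, hN, hNx, hNy⟩ := cover _ ((List.range (m + 1)).erase i') ((List.range (k + 1)).erase j) (mX L) (mY L)
    rfl (len m i' hm hi') (len k j hk hj) (nodup_range_erase m i') (nodup_range_erase k j)
    (fun u _ => mX_nonneg hn u) (fun v _ => mY_nonneg hn v) (by rw [s3, s1, s4, s2])
  have hNX : ∀ u, mX N u = mX L u := by
    intro u
    by_cases hu : u ∈ (List.range (m + 1)).erase i'
    · exact hNx u hu
    · rw [mX_zero u (fun p hp hpu => hu (hpu ▸ (hN.mem p hp).1)), hx]
      exact (mX_zero u (fun p hp hpu => hu (hpu ▸ (hW'.mem p hp).1))).symm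
  have hNY : ∀ u, mY N u = mY L u := by
    intro u
    by_cases hu : u ∈ (List.range (k + 1)).erase j
    · exact hNy u hu
    · rw [mY_zero u (fun p hp hpu => hu (hpu ▸ (hN.mem p hp).2))]
      exact (mY_zero u (fun p hp hpu => hu (hpu ▸ (hW.mem p hp).2))).symm
  have c1 : Conn (WS m k) L N :=
    conn_col hRm (by rw [List.length_range]; omega) (nodup_range_erase k j) hi hi'
      (fun i hi L hL => WPath.toWS hi hj hL) hW hN (fun u => (hNX u).symm) (fun u => (hNY u).symm)
  have c2 : Conn (WS m k) N L' :=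
    conn_row hRk (by rw [List.length_range]; omega) (nodup_range_erase m i') hj hj'
      (fun j hj L hL => WPath.toWS hi' hj hL) hN hW' (fun u => by rw [hNX, hx]) (fun u => by rw [hNY, hy])
  exact c1.trans c2

end Pool.Agent.H34.PLE.Stair
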