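import Pool.Agent.H34.PLE.StairReal

/-!
# Enumeration of the staircase triangulation and comparison with a list of rows
-/

open Set

namespace Pool.Agent.H34.PLE.Stair

/-- auxiliary function for `allPaths` -/
def pg (u : ℕ) (last : Bool) (R : List ℕ → List (List (ℕ × ℕ))) : List ℕ → List (List (ℕ × ℕ))
  | [] => []
  | v :: vs => (if last && vs.isEmpty then [[(u, v)]] else []) ++ (R (v :: vs)).map (fun l => (u, v) :: l) ++
      (pg u last R vs).map (fun l => (u, v) :: l)

/-- all lattice paths -/
def allPaths : List ℕ → List ℕ → List (List (ℕ × ℕ))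
  | [] => fun _ => []
  | u :: us => pg u us.isEmpty (allPaths us)

lemma allPaths_cons (u v : ℕ) (us vs : List ℕ) : allPaths (u :: us) (v :: vs) =
    (if us.isEmpty && vs.isEmpty then [[(u, v)]] else []) ++ (allPaths us (v :: vs)).map (fun l => (u, v) :: l) ++
      (allPaths (u :: us) vs).map (fun l => (u, v) :: l) := rfl

lemma allPaths_nil (us : List ℕ) : allPaths us [] = [] := by cases us <;> rfl

theorem mem_allPaths : ∀ (us vs : List ℕ) (l : List (ℕ × ℕ)), l ∈ allPaths us vs ↔ IsPath us vs l := by
  intro us
  induction us with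
  | nil =>
    intro vs l
    constructor
    · intro h; exact absurd h (List.not_mem_nil)
    · intro h; exact absurd rfl h.ne.1
  | cons u us ihu =>
    intro vs
    induction vs with
    | nil =>
      intro l
      constructor
      · intro h; exact absurd h (List.not_mem_nil)
      · intro h; exact absurd rfl h.ne.2
    | cons v vs ihv =>
      intro l
      rw [allPaths_cons, List.mem_append, List.mem_append, List.mem_map, List.mem_map]
      constructor
      · rintro ((h | ⟨l', hl', rfl⟩) | ⟨l', hl', rfl⟩)
        · split_ifs at h with hc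
          · rw [Bool.and_eq_true, List.isEmpty_iff, List.isEmpty_iff] at hc
            obtain ⟨rfl, rfl⟩ := hc
            rw [List.mem_singleton] at h
            subst h
            exact IsPath.base u v
          · exact absurd h (List.not_mem_nil)
        · exact IsPath.left ((ihu _ _).mp hl')
        · exact IsPath.right ((ihv _).mp hl')
      · intro h
        cases h with
        | base => left; left; simp
        | left h => left; right; exact ⟨_, (ihu _ _).mpr h, rfl⟩
        | right h => right; exact ⟨_, (ihv _).mpr h, rfl⟩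

lemma IsPath.head {u : ℕ} {us vs : List ℕ} {l : List (ℕ × ℕ)} (h : IsPath (u :: us) vs l) :
    ∃ v l', l = (u, v) :: l' := by
  cases h with
  | base => exact ⟨_, _, rfl⟩
  | left _ => exact ⟨_, _, rfl⟩
  | right _ => exact ⟨_, _, rfl⟩

lemma IsPath.mem_col {us vs : List ℕ} {l : List (ℕ × ℕ)} (h : IsPath us vs l) : ∀ u ∈ us, ∃ v, (u, v) ∈ l := by
  induction h with
  | base u v =>
    intro w hw
    rw [List.mem_singleton] at hw
    subst hw
    exact ⟨v, List.mem_cons_self⟩
  | @left u v us vs l _ ih =>
    intro w hw
    rcases List.mem_cons.mp hw with rfl | hw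
    · exact ⟨v, List.mem_cons_self⟩
    · obtain ⟨v', hv'⟩ := ih w hw
      exact ⟨v', List.mem_cons_of_mem _ hv'⟩
  | @right u v us vs l _ ih =>
    intro w hw
    obtain ⟨v', hv'⟩ := ih w hw
    exact ⟨v', List.mem_cons_of_mem _ hv'⟩

lemma nodup_allPaths : ∀ (us vs : List ℕ), us.Nodup → (allPaths us vs).Nodup := by
  intro us
  induction us with
  | nil => intro vs _; exact List.nodup_nil
  | cons u us ihu =>
    intro vs hu
    have hu' := List.nodup_cons.mp hu
    induction vs with
    | nil => exact List.nodup_nil
    | cons v vs ihv =>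
      rw [allPaths_cons]
      have hinj : Function.Injective (fun l : List (ℕ × ℕ) => (u, v) :: l) := fun _ _ h => by simpa using h
      refine List.Nodup.append (List.Nodup.append ?_ ?_ ?_) ?_ ?_
      · split_ifs
        · exact List.nodup_singleton _
        · exact List.nodup_nil
      · exact (ihu _ hu'.2).map hinj
      · intro l h1 h2
        split_ifs at h1 with hc
        · rw [Bool.and_eq_true, List.isEmpty_iff, List.isEmpty_iff] at hc
          obtain ⟨rfl, rfl⟩ := hc
          exact absurd h2 (List.not_mem_nil)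
        · exact absurd h1 (List.not_mem_nil)
      · exact ihv.map hinj
      · intro l h1 h2
        obtain ⟨l2, hl2, rfl⟩ := List.mem_map.mp h2
        have p2 := (mem_allPaths _ _ _).mp hl2
        rcases List.mem_append.mp h1 with h1 | h1
        · split_ifs at h1 with hc
          · rw [Bool.and_eq_true, List.isEmpty_iff, List.isEmpty_iff] at hc
            obtain ⟨rfl, rfl⟩ := hc
            exact absurd rfl p2.ne.2
          · exact absurd h1 (List.not_mem_nil)
        · obtain ⟨l1, hl1, he⟩ := List.mem_map.mp h1
          simp only [List.cons.injEq, true_and] at he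
          subst he
          have p1 := (mem_allPaths _ _ _).mp hl1
          obtain ⟨w, l', rfl⟩ := p2.head
          exact hu'.1 (p1.mem (u, w) List.mem_cons_self).1

/-- all facets of the staircase triangulation -/
def facets (m k : ℕ) : List (List (ℕ × ℕ)) :=
  (List.range (m + 1)).flatMap fun i => (List.range (k + 1)).flatMap fun j =>
    allPaths ((List.range (m + 1)).erase i) ((List.range (k + 1)).erase j)

lemma mem_facets {m k : ℕ} (l : List (ℕ × ℕ)) : l ∈ facets m k ↔ Facet m k l := by
  unfold facets Facet
  rw [List.mem_flatMap]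
  refine exists_congr fun i => and_congr_right fun _ => ?_
  rw [List.mem_flatMap]
  refine exists_congr fun j => and_congr_right fun _ => ?_
  exact mem_allPaths _ _ _

lemma IsPath.mem_row {us vs : List ℕ} {l : List (ℕ × ℕ)} (h : IsPath us vs l) : ∀ v ∈ vs, ∃ u, (u, v) ∈ l := by
  intro v hv
  obtain ⟨u, hu⟩ := h.swap.mem_col v hv
  obtain ⟨p, hp, he⟩ := List.mem_map.mp hu
  refine ⟨u, ?_⟩
  have : p = (u, v) := by
    have := congrArg Prod.swap he
    simpa using this
  rwa [← this]

lemma nodup_facets (m k : ℕ) : (facets m k).Nodup := by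
  unfold facets
  rw [List.nodup_flatMap]
  have hm : (List.range (m + 1)).Nodup := List.nodup_range
  have hk : (List.range (k + 1)).Nodup := List.nodup_range
  refine ⟨fun i hi => ?_, ?_⟩
  · rw [List.nodup_flatMap]
    refine ⟨fun j hj => nodup_allPaths _ _ (hm.erase i), ?_⟩
    refine List.Pairwise.imp_of_mem ?_ hk
    intro j j' hj hj' hne l hl hl'
    have p1 := (mem_allPaths _ _ _).mp hl
    have p2 := (mem_allPaths _ _ _).mp hl'
    obtain ⟨u, hu⟩ := p1.mem_row j' ((List.mem_erase_of_ne (Ne.symm hne)).mpr hj')
    exact hk.not_mem_erase (p2.mem _ hu).2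
  · refine List.Pairwise.imp_of_mem ?_ hm
    intro i i' hi hi' hne l hl hl'
    obtain ⟨j, hj, hl⟩ := List.mem_flatMap.mp hl
    obtain ⟨j', hj', hl'⟩ := List.mem_flatMap.mp hl'
    have p1 := (mem_allPaths _ _ _).mp hl
    have p2 := (mem_allPaths _ _ _).mp hl'
    obtain ⟨u, hu⟩ := p1.mem_col i' ((List.mem_erase_of_ne (Ne.symm hne)).mpr hi')
    exact hm.not_mem_erase (p2.mem _ hu).1

/-- the code of a list of vertices -/
def cd : List (ℕ × ℕ) → ℕ
  | [] => 0
  | p :: l => (16 * p.1 + p.2) + 64 * cd l

lemma cd_inj : ∀ (l l' : List (ℕ × ℕ)), l.length = l'.length → (∀ p ∈ l, p.1 < 4 ∧ p.2 < 16) →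
    (∀ p ∈ l', p.1 < 4 ∧ p.2 < 16) → cd l = cd l' → l = l' := by
  intro l
  induction l with
  | nil => intro l' h _ _ _; exact (List.length_eq_zero_iff.mp h.symm).symm
  | cons p l ih =>
    intro l' h h1 h2 hc
    cases l' with
    | nil => simp at h
    | cons q l' =>
      have hp := h1 p List.mem_cons_self
      have hq := h2 q List.mem_cons_self
      simp only [cd] at hc
      have e1 : cd l = cd l' := by omega
      have e2 : p.1 = q.1 := by omega
      have e3 : p.2 = q.2 := by omega
      rw [ih l' (by simpa using h) (fun p hp => h1 p (List.mem_cons_of_mem _ hp))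
        (fun p hp => h2 p (List.mem_cons_of_mem _ hp)) e1, Prod.ext e2 e3]

/-- the check of one row against one facet -/
def chkRow (w n M : ℕ) (tb : ℕ → ℕ) (r : ℕ) (F : List (ℕ × ℕ)) : Bool :=
  (List.range (n + 1)).all fun a => Nat.blt 0 (dg w r a) && Nat.ble (dg w r a) M && Nat.beq (tb (dg w r a)) (cd (F.eraseIdx a))

/-- the check of all rows against all facets -/
def chkAll (w m k M : ℕ) (tb : ℕ → ℕ) (L : List ℕ) : Bool :=
  Nat.beq L.length (facets m k).length && ((L.zip (facets m k)).all fun p => chkRow w (m + k - 2) M tb p.1 p.2) &&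
    (List.range M).all fun x => Nat.blt (tb x) (tb (x + 1))

theorem homeo_of_chkAll {w m k M : ℕ} {tb : ℕ → ℕ} {L : List ℕ} (hm : m < 4) (hk : k < 16)
    (h : chkAll w m k M tb L = true) : PLHomeo (glueL (m + k - 2) w L) (stairGlue m k) := by
  unfold chkAll at h
  rw [Bool.and_eq_true, Bool.and_eq_true] at h
  obtain ⟨⟨h1, h2⟩, h3⟩ := h
  have hlen : L.length = (facets m k).length := Nat.eq_of_beq_eq_true h1
  rw [List.all_eq_true] at h2 h3
  have hmono : ∀ x y, x < y → y ≤ M → tb x < tb y := by
    intro x y hxy
    induction y, hxy using Nat.le_induction with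
    | base =>
      intro hM
      exact Nat.le_of_ble_eq_true (h3 x (List.mem_range.mpr (by omega)))
    | succ y hy ih =>
      intro hM
      exact lt_trans (ih (by omega)) (Nat.le_of_ble_eq_true (h3 y (List.mem_range.mpr (by omega))))
  have hinj : ∀ x y, x ≤ M → y ≤ M → tb x = tb y → x = y := by
    intro x y hx hy hxy
    rcases lt_trichotomy x y with h | h | h
    · exact absurd hxy (hmono x y h hy).ne
    · exact h
    · exact absurd hxy.symm (hmono y x h hx).ne
  let e : (glueL (m + k - 2) w L).ι ≃ (stairGlue m k).ι :=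
    ((finCongr hlen).trans ((nodup_facets m k).getEquiv)).trans
      (Equiv.subtypeEquivRight (fun l => mem_facets (m := m) (k := k) l))
  have he : ∀ i : Fin L.length, (e i).1 = (facets m k)[(i : ℕ)]'(by rw [← hlen]; exact i.2) := fun i => rfl
  have hrow : ∀ (i : Fin L.length) (a : Fin (m + k - 2 + 1)), dg w (L.get i) a ≤ M ∧
      tb (dg w (L.get i) a) = cd ((e i).1.eraseIdx a) := by
    intro i a
    have hi : (i : ℕ) < (L.zip (facets m k)).length := by rw [List.length_zip, ← hlen, Nat.min_self]; exact i.2
    have h4 := h2 _ (List.getElem_mem hi)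
    rw [List.getElem_zip] at h4
    unfold chkRow at h4
    rw [List.all_eq_true] at h4
    have h5 := h4 a (List.mem_range.mpr a.2)
    rw [Bool.and_eq_true, Bool.and_eq_true] at h5
    exact ⟨Nat.le_of_ble_eq_true h5.1.2, by rw [he]; exact Nat.eq_of_beq_eq_true h5.2⟩
  refine PLHomeo.of_equiv e (fun i j a b => ?_)
  show dg w (L.get i) a = dg w (L.get j) b ↔ Encodable.encode ((e i).1.eraseIdx a) =
    Encodable.encode ((e j).1.eraseIdx b)
  obtain ⟨h4, h5⟩ := hrow i a
  obtain ⟨h6, h7⟩ := hrow j b
  constructor
  · intro h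
    rw [h, h7] at h5
    refine congrArg _ (cd_inj _ _ ?_ ?_ ?_ h5.symm)
    · rw [List.length_eraseIdx_of_lt (by rw [(e i).2.length']; exact a.2),
        List.length_eraseIdx_of_lt (by rw [(e j).2.length']; exact b.2), (e i).2.length', (e j).2.length']
    · intro p hp
      have := (e i).2.mem p (List.mem_of_mem_eraseIdx hp)
      omega
    · intro p hp
      have := (e j).2.mem p (List.mem_of_mem_eraseIdx hp)
      omega
  · intro h
    have h8 := Encodable.encode_injective h
    exact hinj _ _ h4 h6 (by rw [h5, h7, h8])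

end Pool.Agent.H34.PLE.Stair
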