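import Pool.Agent.H34.PLE.Stair
import Pool.Agent.H34.PLE.Poly

/-!
# The realisation of the staircase triangulation

`stairGlue m k` is the gluing complex of the staircase triangulation of `∂Δ^m × ∂Δ^k`.  Its realisation is
homeomorphic to this product by a map which is linear on every facet.
-/

open Set

namespace Pool.Agent.H34.PLE.Stair

variable {m k : ℕ}

/-- The gluing complex of the staircase triangulation of `∂Δ^m × ∂Δ^k`: the facets are lattice paths; the codimension
one faces are named by the lists of their vertices. -/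
def stairGlue (m k : ℕ) : Glue (m + k - 2) where
  ι := {l : List (ℕ × ℕ) // Facet m k l}
  face := fun l a => Encodable.encode (l.1.eraseIdx a)

lemma Facet.length {l : List (ℕ × ℕ)} (h : Facet m k l) : l.length + 1 = m + k := by
  obtain ⟨i, hi, j, hj, hp⟩ := h
  have := hp.length
  rw [List.length_erase_of_mem hi, List.length_erase_of_mem hj, List.length_range, List.length_range] at this
  omega

lemma Facet.two_le {l : List (ℕ × ℕ)} (h : Facet m k l) : 1 ≤ m ∧ 1 ≤ k := by
  obtain ⟨i, hi, j, hj, hp⟩ := h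
  constructor
  · by_contra hm
    have : m = 0 := by omega
    subst this
    apply hp.ne.1
    have : i = 0 := by rw [List.mem_range] at hi; omega
    subst this
    rfl
  · by_contra hm
    have : k = 0 := by omega
    subst this
    apply hp.ne.2
    have : j = 0 := by rw [List.mem_range] at hj; omega
    subst this
    rfl

lemma Facet.length' {l : List (ℕ × ℕ)} (h : Facet m k l) : l.length = (m + k - 2) + 1 := by
  have h1 := h.length
  have h2 := h.two_le
  omega

lemma Facet.mem {l : List (ℕ × ℕ)} (h : Facet m k l) : ∀ p ∈ l, p.1 < m + 1 ∧ p.2 < k + 1 := by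
  obtain ⟨i, hi, j, hj, hp⟩ := h
  intro p hpl
  obtain ⟨h1, h2⟩ := hp.mem p hpl
  exact ⟨List.mem_range.mp (List.mem_of_mem_erase h1), List.mem_range.mp (List.mem_of_mem_erase h2)⟩

instance instFinFacet : Finite (stairGlue m k).ι := by
  show Finite {l : List (ℕ × ℕ) // Facet m k l}
  have h1 := (List.finite_length_eq (Fin (m + 1) × Fin (k + 1)) ((m + k - 2) + 1)).image
    (List.map (fun p => ((p.1 : ℕ), (p.2 : ℕ))))
  have h2 : Set.Finite {l : List (ℕ × ℕ) | Facet m k l} := by
    refine h1.subset ?_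
    intro l hl
    refine ⟨l.pmap (fun p hp => ((⟨p.1, hp.1⟩, ⟨p.2, hp.2⟩) : Fin (m + 1) × Fin (k + 1))) hl.mem, ?_, ?_⟩
    · show (l.pmap _ _).length = _
      rw [List.length_pmap]
      exact hl.length'
    · rw [List.map_pmap]
      simp
  exact h2.to_subtype

lemma sum_getD (l : List ℝ) (N : ℕ) (h : l.length = N) : ∑ a : Fin N, l.getD a 0 = l.sum := by
  subst h
  rw [← Fin.sum_univ_getElem]
  refine Finset.sum_congr rfl (fun a _ => ?_)
  rw [List.getD_eq_getElem l 0 a.2]

/-- the barycentric coordinates of a weighted facet -/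
noncomputable def crd (L : WL) (h : WS m k L) (ht : tot L = 1) : Sx (m + k - 2) :=
  ⟨fun a => (L.map Prod.snd).getD a 0, fun a => by
      have hl := h.1.length'
      rw [List.length_map] at hl
      have ha : (a : ℕ) < (L.map Prod.snd).length := by rw [List.length_map, hl]; exact a.2
      show 0 ≤ (L.map Prod.snd).getD a 0
      rw [List.getD_eq_getElem _ 0 ha, List.getElem_map]
      exact h.2 _ (List.getElem_mem _), by
      have hl := h.1.length'
      rw [List.length_map] at hl
      show ∑ a : Fin (m + k - 2 + 1), (L.map Prod.snd).getD a 0 = 1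
      rw [sum_getD _ _ (by rw [List.length_map, hl])]
      exact ht⟩

/-- the underlying facet -/
def fct (L : WL) (h : WS m k L) : (stairGlue m k).ι := (⟨L.map Prod.fst, h.1⟩ : {l : List (ℕ × ℕ) // Facet m k l})

/-- the point of a weighted facet -/
noncomputable def ptL (L : WL) (h : WS m k L) (ht : tot L = 1) : (stairGlue m k).Real :=
  (stairGlue m k).pt (fct L h) (crd L h ht)

lemma tot_insert (A B : WL) (v : ℕ × ℕ) : tot (A ++ (v, 0) :: B) = tot (A ++ B) := by
  unfold tot
  rw [List.map_append, List.map_cons, List.sum_append, List.sum_cons, List.map_append, List.sum_append]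
  simp

lemma eraseIdx_insert {α : Type} (A B : List α) (v : α) : (A ++ v :: B).eraseIdx A.length = A ++ B := by
  rw [List.eraseIdx_append_of_length_le le_rfl, Nat.sub_self, List.eraseIdx_zero, List.tail_cons]

lemma getD_insert {α : Type} (A B : List α) (v d : α) {n : ℕ} (a : Fin (n + 1)) (ha : (a : ℕ) = A.length)
    (s : Fin n) : (A ++ v :: B).getD (a.succAbove s) d = (A ++ B).getD s d := by
  unfold Fin.succAbove
  by_cases h : s.castSucc < a
  · rw [if_pos h]
    have h1 : (s : ℕ) < A.length := by rw [← ha]; exact h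
    show (A ++ v :: B).getD (s : ℕ) d = _
    rw [List.getD_append _ _ _ _ h1, List.getD_append _ _ _ _ h1]
  · rw [if_neg h]
    have h1 : A.length ≤ (s : ℕ) := by rw [← ha]; exact not_lt.mp h
    show (A ++ v :: B).getD ((s : ℕ) + 1) d = _
    rw [List.getD_append_right _ _ _ _ (by omega), List.getD_append_right _ _ _ _ h1,
      show (s : ℕ) + 1 - A.length = ((s : ℕ) - A.length) + 1 by omega, List.getD_cons_succ]

lemma ptL_adj {L L' : WL} (hA : Adj L L') (h : WS m k L) (ht : tot L = 1) (h' : WS m k L') (ht' : tot L' = 1) :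
    ptL L h ht = ptL L' h' ht' := by
  obtain ⟨A, B, A', B', v, w, rfl, rfl, hAB⟩ := hA
  have l1 := h.1.length'
  have l2 := h'.1.length'
  rw [List.length_map, List.length_append, List.length_cons] at l1 l2
  refine (stairGlue m k).pt_eq_of_rel ⟨A.length, by omega⟩ ⟨A'.length, by omega⟩ ?_ ?_ ?_ ?_
  · show ((A ++ (v, (0 : ℝ)) :: B).map Prod.snd).getD A.length 0 = 0
    rw [List.map_append, List.map_cons, List.getD_append_right _ _ _ _ (by rw [List.length_map])]
    rw [List.length_map, Nat.sub_self]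
    rfl
  · show ((A' ++ (w, (0 : ℝ)) :: B').map Prod.snd).getD A'.length 0 = 0
    rw [List.map_append, List.map_cons, List.getD_append_right _ _ _ _ (by rw [List.length_map])]
    rw [List.length_map, Nat.sub_self]
    rfl
  · show Encodable.encode (((A ++ (v, (0 : ℝ)) :: B).map Prod.fst).eraseIdx A.length) =
      Encodable.encode (((A' ++ (w, (0 : ℝ)) :: B').map Prod.fst).eraseIdx A'.length)
    rw [List.map_append, List.map_cons, List.map_append, List.map_cons]
    have e1 := eraseIdx_insert (A.map Prod.fst) (B.map Prod.fst) v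
    have e2 := eraseIdx_insert (A'.map Prod.fst) (B'.map Prod.fst) w
    rw [List.length_map] at e1 e2
    rw [e1, e2, ← List.map_append, ← List.map_append, hAB]
  · intro s
    show ((A ++ (v, (0 : ℝ)) :: B).map Prod.snd).getD _ 0 = ((A' ++ (w, (0 : ℝ)) :: B').map Prod.snd).getD _ 0
    rw [List.map_append, List.map_cons, List.map_append, List.map_cons,
      getD_insert _ _ _ _ _ (by rw [List.length_map]) s, getD_insert _ _ _ _ _ (by rw [List.length_map]) s,
      ← List.map_append, ← List.map_append, hAB]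

lemma ptL_conn {L L' : WL} (hc : Conn (WS m k) L L') : tot L = tot L' ∧ (WS m k L ↔ WS m k L') ∧
    ∀ (h : WS m k L) (ht : tot L = 1) (h' : WS m k L') (ht' : tot L' = 1), ptL L h ht = ptL L' h' ht' := by
  induction hc with
  | rel L L' hr =>
    obtain ⟨h1, h2, hA⟩ := hr
    refine ⟨?_, ⟨fun _ => h2, fun _ => h1⟩, fun h ht h' ht' => ptL_adj hA h ht h' ht'⟩
    obtain ⟨A, B, A', B', v, w, rfl, rfl, hAB⟩ := hA
    rw [tot_insert, tot_insert, hAB]
  | refl L => exact ⟨rfl, Iff.rfl, fun _ _ _ _ => rfl⟩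
  | symm L L' _ ih => exact ⟨ih.1.symm, ih.2.1.symm, fun h ht h' ht' => (ih.2.2 h' ht' h ht).symm⟩
  | trans L L' L'' _ _ ih1 ih2 =>
    refine ⟨ih1.1.trans ih2.1, ih1.2.1.trans ih2.2.1, fun h ht h' ht' => ?_⟩
    exact (ih1.2.2 h ht (ih1.2.1.mp h) (ih1.1 ▸ ht)).trans (ih2.2.2 _ _ h' ht')

/-- the weighted facet of a point -/
noncomputable def wl (i : (stairGlue m k).ι) (x : Sx (m + k - 2)) : WL := i.1.zip (List.ofFn x.1)

lemma wl_fst (i : (stairGlue m k).ι) (x : Sx (m + k - 2)) : (wl i x).map Prod.fst = i.1 := by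
  unfold wl
  refine List.map_fst_zip ?_
  rw [List.length_ofFn, i.2.length']

lemma wl_snd (i : (stairGlue m k).ι) (x : Sx (m + k - 2)) : (wl i x).map Prod.snd = List.ofFn x.1 := by
  unfold wl
  refine List.map_snd_zip ?_
  rw [List.length_ofFn, i.2.length']

lemma wl_ws (i : (stairGlue m k).ι) (x : Sx (m + k - 2)) : WS m k (wl i x) := by
  refine ⟨by rw [wl_fst]; exact i.2, fun p hp => ?_⟩
  have h1 : p.2 ∈ (wl i x).map Prod.snd := List.mem_map_of_mem hp
  rw [wl_snd, List.mem_ofFn] at h1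
  obtain ⟨a, ha⟩ := h1
  rw [← ha]
  exact x.2.1 a

lemma wl_tot (i : (stairGlue m k).ι) (x : Sx (m + k - 2)) : tot (wl i x) = 1 := by
  unfold tot
  rw [wl_snd, List.sum_ofFn]
  exact x.2.2

lemma ptL_wl (i : (stairGlue m k).ι) (x : Sx (m + k - 2)) :
    ptL (wl i x) (wl_ws i x) (wl_tot i x) = (stairGlue m k).pt i x := by
  unfold ptL
  have h1 : fct (wl i x) (wl_ws i x) = i := Subtype.ext (wl_fst i x)
  have h2 : crd (wl i x) (wl_ws i x) (wl_tot i x) = x := by
    apply Subtype.ext
    funext a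
    show ((wl i x).map Prod.snd).getD a 0 = x.1 a
    rw [wl_snd, List.getD_eq_getElem _ 0 (by rw [List.length_ofFn]; exact a.2), List.getElem_ofFn]
  rw [h1, h2]

lemma wl_fct (L : WL) (h : WS m k L) (ht : tot L = 1) : wl (fct L h) (crd L h ht) = L := by
  have hlen := h.1.length'
  rw [List.length_map] at hlen
  have h0 : wl (fct L h) (crd L h ht) =
      (L.map Prod.fst).zip (List.ofFn (fun a : Fin (m + k - 2 + 1) => (L.map Prod.snd).getD a 0)) := rfl
  rw [h0]
  apply List.ext_getElem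
  · rw [List.length_zip, List.length_map, List.length_ofFn, hlen, Nat.min_self]
  · intro a h1 h2
    rw [List.getElem_zip, List.getElem_map, List.getElem_ofFn]
    refine Prod.ext rfl ?_
    show (L.map Prod.snd).getD a 0 = L[a].2
    rw [List.getD_eq_getElem _ 0 (by rw [List.length_map]; exact h2), List.getElem_map]

/-- the first coordinate of the map -/
def phX (l : List (ℕ × ℕ)) (x : Fin (m + k - 2 + 1) → ℝ) (u : ℕ) : ℝ :=
  ∑ a : Fin (m + k - 2 + 1), if (l.getD a (0, 0)).1 = u then x a else 0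

/-- the second coordinate of the map -/
def phY (l : List (ℕ × ℕ)) (x : Fin (m + k - 2 + 1) → ℝ) (u : ℕ) : ℝ :=
  ∑ a : Fin (m + k - 2 + 1), if (l.getD a (0, 0)).2 = u then x a else 0

lemma sum_ofFn_zip {α : Type} (l : List α) (N : ℕ) (h : l.length = N) (x : Fin N → ℝ) (d : α) (F : α → ℝ → ℝ) :
    ((l.zip (List.ofFn x)).map (fun p => F p.1 p.2)).sum = ∑ a : Fin N, F (l.getD a d) (x a) := by
  subst h
  rw [← List.sum_ofFn]
  congr 1
  apply List.ext_getElem
  · simp
  · intro i h1 h2
    simp only [List.getElem_map, List.getElem_zip, List.getElem_ofFn]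
    rw [List.getD_eq_getElem]

lemma mX_wl (i : (stairGlue m k).ι) (x : Sx (m + k - 2)) (u : ℕ) : mX (wl i x) u = phX i.1 x.1 u := by
  unfold mX wl phX
  rw [← sum_ofFn_zip i.1 _ i.2.length' x.1 (0, 0) (fun p t => if p.1 = u then t else 0)]

lemma mY_wl (i : (stairGlue m k).ι) (x : Sx (m + k - 2)) (u : ℕ) : mY (wl i x) u = phY i.1 x.1 u := by
  unfold mY wl phY
  rw [← sum_ofFn_zip i.1 _ i.2.length' x.1 (0, 0) (fun p t => if p.2 = u then t else 0)]

lemma getD_eraseIdx {α : Type} (l : List α) (d : α) {n : ℕ} (a : Fin (n + 1)) (s : Fin n) :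
    l.getD (a.succAbove s) d = (l.eraseIdx a).getD s d := by
  rw [List.getD_eq_getElem?_getD, List.getD_eq_getElem?_getD, List.getElem?_eraseIdx]
  unfold Fin.succAbove
  by_cases h : s.castSucc < a
  · have h1 : (s : ℕ) < a := h
    rw [if_pos h, if_pos h1]
    rfl
  · have h1 : ¬ (s : ℕ) < a := h
    rw [if_neg h, if_neg h1]
    rfl

/-- the map on the realisation -/
noncomputable def ph : (stairGlue m k).Real → (Fin (m + 1) → ℝ) × (Fin (k + 1) → ℝ) :=
  Quot.lift (fun p => (fun u => phX p.1.1 p.2.1 u, fun u => phY p.1.1 p.2.1 u)) (by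
    rintro ⟨i, x⟩ ⟨j, y⟩ ⟨a, b, ha, hb, hf, hs⟩
    have hf' : i.1.eraseIdx a = j.1.eraseIdx b := Encodable.encode_injective hf
    have key : ∀ (F : ℕ × ℕ → ℝ → ℝ) (hF : ∀ p, F p 0 = 0),
        ∑ a : Fin (m + k - 2 + 1), F (i.1.getD a (0, 0)) (x.1 a) =
        ∑ a : Fin (m + k - 2 + 1), F (j.1.getD a (0, 0)) (y.1 a) := by
      intro F hF
      rw [Fin.sum_univ_succAbove _ a, Fin.sum_univ_succAbove _ b]
      simp only at ha hb hs
      rw [ha, hb, hF, hF, zero_add, zero_add]
      refine Finset.sum_congr rfl (fun s _ => ?_)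
      rw [hs s, getD_eraseIdx, getD_eraseIdx, hf']
    refine Prod.ext ?_ ?_
    · funext u
      exact key (fun p t => if p.1 = u then t else 0) (fun p => by split_ifs <;> rfl)
    · funext u
      exact key (fun p t => if p.2 = u then t else 0) (fun p => by split_ifs <;> rfl))

lemma ph_pt (i : (stairGlue m k).ι) (x : Sx (m + k - 2)) :
    ph ((stairGlue m k).pt i x) = (fun u : Fin (m + 1) => phX i.1 x.1 u, fun u : Fin (k + 1) => phY i.1 x.1 u) := rfl

lemma ph_isPLMap : IsPLMap (stairGlue m k) (ph (m := m) (k := k)) := by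
  intro i
  let T : (Fin (m + k - 2 + 1) → ℝ) →ₗ[ℝ] (Fin (m + 1) → ℝ) × (Fin (k + 1) → ℝ) :=
    (LinearMap.pi (fun u : Fin (m + 1) => ∑ a : Fin (m + k - 2 + 1),
      (if (i.1.getD a (0, 0)).1 = u then LinearMap.proj a else 0))).prod
    (LinearMap.pi (fun u : Fin (k + 1) => ∑ a : Fin (m + k - 2 + 1),
      (if (i.1.getD a (0, 0)).2 = u then LinearMap.proj a else 0)))
  refine ⟨[([], T)], ?_, ?_⟩
  · intro x
    refine ⟨_, List.mem_singleton_self _, ?_⟩
    intro ℓ hℓ
    simp at hℓ
  · intro P hP x _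
    rw [List.mem_singleton] at hP
    subst hP
    rw [ph_pt]
    refine Prod.ext ?_ ?_
    · funext u
      show phX i.1 x.1 u = (∑ a : Fin (m + k - 2 + 1),
        (if (i.1.getD a (0, 0)).1 = (u : ℕ) then (LinearMap.proj a : (Fin (m + k - 2 + 1) → ℝ) →ₗ[ℝ] ℝ) else 0)) x.1
      rw [LinearMap.sum_apply]
      refine Finset.sum_congr rfl (fun a _ => ?_)
      split_ifs <;> rfl
    · funext u
      show phY i.1 x.1 u = (∑ a : Fin (m + k - 2 + 1),
        (if (i.1.getD a (0, 0)).2 = (u : ℕ) then (LinearMap.proj a : (Fin (m + k - 2 + 1) → ℝ) →ₗ[ℝ] ℝ) else 0)) x.1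
      rw [LinearMap.sum_apply]
      refine Finset.sum_congr rfl (fun a _ => ?_)
      split_ifs <;> rfl

lemma ph_continuous : Continuous (ph (m := m) (k := k)) := by
  refine (isQuotientMap_quot_mk (r := (stairGlue m k).Rel)).continuous_iff.mpr ?_
  rw [continuous_sigma_iff]
  intro i
  show Continuous (fun x : Sx (m + k - 2) => ((fun u : Fin (m + 1) => phX i.1 x.1 u : Fin (m + 1) → ℝ),
    (fun u : Fin (k + 1) => phY i.1 x.1 u : Fin (k + 1) → ℝ)))
  refine Continuous.prodMk ?_ ?_
  · refine continuous_pi (fun u => ?_)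
    unfold phX
    refine continuous_finsetSum _ (fun a _ => ?_)
    split_ifs
    · exact (continuous_apply a).comp continuous_subtype_val
    · exact continuous_const
  · refine continuous_pi (fun u => ?_)
    unfold phY
    refine continuous_finsetSum _ (fun a _ => ?_)
    split_ifs
    · exact (continuous_apply a).comp continuous_subtype_val
    · exact continuous_const

lemma tot_eq_X {L : WL} (h : ∀ p ∈ L, p.1.1 < m + 1) : ∑ u : Fin (m + 1), mX L u = tot L := by
  have h1 := sum_mX (List.nodup_range (n := m + 1)) (L := L) (fun p hp => List.mem_range.mpr (h p hp))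
  rw [← h1, ← List.sum_toFinset _ List.nodup_range, List.toFinset_range, Finset.sum_range]

lemma tot_eq_Y {L : WL} (h : ∀ p ∈ L, p.1.2 < k + 1) : ∑ u : Fin (k + 1), mY L u = tot L := by
  have h1 := sum_mY (List.nodup_range (n := k + 1)) (L := L) (fun p hp => List.mem_range.mpr (h p hp))
  rw [← h1, ← List.sum_toFinset _ List.nodup_range, List.toFinset_range, Finset.sum_range]

lemma WS.bd {L : WL} (h : WS m k L) : (∀ p ∈ L, p.1.1 < m + 1 ∧ p.1.2 < k + 1) := fun p hp =>
  h.1.mem p.1 (List.mem_map_of_mem hp)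

lemma ph_mem (z : (stairGlue m k).Real) : ph z ∈ bdSx m ×ˢ bdSx k := by
  obtain ⟨i, x, rfl⟩ := (stairGlue m k).exists_pt z
  rw [ph_pt]
  have hws := wl_ws i x
  have htot := wl_tot i x
  obtain ⟨a, ha, b, hb, hp⟩ := hws.1
  have hW : WPath _ _ (wl i x) := ⟨hp, hws.2⟩
  refine ⟨⟨⟨fun u => ?_, ?_⟩, ⟨⟨a, List.mem_range.mp ha⟩, ?_⟩⟩, ⟨⟨fun u => ?_, ?_⟩, ⟨⟨b, List.mem_range.mp hb⟩, ?_⟩⟩⟩
  · show 0 ≤ phX i.1 x.1 u
    rw [← mX_wl]; exact mX_nonneg hws.2 _
  · show ∑ u : Fin (m + 1), phX i.1 x.1 u = 1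
    rw [← htot, ← tot_eq_X (fun p hp => (hws.bd p hp).1)]
    exact Finset.sum_congr rfl (fun u _ => (mX_wl i x u).symm)
  · show phX i.1 x.1 a = 0
    rw [← mX_wl]
    exact mX_zero a (fun p hp hpa => (List.nodup_range).not_mem_erase (hpa ▸ (hW.mem p hp).1))
  · show 0 ≤ phY i.1 x.1 u
    rw [← mY_wl]; exact mY_nonneg hws.2 _
  · show ∑ u : Fin (k + 1), phY i.1 x.1 u = 1
    rw [← htot, ← tot_eq_Y (fun p hp => (hws.bd p hp).2)]
    exact Finset.sum_congr rfl (fun u _ => (mY_wl i x u).symm)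
  · show phY i.1 x.1 b = 0
    rw [← mY_wl]
    exact mY_zero b (fun p hp hpa => (List.nodup_range).not_mem_erase (hpa ▸ (hW.mem p hp).2))

lemma ph_injective (hm : 2 ≤ m) (hk : 2 ≤ k) : Function.Injective (ph (m := m) (k := k)) := by
  intro z z' hz
  obtain ⟨i, x, rfl⟩ := (stairGlue m k).exists_pt z
  obtain ⟨j, y, rfl⟩ := (stairGlue m k).exists_pt z'
  rw [ph_pt, ph_pt] at hz
  have h1 := congrArg Prod.fst hz
  have h2 := congrArg Prod.snd hz
  have hX : ∀ u, mX (wl i x) u = mX (wl j y) u := by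
    intro u
    by_cases hu : u < m + 1
    · rw [mX_wl, mX_wl]; exact congrFun h1 ⟨u, hu⟩
    · rw [mX_zero u (fun p hp hpu => hu (hpu ▸ ((wl_ws i x).bd p hp).1)),
        mX_zero u (fun p hp hpu => hu (hpu ▸ ((wl_ws j y).bd p hp).1))]
  have hY : ∀ u, mY (wl i x) u = mY (wl j y) u := by
    intro u
    by_cases hu : u < k + 1
    · rw [mY_wl, mY_wl]; exact congrFun h2 ⟨u, hu⟩
    · rw [mY_zero u (fun p hp hpu => hu (hpu ▸ ((wl_ws i x).bd p hp).2)),
        mY_zero u (fun p hp hpu => hu (hpu ▸ ((wl_ws j y).bd p hp).2))]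
  have hc := connS hm hk (wl_ws i x) (wl_ws j y) hX hY
  rw [← ptL_wl i x, ← ptL_wl j y]
  exact (ptL_conn hc).2.2 _ _ _ _

lemma ph_surj (hm : 2 ≤ m) (hk : 2 ≤ k) (z : (Fin (m + 1) → ℝ) × (Fin (k + 1) → ℝ)) (hz : z ∈ bdSx m ×ˢ bdSx k) :
    ∃ w : (stairGlue m k).Real, ph w = z := by
  obtain ⟨⟨⟨hx0, hx1⟩, ⟨i, hi⟩⟩, ⟨⟨hy0, hy1⟩, ⟨j, hj⟩⟩⟩ := hz
  let x : ℕ → ℝ := fun u => if h : u < m + 1 then z.1 ⟨u, h⟩ else 0
  let y : ℕ → ℝ := fun u => if h : u < k + 1 then z.2 ⟨u, h⟩ else 0
  have hxv : ∀ u : Fin (m + 1), x u = z.1 u := fun u => dif_pos u.2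
  have hyv : ∀ u : Fin (k + 1), y u = z.2 u := fun u => dif_pos u.2
  have hxn : ∀ u, 0 ≤ x u := fun u => by
    by_cases h : u < m + 1
    · simp only [x, h, dif_pos]; exact hx0 _
    · simp only [x, h, dif_neg, not_false_eq_true]; exact le_rfl
  have hyn : ∀ u, 0 ≤ y u := fun u => by
    by_cases h : u < k + 1
    · simp only [y, h, dif_pos]; exact hy0 _
    · simp only [y, h, dif_neg, not_false_eq_true]; exact le_rfl
  have himem : (i : ℕ) ∈ List.range (m + 1) := List.mem_range.mpr i.2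
  have hjmem : (j : ℕ) ∈ List.range (k + 1) := List.mem_range.mpr j.2
  have sx : ((List.range (m + 1)).map x).sum = 1 := by
    rw [← List.sum_toFinset _ List.nodup_range, List.toFinset_range, Finset.sum_range, ← hx1]
    exact Finset.sum_congr rfl (fun u _ => hxv u)
  have sy : ((List.range (k + 1)).map y).sum = 1 := by
    rw [← List.sum_toFinset _ List.nodup_range, List.toFinset_range, Finset.sum_range, ← hy1]
    exact Finset.sum_congr rfl (fun u _ => hyv u)
  have s1 := List.sum_map_erase x himem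
  have s2 := List.sum_map_erase y hjmem
  rw [hxv, hi, zero_add] at s1
  rw [hyv, hj, zero_add] at s2
  have len : ∀ (n i : ℕ), 2 ≤ n → i ∈ List.range (n + 1) → (List.range (n + 1)).erase i ≠ [] := by
    intro n i hn hi h
    have := List.length_erase_of_mem hi
    rw [h, List.length_range] at this
    simp only [List.length_nil] at this
    omega
  obtain ⟨L, hL, hLx, hLy⟩ := cover _ _ _ x y rfl (len m i hm himem) (len k j hk hjmem) (nodup_range_erase m i)
    (nodup_range_erase k j) (fun u _ => hxn u) (fun u _ => hyn u) (by rw [s1, s2, sx, sy])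
  have hWS : WS m k L := WPath.toWS himem hjmem hL
  have hX : ∀ u : Fin (m + 1), mX L u = z.1 u := by
    intro u
    rw [← hxv]
    by_cases hu : u = i
    · subst hu
      rw [hxv, hi]
      exact mX_zero _ (fun p hp hpa => (List.nodup_range).not_mem_erase (hpa ▸ (hL.mem p hp).1))
    · exact hLx u ((List.mem_erase_of_ne (fun h => hu (Fin.ext h))).mpr (List.mem_range.mpr u.2))
  have hY : ∀ u : Fin (k + 1), mY L u = z.2 u := by
    intro u
    rw [← hyv]
    by_cases hu : u = j
    · subst hu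
      rw [hyv, hj]
      exact mY_zero _ (fun p hp hpa => (List.nodup_range).not_mem_erase (hpa ▸ (hL.mem p hp).2))
    · exact hLy u ((List.mem_erase_of_ne (fun h => hu (Fin.ext h))).mpr (List.mem_range.mpr u.2))
  have ht : tot L = 1 := by
    rw [← tot_eq_X (fun p hp => (hWS.bd p hp).1), ← hx1]
    exact Finset.sum_congr rfl (fun u _ => hX u)
  refine ⟨ptL L hWS ht, ?_⟩
  unfold ptL
  have hwl : wl (fct L hWS) (crd L hWS ht) = L := wl_fct L hWS ht
  rw [ph_pt]
  refine Prod.ext ?_ ?_
  · funext u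
    show phX _ _ (u : ℕ) = _
    rw [← mX_wl, hwl, hX]
  · funext u
    show phY _ _ (u : ℕ) = _
    rw [← mY_wl, hwl, hY]

/-- **The staircase triangulation.** The realisation is piecewise linearly homeomorphic to the polyhedron
`∂Δ^m × ∂Δ^k`. -/
theorem stair_onto (hm : 2 ≤ m) (hk : 2 ≤ k) : PLHomeoOnto (stairGlue m k) (bdSx m ×ˢ bdSx k) := by
  let f : (stairGlue m k).Real → (bdSx m ×ˢ bdSx k : Set _) := fun z => ⟨ph z, ph_mem z⟩
  have hf : Continuous f := ph_continuous.subtype_mk _
  have hb : Function.Bijective f := by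
    refine ⟨fun z z' h => ph_injective hm hk (congrArg Subtype.val h), fun w => ?_⟩
    obtain ⟨z, hz⟩ := ph_surj hm hk w.1 w.2
    exact ⟨z, Subtype.ext hz⟩
  refine ⟨Continuous.homeoOfEquivCompactToT2 (f := Equiv.ofBijective f hb) hf, ?_⟩
  exact ph_isPLMap

end Pool.Agent.H34.PLE.Stair
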